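import Pool.Agent.Lib.MP_39893a_lc.AGL.Spec

section
/-!
# Dependencies of the transducer of an attribute grammar (MP_39893a_lc, hive AGL, module AGD)
-/
set_option autoImplicit false

namespace Pool.Agent.Lib.MP_39893a_lc.AGL

namespace AGDM

open Relation

theorem sub_append (u : List ℕ) : ∀ (s : Tree) (σ r : ℕ) (c : Fin r → Tree) (i : ℕ) (h : i < r),
    sub s u = some (.node σ r c) → sub s (u ++ [i]) = some (c ⟨i, h⟩) := by
  induction u with
  | nil =>
    intro s σ r c i h hs
    simp only [sub, Option.some.injEq] at hs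
    subst hs
    simp [sub, h]
  | cons j u ih =>
    intro s σ r c i h hs
    cases s with
    | node σ' r' c' =>
      simp only [List.cons_append, sub] at hs ⊢
      split_ifs at hs ⊢ with hj
      exact ih _ σ r c i h hs

theorem nd_append {s : Tree} {w : List ℕ} {σ r : ℕ} {c : Fin r → Tree} {i : ℕ} (h : i < r)
    (hs : nd s w = some (.node σ r c)) : nd s (w ++ [i]) = some (c ⟨i, h⟩) := by
  cases w with
  | nil => simp [nd] at hs
  | cons j u =>
    cases j with
    | zero =>
      simp only [List.cons_append, nd] at hs ⊢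
      exact sub_append u s σ r c i h hs
    | succ j => simp [nd] at hs

theorem sub_ranked {A : List ℕ} (u : List ℕ) : ∀ (s v : Tree), Ranked A s → sub s u = some v →
    Ranked A v := by
  induction u with
  | nil =>
    intro s v hs h
    simp only [sub, Option.some.injEq] at h
    exact h ▸ hs
  | cons j u ih =>
    intro s v hs h
    cases s with
    | node σ' r' c' =>
      simp only [sub] at h
      split_ifs at h with hj
      exact ih _ v (hs.2 _) h

theorem nd_ranked {A : List ℕ} {s v : Tree} {w : List ℕ} (hs : Ranked A s)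
    (h : nd s w = some v) : Ranked A v := by
  cases w with
  | nil => simp [nd] at h
  | cons j u =>
    cases j with
    | zero => exact sub_ranked u s v hs h
    | succ j => simp [nd] at h

variable {A B : List ℕ} (G : AG A B)

/-- Definedness at the children of a node, by induction on the fuel. -/
theorem node_defined (hnc : G.Noncircular) (s : Tree) (hs : Ranked A s) (w : List ℕ)
    (σ r : ℕ) (c : Fin r → Tree) (hw : nd s w = some (.node σ r c))
    (ih : ∀ (i : Fin r) (a : Fin G.p) (ρ : Fin G.q → Option Tree),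
      (∀ b, TransGen (G.Dep s) (w ++ [(i : ℕ)], Sum.inl a) (w ++ [(i : ℕ)], Sum.inr b) →
        (ρ b).isSome) → (G.toPT.run (c i) a ρ).isSome)
    (ρ : Fin G.q → Option Tree) : ∀ (f : ℕ) (τ : ATm G.p G.q) (Vis : Finset (Fin r × Fin G.q)),
      τ.WF B r →
      (∀ y ∈ Vis, ∀ z ∈ G.leaves w τ,
        TransGen (G.Dep s) (w ++ [(y.1 : ℕ)], Sum.inr y.2) z) →
      r * G.q + 1 ≤ f + Vis.card →
      (∀ b, (∃ z ∈ G.leaves w τ, ReflTransGen (G.Dep s) z (w, Sum.inr b)) → (ρ b).isSome) →
      ((conv (G.inhT σ f) τ).ev ρ fun i q' ρ' =>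
        if h : i < r then G.toPT.run (c ⟨i, h⟩) q' ρ' else none).isSome := by
  intro f
  induction f with
  | zero =>
    intro τ Vis _ _ hf _
    exfalso
    have : Vis.card ≤ r * G.q := by
      have := Finset.card_le_univ Vis
      simpa using this
    omega
  | succ f ihf =>
    intro τ
    induction τ with
    | inh b =>
      intro Vis _ _ _ hρ
      simp only [conv, Tm.ev]
      exact hρ b ⟨_, by simp [AG.leaves], ReflTransGen.refl⟩
    | out f' n cc ihc =>
      intro Vis hwf hvis hf hρ
      simp only [conv, Tm.ev]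
      have : ∀ i, ((conv (G.inhT σ (f + 1)) (cc i)).ev ρ fun i q' ρ' =>
          if h : i < r then G.toPT.run (c ⟨i, h⟩) q' ρ' else none).isSome := by
        intro i
        refine ihc i Vis (hwf.2 i) ?_ hf ?_
        · intro y hy z hz
          exact hvis y hy z (by simp only [AG.leaves, Set.mem_iUnion]; exact ⟨i, hz⟩)
        · rintro b ⟨z, hz, hzb⟩
          exact hρ b ⟨z, by simp only [AG.leaves, Set.mem_iUnion]; exact ⟨i, hz⟩, hzb⟩
      rw [dif_pos this]
      rfl
    | syn a' i =>
      intro Vis hwf hvis hf hρ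
      have hi : i < r := hwf
      simp only [conv, Tm.ev, dif_pos hi]
      refine ih ⟨i, hi⟩ a' _ ?_
      intro b' hb'
      simp only [AG.inhT]
      have hleaf : ((w ++ [i], Sum.inl a') : G.Inst) ∈ G.leaves w (.syn a' i) := by
        simp [AG.leaves]
      have hnot : (⟨i, hi⟩, b') ∉ Vis := by
        intro hmem
        have h1 := hvis _ hmem _ hleaf
        exact hnc s hs _ (h1.trans hb')
      refine ihf (G.inh σ i b') (insert (⟨i, hi⟩, b') Vis) ?_ ?_ ?_ ?_
      · have hr : A[σ]? = some r := (nd_ranked hs hw).1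
        exact G.wf_inh σ r i b' hr hi
      · intro y hy z hz
        have hd : G.Dep s (w ++ [i], Sum.inr b') z := AG.Dep.inh w i b' σ r c z hw hi hz
        rcases Finset.mem_insert.1 hy with rfl | hy
        · exact TransGen.single hd
        · exact ((hvis y hy _ hleaf).trans hb').tail hd
      · rw [Finset.card_insert_of_notMem hnot]
        omega
      · rintro b ⟨z, hz, hzb⟩
        have hd : G.Dep s (w ++ [i], Sum.inr b') z := AG.Dep.inh w i b' σ r c z hw hi hz
        exact hρ b ⟨_, hleaf, (hb'.to_reflTransGen.tail hd).trans hzb⟩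

/-- `run v a` is defined when all the parameters on which it depends are. -/
theorem key (hnc : G.Noncircular) (s : Tree) (hs : Ranked A s) : ∀ (v : Tree) (w : List ℕ),
    nd s w = some v → ∀ (a : Fin G.p) (ρ : Fin G.q → Option Tree),
      (∀ b, TransGen (G.Dep s) (w, Sum.inl a) (w, Sum.inr b) → (ρ b).isSome) →
      (G.toPT.run v a ρ).isSome := by
  intro v
  induction v with
  | node σ r c ih =>
    intro w hw a ρ hρ
    have hr : A[σ]? = some r := (nd_ranked hs hw).1
    have hfuel : G.fuel σ = r * G.q + 1 := by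
      simp [AG.fuel, List.getD, hr]
    simp only [PT.run]
    refine node_defined G hnc s hs w σ r c hw ?_ ρ (G.fuel σ) (G.syn σ a) ∅
      (G.wf_syn σ r a hr) (by simp) (by simp [hfuel]) ?_
    · intro i a ρ h
      exact ih i (w ++ [(i : ℕ)]) (nd_append i.2 hw) a ρ h
    · rintro b ⟨z, hz, hzb⟩
      exact hρ b (TransGen.head' (AG.Dep.syn w a σ r c z hw hz) hzb)

/-- Definedness of the terms at the virtual node. -/
theorem root_defined (hnc : G.Noncircular) (s : Tree) (hs : Ranked A s) :
    ∀ (f : ℕ) (τ : ATm G.p G.q) (Vis : Finset (Fin G.q)), τ.WF B 1 → τ.NoInh →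
      (∀ y ∈ Vis, ∀ z ∈ G.leaves [] τ, TransGen (G.Dep s) ([0], Sum.inr y) z) →
      G.q + 1 ≤ f + Vis.card →
      ((conv (G.rootT f) τ).ev (fun _ => none) fun _ => G.toPT.run s).isSome := by
  intro f
  induction f with
  | zero =>
    intro τ Vis _ _ _ hf
    exfalso
    have : Vis.card ≤ G.q := by
      have := Finset.card_le_univ Vis
      simpa using this
    omega
  | succ f ihf =>
    intro τ
    induction τ with
    | inh b =>
      intro Vis _ hni _ _
      exact hni.elim
    | out f' n cc ihc =>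
      intro Vis hwf hni hvis hf
      simp only [conv, Tm.ev]
      have : ∀ i, ((conv (G.rootT (f + 1)) (cc i)).ev (fun _ => none)
          fun _ => G.toPT.run s).isSome := by
        intro i
        refine ihc i Vis (hwf.2 i) (hni i) ?_ hf
        intro y hy z hz
        exact hvis y hy z (by simp only [AG.leaves, Set.mem_iUnion]; exact ⟨i, hz⟩)
      rw [dif_pos this]
      rfl
    | syn a' i =>
      intro Vis hwf _ hvis hf
      have hi : i = 0 := by
        have : i < 1 := hwf
        omega
      subst hi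
      simp only [conv, Tm.ev]
      refine key G hnc s hs s [0] (by simp [nd, sub]) a' _ ?_
      intro b' hb'
      simp only [AG.rootT]
      have hleaf : (([0], Sum.inl a') : G.Inst) ∈ G.leaves [] (.syn a' 0) := by
        simp [AG.leaves]
      have hnot : b' ∉ Vis := by
        intro hmem
        exact hnc s hs _ ((hvis _ hmem _ hleaf).trans hb')
      refine ihf (G.root b') (insert b' Vis) (G.wf_root b').1 (G.wf_root b').2 ?_ ?_
      · intro y hy z hz
        have hd : G.Dep s ([0], Sum.inr b') z := AG.Dep.root b' z hz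
        rcases Finset.mem_insert.1 hy with rfl | hy
        · exact TransGen.single hd
        · exact ((hvis y hy _ hleaf).trans hb').tail hd
      · rw [Finset.card_insert_of_notMem hnot]
        omega

end AGDM

open AGDM in
theorem specAgd : SpecAgd := by
  intro A B G hnc s hs
  refine ⟨?_, ?_⟩
  · intro u i v hv a
    refine ⟨key G hnc s hs v (u ++ [i]) hv a _ (fun _ _ => rfl), ?_⟩
    intro b hocc
    by_contra hb
    have h := key G hnc s hs v (u ++ [i]) hv a (fun l => if l = b then none else some t0)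
      (by
        intro b' hb'
        by_cases hbb : b' = b
        · subst hbb
          exact absurd hb' hb
        · simp [hbb])
    unfold occ at hocc
    rw [hocc] at h
    simp at h
  · have := root_defined G hnc s hs (G.q + 1) (.syn G.a0 0) ∅ (by simp [ATm.WF])
      (by simp [ATm.NoInh]) (by simp) (by simp)
    exact this

end Pool.Agent.Lib.MP_39893a_lc.AGL
end

section
/-!
# The transducer of an attribute grammar is regular (MP_39893a_lc, AGL, module AGR)
-/
set_option autoImplicit false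

namespace Pool.Agent.Lib.MP_39893a_lc.AGL

namespace AGRM

/-! ## Addresses -/

theorem sub_append (s : Tree) : ∀ (u : List ℕ) (j : ℕ) (a r : ℕ) (c : Fin r → Tree),
    sub s u = some (.node a r c) → ∀ h : j < r, sub s (u ++ [j]) = some (c ⟨j, h⟩) := by
  induction s with
  | node a' r' c' ih =>
    intro u j a r c hu h
    cases u with
    | nil =>
      rw [sub] at hu
      have hu' := Option.some.inj hu
      injection hu' with h1 h2 h3
      subst h1 h2
      have h3' := eq_of_heq h3
      subst h3'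
      simp [sub, h]
    | cons i u =>
      rw [sub] at hu
      rw [List.cons_append, sub]
      split at hu
      · next hi =>
        rw [dif_pos hi]
        exact ih ⟨i, hi⟩ u j a r c hu h
      · cases hu

theorem nd_append (s : Tree) (u : List ℕ) (j a r : ℕ) (c : Fin r → Tree)
    (hu : nd s u = some (.node a r c)) (h : j < r) : nd s (u ++ [j]) = some (c ⟨j, h⟩) := by
  match u, hu with
  | 0 :: u, hu => exact sub_append s u j a r c hu h

theorem sub_ranked (A : List ℕ) (s : Tree) : ∀ (u : List ℕ) (v : Tree), Ranked A s →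
    sub s u = some v → Ranked A v := by
  induction s with
  | node a r c ih =>
    intro u v hs hu
    cases u with
    | nil =>
      rw [sub] at hu
      rw [← Option.some.inj hu]
      exact hs
    | cons i u =>
      rw [sub] at hu
      split at hu
      · next hi => exact ih ⟨i, hi⟩ u v (hs.2 _) hu
      · cases hu

theorem nd_ranked (A : List ℕ) (s : Tree) (u : List ℕ) (v : Tree) (hs : Ranked A s)
    (hu : nd s u = some v) : Ranked A v := by
  match u, hu with
  | 0 :: u, hu => exact sub_ranked A s u v hs hu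

theorem nd_rank (A : List ℕ) (s : Tree) (u : List ℕ) (σ r : ℕ) (c : Fin r → Tree)
    (hs : Ranked A s) (hu : nd s u = some (.node σ r c)) : A[σ]? = some r :=
  (nd_ranked A s u _ hs hu).1

/-- Address of the hole. -/
def addr : Ctx → List ℕ
  | .hole => []
  | .node _ _ i _ K => (i : ℕ) :: addr K

theorem good_mono {n P : ℕ} (𝒯 : Typing) (low : ℕ → Prop) (g : Fns n P) (ζ : Tm n P) :
    ∀ e e', e ≤ e' → Good 𝒯 low g ζ e → Good 𝒯 low g ζ e' := by
  induction ζ with
  | bot => intro e e' _ _; trivial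
  | par j => intro e e' _ _; trivial
  | out b r c ih =>
    intro e e' h hg i
    exact ih i e e' h (hg i)
  | call q i c ih =>
    intro e e' h hg
    cases e with
    | zero => exact absurd hg (by simp [Good])
    | succ e =>
      cases e' with
      | zero => omega
      | succ e' =>
        intro j hj
        exact ⟨ih j e e' (by omega) (hg j hj).1, (hg j hj).2⟩

section main

variable {A B : List ℕ} (G : AG A B) (s : Tree) (H : List ℕ) (g : Fns G.p G.q)

/-- Reachability in the dependency graph. -/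
abbrev RT : G.Inst → G.Inst → Prop := Relation.ReflTransGen (G.Dep s)

/-- The defined parameters are values of the inherited attributes at `w`. -/
def SoundAt (w : List ℕ) (ρ : Fin G.q → Option Tree) : Prop :=
  ∀ b t, ρ b = some t → G.Ev s w (.inh b) t

/-- The value of `ζ` is the value of `(H, b)`. -/
def Snd (w : List ℕ) (ζ : Tm G.p G.q) (b : Fin G.q) : Prop :=
  ∀ ρ, SoundAt G s w ρ → ∀ t, ζ.ev ρ (fun _ => g) = some t → G.Ev s H (.inh b) t

/-- Calls and parameters in needed positions are dependencies of `x`. -/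
def Src (w : List ℕ) : Tm G.p G.q → G.Inst → Prop
  | .bot, _ => True
  | .par b, x => RT G s x (w, Sum.inr b)
  | .out _ _ c, x => ∀ i, Src w (c i) x
  | .call a _ c, x => RT G s x (H, Sum.inl a) ∧
      ∀ b, occ (g a) b → Src w (c b) (H, Sum.inr b) ∧ Snd G s H g w (c b) b

variable {G s H g}

theorem src_mono (w : List ℕ) (ζ : Tm G.p G.q) : ∀ x y : G.Inst, RT G s x y →
    Src G s H g w ζ y → Src G s H g w ζ x := by
  induction ζ with
  | bot => intro x y _ _; trivial
  | par b => intro x y h hy; exact h.trans hy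
  | out b r c ih => intro x y h hy i; exact ih i x y h (hy i)
  | call a i c ih => intro x y h hy; exact ⟨h.trans hy.1, hy.2⟩

theorem src_subst (hB : SpecBind) (w w' : List ℕ) (σ : Fin G.q → Tm G.p G.q)
    (h1 : ∀ b, Src G s H g w' (σ b) (w, Sum.inr b))
    (h2 : ∀ b ρ', SoundAt G s w' ρ' → ∀ t, (σ b).ev ρ' (fun _ => g) = some t →
      G.Ev s w (.inh b) t) (ζ : Tm G.p G.q) :
    ∀ x, Src G s H g w ζ x → Src G s H g w' (ζ.subst σ) x := by
  induction ζ with
  | bot => intro x _; trivial
  | par b => intro x hx; exact src_mono w' (σ b) x _ hx (h1 b)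
  | out b r c ih => intro x hx i; exact ih i x (hx i)
  | call a i c ih =>
    intro x hx
    refine ⟨hx.1, fun b hb => ⟨ih b _ (hx.2 b hb).1, fun ρ' hρ' t ht => ?_⟩⟩
    have e : ((c b).subst σ).ev ρ' (fun _ => g)
        = (c b).ev (fun j => (σ j).ev ρ' fun _ => g) fun _ => g := hB.1 _ _ _ _ _ _
    have ht' : ((c b).subst σ).ev ρ' (fun _ => g) = some t := ht
    rw [e] at ht'
    exact (hx.2 b hb).2 _ (fun b' t' h' => h2 b' ρ' hρ' t' h') t ht'

/-- Unrolled rules at a node. -/
theorem src_conv (hB : SpecBind) (hS : SpecAgs) {u : List ℕ} {σ r : ℕ} {c : Fin r → Tree}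
    (hu : nd s u = some (.node σ r c)) (hA : A[σ]? = some r) (F : ℕ → Fin G.p → Tm G.p G.q)
    (hF : ∀ j < r, ∀ a, Src G s H g (u ++ [j]) (F j a) (u ++ [j], Sum.inl a))
    (hF2 : ∀ j a ρ, (F j a).ev ρ (fun _ => g)
      = if h : j < r then G.toPT.run (c ⟨j, h⟩) a ρ else none) (f : ℕ) :
    (∀ τ : ATm G.p G.q, τ.WF B r → ∀ x, (∀ y ∈ G.leaves u τ, RT G s x y) →
      Src G s H g u ((conv (G.inhT σ f) τ).bind F) x) ∧
    ∀ j < r, ∀ b, Src G s H g u ((G.inhT σ f j b).bind F) (u ++ [j], Sum.inr b) := by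
  induction f with
  | zero =>
    have hb : ∀ j < r, ∀ b, Src G s H g u ((G.inhT σ 0 j b).bind F) (u ++ [j], Sum.inr b) :=
      fun j _ b => trivial
    refine ⟨fun τ => ?_, hb⟩
    exact src_conv_aux hB hS hu F hF hF2 0 hb τ
  | succ f ih =>
    have hb : ∀ j < r, ∀ b, Src G s H g u ((G.inhT σ (f + 1) j b).bind F)
        (u ++ [j], Sum.inr b) := by
      intro j hj b
      exact ih.1 (G.inh σ j b) (G.wf_inh σ r j b hA hj) _ fun y hy =>
        Relation.ReflTransGen.single (AG.Dep.inh u j b σ r c y hu hj hy)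
    refine ⟨fun τ => ?_, hb⟩
    exact src_conv_aux hB hS hu F hF hF2 (f + 1) hb τ
where
  src_conv_aux (hB : SpecBind) (hS : SpecAgs) {u : List ℕ} {σ r : ℕ} {c : Fin r → Tree}
      (hu : nd s u = some (.node σ r c)) (F : ℕ → Fin G.p → Tm G.p G.q)
      (hF : ∀ j < r, ∀ a, Src G s H g (u ++ [j]) (F j a) (u ++ [j], Sum.inl a))
      (hF2 : ∀ j a ρ, (F j a).ev ρ (fun _ => g)
        = if h : j < r then G.toPT.run (c ⟨j, h⟩) a ρ else none) (f : ℕ)
      (hb : ∀ j < r, ∀ b, Src G s H g u ((G.inhT σ f j b).bind F) (u ++ [j], Sum.inr b))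
      (τ : ATm G.p G.q) : τ.WF B r → ∀ x, (∀ y ∈ G.leaves u τ, RT G s x y) →
        Src G s H g u ((conv (G.inhT σ f) τ).bind F) x := by
    induction τ with
    | syn a j =>
      intro hw x hx
      have hj : j < r := hw
      have hxa : RT G s x (u ++ [j], Sum.inl a) := hx _ rfl
      show Src G s H g u ((F j a).subst fun b => (G.inhT σ f j b).bind F) x
      refine src_subst hB (u ++ [j]) u _ (fun b => hb j hj b) (fun b ρ' hρ' t ht => ?_) (F j a) x
        (src_mono _ _ _ _ hxa (hF j hj a))
      rw [hB.2.1] at ht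
      simp only [hF2] at ht
      exact (hS A B G).2.1 s u σ r c f j b ρ' t hu hj hρ' ht
    | inh b =>
      intro _ x hx
      exact hx _ rfl
    | out f' n d ih =>
      intro hw x hx i
      exact ih i (hw.2 i) x fun y hy => hx y (Set.mem_iUnion.2 ⟨i, hy⟩)

theorem src_unfT (hB : SpecBind) (hS : SpecAgs) (hs : Ranked A s) (v : Tree) :
    ∀ w : List ℕ, nd s w = some v → ∀ a, Src G s H g w (G.toPT.unfT v a) (w, Sum.inl a) := by
  induction v with
  | node σ r c ih =>
    intro w hw a
    have hA := nd_rank A s w σ r c hs hw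
    have h := (src_conv hB hS hw hA
      (fun j a => if h : j < r then G.toPT.unfT (c ⟨j, h⟩) a else .bot)
      (fun j hj a => by
        rw [dif_pos hj]
        exact ih ⟨j, hj⟩ (w ++ [j]) (nd_append s w j σ r c hw hj) a)
      (fun j a ρ => by
        split
        · exact hB.2.2.1 _ _ _ _ _ _ _
        · rfl) (G.fuel σ)).1 (G.syn σ a) (G.wf_syn σ r a hA) (w, Sum.inl a) fun y hy =>
          Relation.ReflTransGen.single (AG.Dep.syn w a σ r c y hw hy)
    exact h

theorem src_unfC (hB : SpecBind) (hS : SpecAgs) (hs : Ranked A s) (v : Tree)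
    (hg : g = G.toPT.run v) (K : Ctx) :
    ∀ w : List ℕ, nd s w = some (plug K v) → H = w ++ addr K →
      ∀ a, Src G s H g w (G.toPT.unfC K a) (w, Sum.inl a) := by
  induction K with
  | hole =>
    intro w _ hH a
    have hH' : H = w := by rw [hH]; simp [addr]
    subst hH'
    refine ⟨Relation.ReflTransGen.refl, fun b _ => ⟨Relation.ReflTransGen.refl, ?_⟩⟩
    intro ρ hρ t ht
    exact hρ b t ht
  | node σ r i c K ih =>
    intro w hw hH a
    rw [plug] at hw
    have hA := nd_rank A s w σ r _ hs hw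
    have h := (src_conv hB hS hw hA
      (fun j a => if h : j < r then
        (if (⟨j, h⟩ : Fin r) = i then G.toPT.unfC K a else G.toPT.unfT (c ⟨j, h⟩) a) else .bot)
      (fun j hj a => by
        rw [dif_pos hj]
        have h1 := nd_append s w j σ r _ hw hj
        split
        · next hi =>
          rw [hi, Function.update_self] at h1
          refine ih (w ++ [j]) h1 ?_ a
          rw [hH, addr, ← hi]
          simp
        · next hi =>
          rw [Function.update_of_ne hi] at h1
          exact src_unfT hB hS hs _ (w ++ [j]) h1 a)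
      (fun j a ρ => by
        split
        · next hj =>
          split
          · next hi =>
            rw [hg, hB.2.2.2.1, hi, Function.update_self]
          · next hi =>
            rw [Function.update_of_ne hi]
            exact hB.2.2.1 _ _ _ _ _ _ _
        · rfl) (G.fuel σ)).1 (G.syn σ a) (G.wf_syn σ r a hA) (w, Sum.inl a) fun y hy =>
          Relation.ReflTransGen.single (AG.Dep.syn w a σ r _ y hw hy)
    exact h

theorem not_ev_nil (b : Fin G.q) (t : Tree) : ¬ G.Ev s [] (.inh b) t := by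
  intro h
  generalize hu : ([] : List ℕ) = u at h
  generalize hτ : (ATm.inh b : ATm G.p G.q) = τ at h
  cases h with
  | out => cases hτ
  | syn => cases hτ
  | inh u i => simp at hu
  | root => cases hu

/-- Unrolled root rules. -/
theorem src_root (hB : SpecBind) (hS : SpecAgs) (F : Fin G.p → Tm G.p G.q)
    (hF : ∀ a, Src G s H g [0] (F a) ([0], Sum.inl a))
    (hF2 : ∀ a ρ, (F a).ev ρ (fun _ => g) = G.toPT.run s a ρ) (f : ℕ) :
    (∀ τ : ATm G.p G.q, τ.WF B 1 → τ.NoInh → ∀ x, (∀ y ∈ G.leaves [] τ, RT G s x y) →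
      Src G s H g [] ((conv (G.rootT f) τ).bind fun _ a => F a) x) ∧
    ∀ j b, Src G s H g [] ((G.rootT f j b).bind fun _ a => F a) ([0], Sum.inr b) := by
  induction f with
  | zero =>
    have hb : ∀ j b, Src G s H g [] ((G.rootT 0 j b).bind fun _ a => F a) ([0], Sum.inr b) :=
      fun j b => trivial
    refine ⟨fun τ => ?_, hb⟩
    exact aux hB hS F hF hF2 0 hb τ
  | succ f ih =>
    have hb : ∀ j b, Src G s H g [] ((G.rootT (f + 1) j b).bind fun _ a => F a)
        ([0], Sum.inr b) := by
      intro j b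
      exact ih.1 (G.root b) (G.wf_root b).1 (G.wf_root b).2 _ fun y hy =>
        Relation.ReflTransGen.single (AG.Dep.root b y hy)
    refine ⟨fun τ => ?_, hb⟩
    exact aux hB hS F hF hF2 (f + 1) hb τ
where
  aux (hB : SpecBind) (hS : SpecAgs) (F : Fin G.p → Tm G.p G.q)
      (hF : ∀ a, Src G s H g [0] (F a) ([0], Sum.inl a))
      (hF2 : ∀ a ρ, (F a).ev ρ (fun _ => g) = G.toPT.run s a ρ) (f : ℕ)
      (hb : ∀ j b, Src G s H g [] ((G.rootT f j b).bind fun _ a => F a) ([0], Sum.inr b))
      (τ : ATm G.p G.q) : τ.WF B 1 → τ.NoInh → ∀ x, (∀ y ∈ G.leaves [] τ, RT G s x y) →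
        Src G s H g [] ((conv (G.rootT f) τ).bind fun _ a => F a) x := by
    induction τ with
    | syn a j =>
      intro hw _ x hx
      have hj : j = 0 := by
        have : j < 1 := hw
        omega
      subst hj
      have hxa : RT G s x ([0], Sum.inl a) := hx _ rfl
      show Src G s H g [] ((F a).subst fun b => (G.rootT f 0 b).bind fun _ a => F a) x
      refine src_subst hB [0] [] _ (fun b => hb 0 b) (fun b ρ' hρ' t ht => ?_) (F a) x
        (src_mono _ _ _ _ hxa (hF a))
      have hρ0 : ρ' = fun _ => none := by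
        funext b'
        cases h : ρ' b' with
        | none => rfl
        | some t' => exact absurd (hρ' b' t' h) (not_ev_nil b' t')
      rw [hB.2.1, hρ0] at ht
      simp only [hF2] at ht
      exact (hS A B G).2.2.1 s f 0 b t ht
    | inh b =>
      intro _ h0
      exact absurd h0 (by simp [ATm.NoInh])
    | out f' n d ih =>
      intro hw h0 x hx i
      exact ih i (hw.2 i) (h0 i) x fun y hy => hx y (Set.mem_iUnion.2 ⟨i, hy⟩)

open Classical in
/-- Number of synthesized attributes of the hole reachable from `x`. -/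
noncomputable def rank (G : AG A B) (s : Tree) (H : List ℕ) (x : G.Inst) : ℕ :=
  (Finset.univ.filter fun a : Fin G.p => RT G s x (H, Sum.inl a)).card

theorem good_of_src (𝒯 : Typing) (low : ℕ → Prop)
    (hlow : ∀ (b : Fin G.q) (t : Tree), G.Ev s H (.inh b) t → low (𝒯.ty t))
    (hcirc : ∀ x, ¬ Relation.TransGen (G.Dep s) x x)
    (hocc : ∀ a b, occ (g a) b → Relation.TransGen (G.Dep s) (H, Sum.inl a) (H, Sum.inr b))
    (w : List ℕ) (ζ : Tm G.p G.q) : ∀ x, Src G s H g w ζ x →
      Good 𝒯 low g ζ (rank G s H x) := by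
  classical
  induction ζ with
  | bot => intro x _; trivial
  | par b => intro x _; trivial
  | out b r c ih => intro x hx i; exact ih i x (hx i)
  | call a i c ih =>
    intro x hx
    have hlt : ∀ b, occ (g a) b → rank G s H (H, Sum.inr b) < rank G s H x := by
      intro b hb
      apply Finset.card_lt_card
      rw [Finset.ssubset_iff_of_subset]
      · refine ⟨a, ?_, ?_⟩
        · simp only [Finset.mem_filter, Finset.mem_univ, true_and]
          exact hx.1
        · simp only [Finset.mem_filter, Finset.mem_univ, true_and]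
          intro h
          exact hcirc _ (Relation.TransGen.trans_left (hocc a b hb) h)
      · intro a' ha'
        simp only [Finset.mem_filter, Finset.mem_univ, true_and] at ha' ⊢
        exact (hx.1.trans (hocc a b hb).to_reflTransGen).trans ha'
    have hpos : 0 < rank G s H x := by
      apply Finset.card_pos.2
      refine ⟨a, ?_⟩
      simp only [Finset.mem_filter, Finset.mem_univ, true_and]
      exact hx.1
    obtain ⟨e, he⟩ : ∃ e, rank G s H x = e + 1 := ⟨rank G s H x - 1, by omega⟩
    rw [he]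
    intro b hb
    have h1 := hlt b hb
    refine ⟨good_mono 𝒯 low g (c b) _ e (by omega) (ih b _ (hx.2 b hb).1), fun t ht => ?_⟩
    apply hlow b t
    exact (hx.2 b hb).2 (fun _ => none) (fun _ _ h => by cases h) t ht

end main

theorem sub_plug (K : Ctx) (v : Tree) : sub (plug K v) (addr K) = some v := by
  induction K with
  | hole => cases v; rfl
  | node a r i c K ih =>
    rw [plug, addr, sub, dif_pos i.2]
    simp only [Fin.eta, Function.update_self]
    exact ih

end AGRM

open AGRM in
theorem specAgr (hB : SpecBind) (hS : SpecAgs) (hD : SpecAgd) : SpecAgr := by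
  intro A B G hG 𝒯 low hlow K v hR _
  set s := plug K v with hs
  set H := 0 :: addr K with hH
  have hnd0 : nd s [0] = some (plug K v) := by
    rw [nd]
    cases hp : plug K v
    rw [hs, hp]
    rfl
  have hndH : nd s H = some v := sub_plug K v
  have hocc : ∀ a b, occ (G.toPT.run v a) b →
      Relation.TransGen (G.Dep s) (H, Sum.inl a) (H, Sum.inr b) := by
    intro a b hb
    obtain ⟨u, i, hui⟩ : ∃ u i, H = u ++ [i] :=
      ⟨H.dropLast, H.getLast (by simp [hH]), (List.dropLast_append_getLast _).symm⟩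
    have h := ((hD A B G hG s hR).1 u i v (by rw [← hui]; exact hndH) a).2 b hb
    rw [hui]
    exact h
  have hsrc : Src G s H (G.toPT.run v) [] (G.toPT.Z K) ([0], Sum.inl G.a0) := by
    have hC : ∀ a, Src G s H (G.toPT.run v) [0] (G.toPT.unfC K a) ([0], Sum.inl a) :=
      src_unfC hB hS hR v rfl K [0] hnd0 (by simp [hH])
    have hF2 : ∀ a ρ, (G.toPT.unfC K a).ev ρ (fun _ => G.toPT.run v) = G.toPT.run s a ρ :=
      fun a ρ => hB.2.2.2.1 _ _ _ _ _ _ _
    have hR' := src_root hB hS (fun a => G.toPT.unfC K a) hC hF2 (G.q + 1)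
    show Src G s H (G.toPT.run v) [] ((G.toPT.unfC K G.a0).subst fun b =>
      (G.rootT (G.q + 1) 0 b).bind fun _ a => G.toPT.unfC K a) ([0], Sum.inl G.a0)
    refine src_subst hB [0] [] _ (fun b => hR'.2 0 b) (fun b ρ' hρ' t ht => ?_) _ _ (hC G.a0)
    have hρ0 : ρ' = fun _ => none := by
      funext b'
      cases h : ρ' b' with
      | none => rfl
      | some t' => exact absurd (hρ' b' t' h) (not_ev_nil b' t')
    rw [hB.2.1, hρ0] at ht
    simp only [hF2] at ht
    exact (hS A B G).2.2.1 s (G.q + 1) 0 b t ht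
  have hgood := good_of_src 𝒯 low (fun b t h => hlow s hR H b t h) (hG s hR) hocc [] _ _ hsrc
  refine good_mono 𝒯 low _ _ _ _ ?_ hgood
  classical
  calc rank G s H ([0], Sum.inl G.a0) ≤ (Finset.univ : Finset (Fin G.p)).card :=
        Finset.card_filter_le _ _
    _ = G.p := by simp

end Pool.Agent.Lib.MP_39893a_lc.AGL
end

section
/-!
# Module AGS: soundness of the transducer of an attribute grammar
-/
set_option autoImplicit false

namespace Pool.Agent.Lib.MP_39893a_lc.AGL

namespace AGSM

theorem sub_append (s : Tree) (w : List ℕ) (i : ℕ) (σ r : ℕ) (c : Fin r → Tree)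
    (h : sub s w = some (.node σ r c)) (hi : i < r) : sub s (w ++ [i]) = some (c ⟨i, hi⟩) := by
  induction w generalizing s with
  | nil =>
    cases s with
    | node σ' r' c' =>
      simp only [sub, Option.some.injEq] at h
      injection h with h1 h2 h3
      subst h1; subst h2
      have h3' := eq_of_heq h3
      subst h3'
      simp [sub, hi]
  | cons j w ih =>
    cases s with
    | node σ' r' c' =>
      simp only [sub, List.cons_append] at h ⊢
      by_cases hj : j < r'
      · rw [dif_pos hj] at h ⊢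
        exact ih _ h
      · rw [dif_neg hj] at h
        exact absurd h (by simp)

theorem nd_append (s : Tree) (w : List ℕ) (i : ℕ) (σ r : ℕ) (c : Fin r → Tree)
    (h : nd s w = some (.node σ r c)) (hi : i < r) : nd s (w ++ [i]) = some (c ⟨i, hi⟩) := by
  cases w with
  | nil => simp [nd] at h
  | cons j w =>
    cases j with
    | zero =>
      simp only [nd, List.cons_append] at h ⊢
      exact sub_append s w i σ r c h hi
    | succ j => simp [nd] at h

theorem ranked_sub (A : List ℕ) (s v : Tree) (w : List ℕ) (hs : Ranked A s)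
    (h : sub s w = some v) : Ranked A v := by
  induction w generalizing s with
  | nil =>
    cases s with
    | node σ' r' c' =>
      simp only [sub, Option.some.injEq] at h
      rw [← h]; exact hs
  | cons j w ih =>
    cases s with
    | node σ' r' c' =>
      simp only [sub] at h
      by_cases hj : j < r'
      · rw [dif_pos hj] at h
        exact ih _ (hs.2 ⟨j, hj⟩) h
      · rw [dif_neg hj] at h
        exact absurd h (by simp)

theorem ranked_nd (A : List ℕ) (s v : Tree) (w : List ℕ) (hs : Ranked A s)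
    (h : nd s w = some v) : Ranked A v := by
  cases w with
  | nil => simp [nd] at h
  | cons j w =>
    cases j with
    | zero => exact ranked_sub A s v w hs h
    | succ j => simp [nd] at h

/-- The indices of the children in a right-hand side satisfy `good`. -/
def Ok {p q : ℕ} (good : ℕ → Prop) : ATm p q → Prop
  | .syn _ j => good j
  | .inh _ => True
  | .out _ _ c => ∀ i, Ok good (c i)

theorem ok_true {p q : ℕ} (τ : ATm p q) : Ok (fun _ => True) τ := by
  induction τ with
  | syn a i => trivial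
  | inh b => trivial
  | out f r c ih => exact ih

theorem ok_wf {p q : ℕ} (B : List ℕ) (r : ℕ) (τ : ATm p q) (h : τ.WF B r) :
    Ok (fun j => j < r) τ := by
  induction τ with
  | syn a i => exact h
  | inh b => trivial
  | out f n c ih => exact fun i => ih i (h.2 i)

variable {A B : List ℕ} (G : AG A B)

theorem conv_sound (s : Tree) (w : List ℕ) (E : ℕ → Fin G.q → Tm G.p G.q)
    (ρ : Fin G.q → Option Tree) (F : ℕ → Fns G.p G.q) (good ok : ℕ → Prop)
    (hρ : ∀ b t', ρ b = some t' → G.Ev s w (.inh b) t')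
    (hE : ∀ j b t', ok j → (E j b).ev ρ F = some t' → G.Ev s (w ++ [j]) (.inh b) t')
    (hF : ∀ j a ρ' t', good j → F j a ρ' = some t' →
      ok j ∧ ((∀ b t'', ρ' b = some t'' → G.Ev s (w ++ [j]) (.inh b) t'') →
        G.Ev s w (.syn a j) t'))
    (τ : ATm G.p G.q) (hτ : Ok good τ) (t : Tree) (h : (conv E τ).ev ρ F = some t) :
    G.Ev s w τ t := by
  induction τ generalizing t with
  | syn a j =>
    simp only [conv, Tm.ev] at h
    obtain ⟨h1, h2⟩ := hF j a _ t hτ h
    exact h2 fun b t'' hb => hE j b t'' h1 hb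
  | inh b => exact hρ b t h
  | out f r c ih =>
    simp only [conv, Tm.ev] at h
    split at h
    · rename_i hs
      injection h with h
      rw [← h]
      exact AG.Ev.out w f r c _ fun i => ih i (hτ i) _ (by simp)
    · simp at h

/-- Soundness of the unrolled inherited attributes at a node, given soundness at the children. -/
theorem inh_sound (s : Tree) (w : List ℕ) (σ r : ℕ) (c : Fin r → Tree)
    (ρ : Fin G.q → Option Tree)
    (hn : nd s w = some (.node σ r c))
    (hρ : ∀ b t', ρ b = some t' → G.Ev s w (.inh b) t')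
    (hc : ∀ (j : Fin r) (a : Fin G.p) (ρ' : Fin G.q → Option Tree) (t' : Tree),
      G.toPT.run (c j) a ρ' = some t' →
      (∀ b t'', ρ' b = some t'' → G.Ev s (w ++ [(j : ℕ)]) (.inh b) t'') →
      G.Ev s w (.syn a j) t') (f : ℕ) :
    ∀ (i : ℕ) (b : Fin G.q) (t : Tree), i < r →
      (G.inhT σ f i b).ev ρ (fun j a ρ' => if h : j < r then G.toPT.run (c ⟨j, h⟩) a ρ' else none)
        = some t → G.Ev s (w ++ [i]) (.inh b) t := by
  induction f with
  | zero =>
    intro i b t _ h
    simp [AG.inhT, Tm.ev] at h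
  | succ f ih =>
    intro i b t hi h
    rw [AG.inhT] at h
    refine AG.Ev.inh w i b σ r c t hn hi ?_
    refine conv_sound G s w (G.inhT σ f) ρ _ (fun _ => True) (fun j => j < r) hρ ?_ ?_
      (G.inh σ i b) (ok_true _) t h
    · intro j b' t' hj hb
      exact ih j b' t' hj hb
    · intro j a ρ' t' _ hF
      by_cases hj : j < r
      · rw [dif_pos hj] at hF
        exact ⟨hj, fun hb => hc ⟨j, hj⟩ a ρ' t' hF hb⟩
      · rw [dif_neg hj] at hF
        exact absurd hF (by simp)

theorem run_sound (s : Tree) (v : Tree) : ∀ (u : List ℕ) (a : Fin G.p)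
    (ρ : Fin G.q → Option Tree) (t : Tree) (i : ℕ),
    nd s (u ++ [i]) = some v → (∀ b t', ρ b = some t' → G.Ev s (u ++ [i]) (.inh b) t') →
    G.toPT.run v a ρ = some t → G.Ev s u (.syn a i) t := by
  induction v with
  | node σ r c ih =>
    intro u a ρ t i hn hρ h
    have hc : ∀ (j : Fin r) (a : Fin G.p) (ρ' : Fin G.q → Option Tree) (t' : Tree),
        G.toPT.run (c j) a ρ' = some t' →
        (∀ b t'', ρ' b = some t'' → G.Ev s ((u ++ [i]) ++ [(j : ℕ)]) (.inh b) t'') →
        G.Ev s (u ++ [i]) (.syn a j) t' := by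
      intro j a' ρ' t' hr hb
      exact ih j (u ++ [i]) a' ρ' t' j (nd_append s (u ++ [i]) j σ r c hn j.2) hb hr
    refine AG.Ev.syn u a i σ r c t hn ?_
    rw [PT.run] at h
    refine conv_sound G s (u ++ [i]) (G.inhT σ (G.fuel σ)) ρ _ (fun _ => True) (fun j => j < r)
      hρ ?_ ?_ (G.syn σ a) (ok_true _) t h
    · intro j b' t' hj hb
      exact inh_sound G s (u ++ [i]) σ r c ρ hn hρ hc _ j b' t' hj hb
    · intro j a ρ' t' _ hF
      by_cases hj : j < r
      · rw [dif_pos hj] at hF
        exact ⟨hj, fun hb => hc ⟨j, hj⟩ a ρ' t' hF hb⟩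
      · rw [dif_neg hj] at hF
        exact absurd hF (by simp)

theorem root_sound (s : Tree) (f : ℕ) : ∀ (i : ℕ) (b : Fin G.q) (t : Tree),
    (G.rootT f i b).cl (G.toPT.run s) = some t → G.Ev s [0] (.inh b) t := by
  induction f with
  | zero =>
    intro i b t h
    simp [AG.rootT, Tm.cl, Tm.ev] at h
  | succ f ih =>
    intro i b t h
    rw [AG.rootT, Tm.cl] at h
    refine AG.Ev.root b t ?_
    refine conv_sound G s [] (G.rootT f) (fun _ => none) _ (fun j => j < 1) (fun j => j < 1)
      (fun b t' h => absurd h (by simp)) ?_ ?_ (G.root b) (ok_wf B 1 _ (G.wf_root b).1) t h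
    · intro j b' t' hj hb
      have hj0 : j = 0 := by omega
      subst hj0
      exact ih 0 b' t' hb
    · intro j a ρ' t' hj hF
      have hj0 : j = 0 := by omega
      subst hj0
      refine ⟨hj, fun hb => ?_⟩
      have h0 : nd s ([] ++ [0]) = some s := by
        cases s with
        | node σ r c => simp [nd, sub]
      exact run_sound G s s [] a ρ' t' 0 h0 hb hF

theorem inv_inh {s : Tree} {w : List ℕ} {τ : ATm G.p G.q} {t : Tree} (h : G.Ev s w τ t) :
    ∀ b : Fin G.q, τ = .inh b →
    (∃ (u : List ℕ) (i σ r : ℕ) (c : Fin r → Tree), w = u ++ [i] ∧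
      nd s u = some (.node σ r c) ∧ i < r ∧ G.Ev s u (G.inh σ i b) t) ∨
    (w = [0] ∧ G.Ev s [] (G.root b) t) := by
  cases h with
  | out u f r c v h => intro b hb; cases hb
  | syn u a i σ r c v h1 h2 => intro b hb; cases hb
  | inh u i b' σ r c v h1 h2 h3 =>
    intro b hb
    injection hb with hb
    subst hb
    exact Or.inl ⟨u, i, σ, r, c, rfl, h1, h2, h3⟩
  | root b' v h1 =>
    intro b hb
    injection hb with hb
    subst hb
    exact Or.inr ⟨rfl, h1⟩

theorem inv_syn {s : Tree} {w : List ℕ} {τ : ATm G.p G.q} {t : Tree} (h : G.Ev s w τ t) :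
    ∀ (a : Fin G.p) (i : ℕ), τ = .syn a i →
    ∃ (σ r : ℕ) (c : Fin r → Tree), nd s (w ++ [i]) = some (.node σ r c) ∧
      G.Ev s (w ++ [i]) (G.syn σ a) t := by
  cases h with
  | out u f r c v h => intro a i hb; cases hb
  | syn u a' i' σ r c v h1 h2 =>
    intro a i hb
    injection hb with hb1 hb2
    subst hb1; subst hb2
    exact ⟨σ, r, c, h1, h2⟩
  | inh u i b' σ r c v h1 h2 h3 => intro a i hb; cases hb
  | root b' v h1 => intro a i hb; cases hb

theorem inv_out {s : Tree} {w : List ℕ} {τ : ATm G.p G.q} {t : Tree} (h : G.Ev s w τ t) :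
    ∀ (f r : ℕ) (c : Fin r → ATm G.p G.q), τ = .out f r c →
    ∃ v : Fin r → Tree, t = .node f r v ∧ ∀ i, G.Ev s w (c i) (v i) := by
  cases h with
  | out u f r c v h =>
    intro f' r' c' hb
    injection hb with hb1 hb2 hb3
    subst hb1; subst hb2
    have hb3' := eq_of_heq hb3
    subst hb3'
    exact ⟨v, rfl, h⟩
  | syn u a' i' σ r c v h1 h2 => intro f' r' c' hb; cases hb
  | inh u i b' σ r c v h1 h2 h3 => intro f' r' c' hb; cases hb
  | root b' v h1 => intro f' r' c' hb; cases hb

theorem functional (s : Tree) (u : List ℕ) (τ : ATm G.p G.q) (t : Tree) (h : G.Ev s u τ t) :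
    ∀ t', G.Ev s u τ t' → t = t' := by
  induction h with
  | out u f r c v h ih =>
    intro t' h'
    obtain ⟨v', rfl, hv'⟩ := inv_out G h' f r c rfl
    congr 1
    funext i
    exact ih i _ (hv' i)
  | syn u a i σ r c v h1 h2 ih =>
    intro t' h'
    obtain ⟨σ', r', c', h3, h4⟩ := inv_syn G h' a i rfl
    rw [h1] at h3
    simp only [Option.some.injEq] at h3
    injection h3 with h5 h6 h7
    subst h5
    exact ih t' h4
  | inh u i b σ r c v h1 h2 h3 ih =>
    intro t' h'
    rcases inv_inh G h' b rfl with ⟨u', i', σ', r', c', h4, h5, h6, h7⟩ | ⟨h4, h5⟩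
    · obtain ⟨h8, h9⟩ := List.append_inj' h4 rfl
      subst h8
      simp only [List.cons.injEq, and_true] at h9
      subst h9
      rw [h1] at h5
      simp only [Option.some.injEq] at h5
      injection h5 with h10 h11 h12
      subst h10
      exact ih t' h7
    · exfalso
      have h6 : u = [] := by
        have := congrArg List.length h4
        simp at this
        exact this
      subst h6
      simp [nd] at h1
  | root b v h1 ih =>
    intro t' h'
    rcases inv_inh G h' b rfl with ⟨u', i', σ', r', c', h4, h5, h6, h7⟩ | ⟨h4, h5⟩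
    · exfalso
      have h8 : u' = [] := by
        have := congrArg List.length h4
        simp at this
        exact this
      subst h8
      simp [nd] at h5
    · exact ih t' h5

theorem ranked_ev (s : Tree) (hs : Ranked A s) (u : List ℕ) (τ : ATm G.p G.q) (t : Tree)
    (h : G.Ev s u τ t) : ∀ n, τ.WF B n → Ranked B t := by
  induction h with
  | out u f r c v h ih =>
    intro n hn
    exact ⟨hn.1, fun i => ih i n (hn.2 i)⟩
  | syn u a i σ r c v h1 h2 ih =>
    intro n _
    exact ih r (G.wf_syn σ r a (ranked_nd A s _ _ hs h1).1)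
  | inh u i b σ r c v h1 h2 h3 ih =>
    intro n _
    exact ih r (G.wf_inh σ r i b (ranked_nd A s _ _ hs h1).1 h2)
  | root b v h1 ih =>
    intro n _
    exact ih 1 (G.wf_root b).1

end AGSM

open AGSM in
theorem specAgs : SpecAgs := by
  intro A B G
  refine ⟨?_, ?_, ?_, ?_, ?_⟩
  · intro s u v a ρ t i h1 h2 h3
    exact run_sound G s v u a ρ t i h1 h2 h3
  · intro s u σ r c f i b ρ t h1 h2 h3 h4
    refine inh_sound G s u σ r c ρ h1 h3 ?_ f i b t h2 h4
    intro j a ρ' t' hr hb
    exact run_sound G s (c j) u a ρ' t' j (nd_append s u j σ r c h1 j.2) hb hr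
  · intro s f i b t h
    exact root_sound G s f i b t h
  · intro s u τ t t' h h'
    exact functional G s u τ t h t' h'
  · intro s hs t h
    exact ranked_ev G s hs _ _ t h 1 (Nat.zero_lt_one)

end Pool.Agent.Lib.MP_39893a_lc.AGL
end

section
/-!
# BIND: substitution lemmas (MP_39893a_lc, hive AGL)
-/
set_option autoImplicit false

namespace Pool.Agent.Lib.MP_39893a_lc.AGL.BINDM

open Pool.Agent.Lib.MP_39893a_lc Pool.Agent.Lib.MP_39893a_lc.AGL

variable {n P : ℕ}

/-- The value of an output node. -/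
def outv (b r : ℕ) (v : Fin r → Option Tree) : Option Tree :=
  if h : ∀ i, (v i).isSome then some (.node b r fun i => (v i).get (h i)) else none

lemma ev_out (ρ : Fin P → Option Tree) (f : ℕ → Fns n P) (b r : ℕ) (c : Fin r → Tm n P) :
    (Tm.out b r c).ev ρ f = outv b r fun i => (c i).ev ρ f := rfl

lemma ev_subst (ζ : Tm n P) (σ : Fin P → Tm n P) (ρ : Fin P → Option Tree)
    (f : ℕ → Fns n P) : (ζ.subst σ).ev ρ f = ζ.ev (fun j => (σ j).ev ρ f) f := by
  induction ζ with
  | bot => rfl
  | par j => rfl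
  | out b r c ih =>
    rw [Tm.subst, ev_out, ev_out]
    congr 1
    funext i
    exact ih i
  | call q i c ih =>
    rw [Tm.subst, Tm.ev, Tm.ev]
    congr 1
    funext l
    exact ih l

lemma ev_bind (ζ : Tm n P) (F : ℕ → Fin n → Tm n P) (ρ : Fin P → Option Tree)
    (f : ℕ → Fns n P) : (ζ.bind F).ev ρ f = ζ.ev ρ fun i q ρ' => (F i q).ev ρ' f := by
  induction ζ with
  | bot => rfl
  | par j => rfl
  | out b r c ih =>
    rw [Tm.bind, ev_out, ev_out]
    congr 1
    funext i
    exact ih i
  | call q i c ih =>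
    rw [Tm.bind, ev_subst, Tm.ev]
    congr 1
    funext l
    exact ih l

lemma ev_unfT (T : PT n P) (v : Tree) : ∀ (q : Fin n) (ρ : Fin P → Option Tree)
    (f : ℕ → Fns n P), (T.unfT v q).ev ρ f = T.run v q ρ := by
  induction v with
  | node a r c ih =>
    intro q ρ f
    rw [PT.unfT, ev_bind, PT.run]
    congr 1
    funext i q' ρ'
    by_cases h : i < r
    · rw [dif_pos h, dif_pos h, ih]
    · rw [dif_neg h, dif_neg h]
      rfl

lemma ev_unfC (T : PT n P) (K : Ctx) (v : Tree) : ∀ (q : Fin n) (ρ : Fin P → Option Tree),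
    (T.unfC K q).ev ρ (fun _ => T.run v) = T.run (plug K v) q ρ := by
  induction K with
  | hole =>
    intro q ρ
    rfl
  | node a r i c K ih =>
    intro q ρ
    rw [PT.unfC, ev_bind, plug, PT.run]
    congr 1
    funext j q' ρ'
    by_cases h : j < r
    · rw [dif_pos h, dif_pos h]
      by_cases hi : (⟨j, h⟩ : Fin r) = i
      · rw [if_pos hi, hi, Function.update_self, ih]
      · rw [if_neg hi, Function.update_of_ne hi, ev_unfT]
    · rw [dif_neg h, dif_neg h]
      rfl

/-- BIND. -/
theorem specBind : SpecBind := by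
  refine ⟨fun n P ζ σ ρ f => ev_subst ζ σ ρ f, fun n P ζ F ρ f => ev_bind ζ F ρ f,
    fun n P T v q ρ f => ev_unfT T v q ρ f, fun n P T K v q ρ => ev_unfC T K v q ρ, ?_⟩
  intro n P T K v
  unfold PT.val PT.Z Tm.cl
  rw [ev_bind]
  congr 1
  funext i q ρ'
  exact (ev_unfC T K v q ρ').symm

end Pool.Agent.Lib.MP_39893a_lc.AGL.BINDM
end

section
/-!
# Definedness is a conjunction (MP_39893a_lc, hive AGL, module CONJ)
-/
set_option autoImplicit false

namespace Pool.Agent.Lib.MP_39893a_lc.AGL.CONJM

/-- A conjunction of a proposition and definedness of some parameters. -/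
def IsC {P : ℕ} (g : (Fin P → Option Tree) → Option Tree) : Prop :=
  ∃ (p : Prop) (O : Set (Fin P)), ∀ ρ, (g ρ).isSome ↔ p ∧ ∀ j ∈ O, (ρ j).isSome

theorem conj_of_isC {P : ℕ} {g : (Fin P → Option Tree) → Option Tree} (h : IsC g) : Conj g := by
  obtain ⟨p, O, h⟩ := h
  have h1 : (g fun _ => some t0).isSome ↔ p := by
    rw [h]; simp
  have h2 : p → ∀ j, occ g j ↔ j ∈ O := by
    intro hp j
    unfold occ
    rw [← Option.not_isSome_iff_eq_none, h]
    constructor
    · intro hn
      by_contra hj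
      apply hn
      refine ⟨hp, fun l hl => ?_⟩
      have : l ≠ j := fun e => hj (e ▸ hl)
      simp [this]
    · intro hj hn
      have := hn.2 j hj
      simp at this
  intro ρ
  rw [h1, h ρ]
  constructor
  · rintro ⟨hp, h3⟩
    exact ⟨hp, fun j hj => h3 j ((h2 hp j).1 hj)⟩
  · rintro ⟨hp, h3⟩
    exact ⟨hp, fun j hj => h3 j ((h2 hp j).2 hj)⟩

theorem isC_of_conj {P : ℕ} {g : (Fin P → Option Tree) → Option Tree} (h : Conj g) : IsC g :=
  ⟨(g fun _ => some t0).isSome, {j | occ g j}, fun ρ => h ρ⟩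

theorem isC_ev {n P : ℕ} (ζ : Tm n P) (f : ℕ → Fns n P) (hf : ∀ i q, Conj (f i q)) :
    IsC fun ρ => ζ.ev ρ f := by
  induction ζ with
  | bot => exact ⟨False, ∅, fun ρ => by simp [Tm.ev]⟩
  | par j => exact ⟨True, {j}, fun ρ => by simp [Tm.ev]⟩
  | out b r c ih =>
    choose p O hO using ih
    refine ⟨∀ i, p i, {j | ∃ i, j ∈ O i}, fun ρ => ?_⟩
    have h1 : ((Tm.out b r c).ev ρ f).isSome ↔ ∀ i, ((c i).ev ρ f).isSome := by
      rw [Tm.ev]
      split
      · rename_i h
        exact ⟨fun _ => h, fun _ => rfl⟩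
      · rename_i h
        exact ⟨fun h' => by simp at h', fun h' => absurd h' h⟩
    show ((Tm.out b r c).ev ρ f).isSome ↔ _
    rw [h1]
    constructor
    · intro h
      exact ⟨fun i => ((hO i ρ).1 (h i)).1, fun j ⟨i, hj⟩ => ((hO i ρ).1 (h i)).2 j hj⟩
    · rintro ⟨h, h'⟩ i
      exact (hO i ρ).2 ⟨h i, fun j hj => h' j ⟨i, hj⟩⟩
  | call q i c ih =>
    choose p O hO using ih
    refine ⟨(f i q fun _ => some t0).isSome ∧ ∀ l, occ (f i q) l → p l,
      {j | ∃ l, occ (f i q) l ∧ j ∈ O l}, fun ρ => ?_⟩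
    show ((Tm.call q i c).ev ρ f).isSome ↔ _
    rw [Tm.ev, hf i q]
    constructor
    · rintro ⟨h, h'⟩
      exact ⟨⟨h, fun l hl => ((hO l ρ).1 (h' l hl)).1⟩,
        fun j ⟨l, hl, hj⟩ => ((hO l ρ).1 (h' l hl)).2 j hj⟩
    · rintro ⟨⟨h, h'⟩, h3⟩
      exact ⟨h, fun l hl => (hO l ρ).2 ⟨h' l hl, fun j hj => h3 j ⟨l, hl, hj⟩⟩⟩

theorem conj_run {n P : ℕ} (T : PT n P) (v : Tree) : ∀ q : Fin n, Conj (T.run v q) := by
  induction v with
  | node a r c ih =>
    intro q
    have h := conj_of_isC (isC_ev (T.rule q a) (fun i q' ρ' =>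
      if h : i < r then T.run (c ⟨i, h⟩) q' ρ' else none) (fun i q' => by
        by_cases h : i < r
        · simp only [h, dite_true]
          exact ih ⟨i, h⟩ q'
        · simp only [h, dite_false]
          exact conj_of_isC ⟨False, ∅, fun ρ => by simp⟩))
    intro ρ
    simpa only [PT.run] using h ρ

theorem specConj : SpecConj :=
  ⟨fun _ _ ζ f hf => conj_of_isC (isC_ev ζ f hf), fun _ _ T v q => conj_run T v q⟩

end Pool.Agent.Lib.MP_39893a_lc.AGL.CONJM
end

section
/-!
# CORE: minimal counterexamples are low (MP_39893a_lc, hive AGL)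
-/
set_option autoImplicit false

namespace Pool.Agent.Lib.MP_39893a_lc.AGL

namespace COREM

/-- Two optional trees with the same type are both defined or both undefined. -/
theorem isSome_of_oty (𝒯 : Typing) {o o' : Option Tree} (h : 𝒯.oty o = 𝒯.oty o') :
    o.isSome = o'.isSome := by
  have := congrArg Option.isSome h
  simpa [Typing.oty] using this

/-- Definedness on `plug K v` depends only on the type information of `v`. -/
theorem val_isSome (hB : SpecBind) (hT : SpecTyc) (𝒯 : Typing) {n P : ℕ} (T : PT n P) (K : Ctx)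
    {v v' : Tree} (h : SameInfo 𝒯 T v v') :
    (T.val (plug K v)).isSome = (T.val (plug K v')).isSome := by
  rw [hB.2.2.2.2 n P T K v, hB.2.2.2.2 n P T K v']
  exact isSome_of_oty 𝒯 (hT.1 𝒯 n P (T.run v) (T.run v') (T.Z K) (fun _ => none) (fun _ => none)
    h (fun _ => rfl))

theorem nM_pos (N n P d e : ℕ) : 0 < nM N n P d e := pow_pos (Nat.succ_pos _) _

end COREM

open COREM in
theorem specCORE (hB : SpecBind) (hT : SpecTyc) (hPig : SpecPig) (hPoly : SpecPoly)
    (hTri : SpecTri) (hPath : SpecPath) : SpecCore := by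
  intro A S _ _ L _ d 𝒯 w V low hw hV hlow n₁ P₁ n₂ P₂ T₁ T₂ e₁ e₂ hR₁ hR₂ s hs hht hmin
  obtain ⟨K, v, hKv, hlt⟩ := hPath A s hs
  obtain ⟨J, hJ, hinfo⟩ := hPig 𝒯 n₁ P₁ n₂ P₂ T₁ T₂ (nM 𝒯.N n₁ P₁ d e₁ + nM 𝒯.N n₂ P₂ d e₂)
    (ht s) v hht
  -- the values agree below the diagonal
  have hagree : ∀ i j, i < j → T₁.val (plug (K i) (v j)) = T₂.val (plug (K i) (v j)) :=
    fun i j hij => hmin _ (hlt i j hij).1 (hlt i j hij).2
  -- definedness
  have hdef₁ : ∀ i ∈ J, ∀ j ∈ J, (T₁.val (plug (K i) (v j))).isSome = (T₁.val s).isSome := by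
    intro i hi j hj
    rw [← val_isSome hB hT 𝒯 T₁ (K i) (hinfo i hi j hj).1, hKv i]
  have hdef₂ : ∀ i ∈ J, ∀ j ∈ J, (T₂.val (plug (K i) (v j))).isSome = (T₂.val s).isSome := by
    intro i hi j hj
    rw [← val_isSome hB hT 𝒯 T₂ (K i) (hinfo i hi j hj).2, hKv i]
  have hM : 0 < nM 𝒯.N n₁ P₁ d e₁ := nM_pos _ _ _ _ _
  have h1 : 1 < J.card := by omega
  obtain ⟨a, ha, b, hb, hab⟩ := Finset.one_lt_card.1 h1
  have hiff : (T₁.val s).isSome = (T₂.val s).isSome := by
    rcases lt_or_gt_of_ne hab with h | h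
    · rw [← hdef₁ a ha b hb, ← hdef₂ a ha b hb, hagree a b h]
    · rw [← hdef₁ b hb a ha, ← hdef₂ b hb a ha, hagree b a h]
  refine ⟨by rw [hiff], ?_⟩
  intro t₁ t₂ ht₁ ht₂ x
  by_contra hne
  obtain ⟨μ₁, hμ₁⟩ := hPoly S (FA S L) d 𝒯 w V low hw hV hlow n₁ P₁ T₁ e₁
  obtain ⟨μ₂, hμ₂⟩ := hPoly S (FA S L) d 𝒯 w V low hw hV hlow n₂ P₂ T₂ e₂
  have hG₁ : ∀ i, Good 𝒯 low (T₁.run (v i)) (T₁.Z (K i)) e₁ := fun i =>
    hR₁ (K i) (v i) (by rw [hKv i]; exact hs) (by rw [hKv i, ht₁]; rfl)
  have hG₂ : ∀ i, Good 𝒯 low (T₂.run (v i)) (T₂.Z (K i)) e₂ := fun i =>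
    hR₂ (K i) (v i) (by rw [hKv i]; exact hs) (by rw [hKv i, ht₂]; rfl)
  choose l₁ hl₁ using fun i => hμ₁ (v i) (T₁.Z (K i)) (hG₁ i) x
  choose l₂ hl₂ using fun i => hμ₂ (v i) (T₂.Z (K i)) (hG₂ i) x
  have hval₁ : ∀ i ∈ J, ∀ j ∈ J, ∀ t, T₁.val (plug (K i) (v j)) = some t →
      V t x = ∑ m, l₁ i m * μ₁ m (v j) := by
    intro i hi j hj t ht
    rw [hB.2.2.2.2 n₁ P₁ T₁ (K i) (v j)] at ht
    exact hl₁ i (v j) (hinfo i hi j hj).1 t ht
  have hval₂ : ∀ i ∈ J, ∀ j ∈ J, ∀ t, T₂.val (plug (K i) (v j)) = some t →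
      V t x = ∑ m, l₂ i m * μ₂ m (v j) := by
    intro i hi j hj t ht
    rw [hB.2.2.2.2 n₂ P₂ T₂ (K i) (v j)] at ht
    exact hl₂ i (v j) (hinfo i hi j hj).2 t ht
  let ι := J.orderEmbOfFin rfl
  have hι : ∀ i, ι i ∈ J := fun i => J.orderEmbOfFin_mem rfl i
  have key := hTri S L (nM 𝒯.N n₁ P₁ d e₁ + nM 𝒯.N n₂ P₂ d e₂) J.card
    (fun i => Fin.append (l₁ (ι i)) (fun m => - l₂ (ι i) m))
    (fun j => Fin.append (fun m => μ₁ m (v (ι j))) (fun m => μ₂ m (v (ι j))))
    (fun i j hij => ?_) (fun i => ?_)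
  · omega
  · rw [Fin.sum_univ_add]
    simp only [Fin.append_left, Fin.append_right, neg_mul, Finset.sum_neg_distrib]
    have hij' : ι i < ι j := ι.strictMono hij
    have hsome : (T₁.val (plug (K (ι i)) (v (ι j)))).isSome := by
      rw [hdef₁ _ (hι i) _ (hι j), ht₁]; rfl
    obtain ⟨t, ht⟩ := Option.isSome_iff_exists.1 hsome
    rw [← hval₁ _ (hι i) _ (hι j) t ht,
      ← hval₂ _ (hι i) _ (hι j) t (by rw [← hagree _ _ hij']; exact ht)]
    exact add_neg_cancel _
  · rw [Fin.sum_univ_add]
    simp only [Fin.append_left, Fin.append_right, neg_mul, Finset.sum_neg_distrib]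
    rw [← hval₁ _ (hι i) _ (hι i) t₁ (by rw [hKv]; exact ht₁),
      ← hval₂ _ (hι i) _ (hι i) t₂ (by rw [hKv]; exact ht₂), ← sub_eq_add_neg]
    exact sub_ne_zero.2 hne

end Pool.Agent.Lib.MP_39893a_lc.AGL
end

section
/-!
# Module ENC (MP_39893a_lc, hive AGL): the encoding is injective and typed affine
-/
set_option autoImplicit false

open Finset

namespace Pool.Agent.Lib.MP_39893a_lc.AGL.ENCM

open Pool.Agent.Lib.MP_39893a_lc Pool.Agent.Lib.MP_39893a_lc.AGL

/-! ## Types -/

lemma le_strahler {b r : ℕ} {c : Fin r → Tree} (i : Fin r) :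
    strahler (c i) ≤ strahler (.node b r c) := strahler_child_le i

lemma sup_le_strahler (b r : ℕ) (c : Fin r → Tree) :
    (Finset.univ.sup fun i : Fin r => strahler (c i)) ≤ strahler (.node b r c) := by
  apply Finset.sup_le
  intro i _
  exact strahler_child_le i

lemma eq_of_sty {k : ℕ} {t t' : Tree} (h : sty k t = sty k t') (ht : strahler t ≤ k) :
    strahler t = strahler t' := by
  unfold sty at h
  omega

lemma sty_congr_low (k b r : ℕ) (c c' : Fin r → Tree) (h : ∀ i, sty k (c i) = sty k (c' i))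
    (hlow : ∀ i, strahler (c i) ≤ k) : strahler (.node b r c) = strahler (.node b r c') := by
  have e : (fun i => strahler (c i)) = fun i => strahler (c' i) := by
    funext i
    exact eq_of_sty (h i) (hlow i)
  have e' : ∀ i, strahler (c i) = strahler (c' i) := fun i => congrFun e i
  rw [strahler, strahler]
  simp only [e']

lemma sty_congr (k b r : ℕ) (c c' : Fin r → Tree) (h : ∀ i, sty k (c i) = sty k (c' i)) :
    sty k (.node b r c) = sty k (.node b r c') := by
  by_cases hlow : ∀ i, strahler (c i) ≤ k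
  · unfold sty
    rw [sty_congr_low k b r c c' h hlow]
  · push Not at hlow
    obtain ⟨i, hi⟩ := hlow
    have h1 := strahler_child_le (b := b) (c := c) i
    have h2 := strahler_child_le (b := b) (c := c') i
    have h3 := h i
    unfold sty at h3 ⊢
    omega

/-- The typing by truncated Strahler numbers. -/
def typing (k : ℕ) : Typing where
  ty := sty k
  N := k + 2
  lt t := by unfold sty; omega
  congr b r c c' h := sty_congr k b r c c' h

/-! ## The generic value -/

lemma gw_node (d b r : ℕ) (c : Fin r → Tree) (x : Fin d) :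
    gw d (.node b r c) x = MvPolynomial.X (Sum.inl (b, (x : ℕ))) +
      ∑ i : Fin r, ∑ y : Fin d, MvPolynomial.X (Sum.inr (b, (i : ℕ), (x : ℕ), (y : ℕ))) *
        gw d (c i) y := by
  unfold gw
  rw [W]
  congr 1
  refine Finset.sum_congr rfl fun i _ => ?_
  rw [Finset.sum_range]
  rfl

/-- Every interpretation is an image of the generic one. -/
lemma gen_map {S : Type} [CommRing S] (I : Interp S) :
    gen.map (MvPolynomial.eval₂Hom (Int.castRingHom S)
      (Sum.elim (fun p => I.C p.1 p.2) fun p => I.A p.1 p.2.1 p.2.2.1 p.2.2.2)) = I := by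
  simp only [Interp.map, gen]
  congr 1
  · funext b x
    simp
  · funext b i x y
    simp

lemma gw_sim {d : ℕ} {t t' : Tree} (h : ∀ x : Fin d, gw d t x = gw d t' x) : Sim d t t' := by
  intro S _ I x hx
  rw [← gen_map I, W_map, W_map]
  exact congrArg _ (h ⟨x, hx⟩)

lemma gw_ne_zero (d : ℕ) (t : Tree) (x : Fin d) : gw d t x ≠ 0 := by
  intro h0
  obtain ⟨b, r, c⟩ := t
  have h1 := gen_map (S := ℤ) ⟨fun _ _ => 1, fun _ _ _ _ => 0⟩
  have h2 : W d (⟨fun _ _ => 1, fun _ _ _ _ => 0⟩ : Interp ℤ) (.node b r c) x = 0 := by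
    rw [← h1, W_map]
    have : W d gen (.node b r c) (x : ℕ) = 0 := h0
    rw [this, map_zero]
  rw [W] at h2
  simp at h2

/-! ## The encoding -/

variable (k : ℕ)

lemma enc_low {t : Tree} (h : strahler t ≤ k) (x : Fin (k + 1)) :
    enc k t x = algebraMap GS _ (gw (k + 1) t x) := by
  obtain ⟨b, r, c⟩ := t
  rw [enc, if_pos h]

lemma enc_high {b r : ℕ} {c : Fin r → Tree} (h : ¬ strahler (.node b r c) ≤ k) (x : Fin (k + 1)) :
    enc k (.node b r c) x =
      ∑ i : Fin r, MonoidAlgebra.single (FreeMonoid.of (b, r, (i : ℕ))) (1 : GS) * enc k (c i) x := by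
  rw [enc, if_neg h]

lemma coeff_algebraMap_one (s : GS) :
    (algebraMap GS (FA GS (ℕ × ℕ × ℕ)) s).coeff 1 = s := by
  rw [MonoidAlgebra.coe_algebraMap]
  simp

lemma algebraMap_inj {s s' : GS} (h : algebraMap GS (FA GS (ℕ × ℕ × ℕ)) s =
    algebraMap GS (FA GS (ℕ × ℕ × ℕ)) s') : s = s' := by
  rw [← coeff_algebraMap_one s, ← coeff_algebraMap_one s', h]

/-- coefficient of a word in `letter * f` -/
lemma coeff_letter_mul (a : ℕ × ℕ × ℕ) (f : FA GS (ℕ × ℕ × ℕ)) (w : FreeMonoid (ℕ × ℕ × ℕ)) :
    (MonoidAlgebra.single (FreeMonoid.of a) (1 : GS) * f).coeff (FreeMonoid.of a * w) =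
      f.coeff w := by
  rw [MonoidAlgebra.coeff_single_mul_eq_mul_coeff w, one_mul]
  intro m _
  exact mul_right_inj _

lemma coeff_letter_mul_ne {a a' : ℕ × ℕ × ℕ} (ha : a ≠ a') (f : FA GS (ℕ × ℕ × ℕ))
    (w : FreeMonoid (ℕ × ℕ × ℕ)) :
    (MonoidAlgebra.single (FreeMonoid.of a) (1 : GS) * f).coeff (FreeMonoid.of a' * w) = 0 := by
  apply MonoidAlgebra.coeff_single_mul_of_forall_mul_ne
  intro d hd
  have h1 := congrArg FreeMonoid.toList hd
  simp only [FreeMonoid.toList_mul, FreeMonoid.toList_of, List.singleton_append,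
    List.cons.injEq] at h1
  exact ha h1.1

lemma coeff_letter_mul_one (a : ℕ × ℕ × ℕ) (f : FA GS (ℕ × ℕ × ℕ)) :
    (MonoidAlgebra.single (FreeMonoid.of a) (1 : GS) * f).coeff 1 = 0 := by
  apply MonoidAlgebra.coeff_single_mul_of_forall_mul_ne
  intro d hd
  have h1 := congrArg FreeMonoid.toList hd
  simp only [FreeMonoid.toList_mul, FreeMonoid.toList_of, List.singleton_append,
    FreeMonoid.toList_one] at h1
  exact List.cons_ne_nil _ _ h1

lemma coeff_sum' {r : ℕ} (F : Fin r → FA GS (ℕ × ℕ × ℕ)) (w : FreeMonoid (ℕ × ℕ × ℕ)) :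
    (∑ i, F i).coeff w = ∑ i, (F i).coeff w := by
  rw [MonoidAlgebra.coeff_sum, Finsupp.finsetSum_apply]

/-- coefficient of a high encoding at a word starting with a fitting letter -/
lemma coeff_high {b r : ℕ} {c : Fin r → Tree} (h : ¬ strahler (.node b r c) ≤ k) (x : Fin (k + 1))
    (j : Fin r) (w : FreeMonoid (ℕ × ℕ × ℕ)) :
    (enc k (.node b r c) x).coeff (FreeMonoid.of (b, r, (j : ℕ)) * w) = (enc k (c j) x).coeff w := by
  rw [enc_high k h, coeff_sum', Finset.sum_eq_single j]
  · exact coeff_letter_mul _ _ _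
  · intro i _ hij
    apply coeff_letter_mul_ne
    intro he
    simp only [Prod.mk.injEq, true_and] at he
    exact hij (Fin.ext he)
  · intro hj
    exact absurd (Finset.mem_univ j) hj

/-- coefficient of a high encoding at a word starting with another letter -/
lemma coeff_high_ne {b r : ℕ} {c : Fin r → Tree} (h : ¬ strahler (.node b r c) ≤ k)
    (x : Fin (k + 1)) {b' r' : ℕ} (j : ℕ) (hne : ¬ (b = b' ∧ r = r'))
    (w : FreeMonoid (ℕ × ℕ × ℕ)) :
    (enc k (.node b r c) x).coeff (FreeMonoid.of (b', r', j) * w) = 0 := by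
  rw [enc_high k h, coeff_sum']
  refine Finset.sum_eq_zero fun i _ => coeff_letter_mul_ne ?_ _ _
  intro he
  simp only [Prod.mk.injEq] at he
  exact hne ⟨he.1, he.2.1⟩

lemma coeff_high_one {b r : ℕ} {c : Fin r → Tree} (h : ¬ strahler (.node b r c) ≤ k)
    (x : Fin (k + 1)) : (enc k (.node b r c) x).coeff 1 = 0 := by
  rw [enc_high k h, coeff_sum']
  exact Finset.sum_eq_zero fun i _ => coeff_letter_mul_one _ _

lemma pos_of_high {b r : ℕ} {c : Fin r → Tree} (h : ¬ strahler (.node b r c) ≤ k) : 0 < r := by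
  rcases Nat.eq_zero_or_pos r with h0 | h0
  · subst h0
    exfalso
    apply h
    rw [strahler]
    simp
  · exact h0

lemma enc_ne_zero (t : Tree) (x : Fin (k + 1)) : enc k t x ≠ 0 := by
  induction t with
  | node b r c ih =>
    by_cases h : strahler (.node b r c) ≤ k
    · rw [enc_low k h]
      intro h0
      apply gw_ne_zero (k + 1) (.node b r c) x
      apply algebraMap_inj
      rw [h0, map_zero]
    · have hr := pos_of_high k h
      intro h0
      apply ih ⟨0, hr⟩
      apply MonoidAlgebra.ext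
      ext1 w
      rw [← coeff_high k h x ⟨0, hr⟩ w, h0]
      simp

lemma exists_coeff (t : Tree) (x : Fin (k + 1)) : ∃ w, (enc k t x).coeff w ≠ 0 := by
  by_contra hne
  push Not at hne
  apply enc_ne_zero k t x
  apply MonoidAlgebra.ext
  ext1 w
  rw [hne w]
  simp

/-- low against high -/
lemma low_ne_high {t : Tree} {b r : ℕ} {c : Fin r → Tree} (ht : strahler t ≤ k)
    (h : ¬ strahler (.node b r c) ≤ k) : enc k t 0 ≠ enc k (.node b r c) 0 := by
  intro he
  have h1 := coeff_high_one k h (0 : Fin (k + 1))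
  rw [← he, enc_low k ht, coeff_algebraMap_one] at h1
  exact gw_ne_zero _ _ _ h1

lemma enc_inj (B : List ℕ) (t : Tree) : ∀ t' : Tree, Ranked B t → Ranked B t' →
    (∀ x, enc k t x = enc k t' x) → t = t' := by
  induction t with
  | node b r c ih =>
    intro t' hR hR' he
    obtain ⟨b', r', c'⟩ := t'
    by_cases h : strahler (.node b r c) ≤ k
    · by_cases h' : strahler (.node b' r' c') ≤ k
      · apply separation B k _ _ hR hR' h
        apply gw_sim
        intro x
        have h1 := he x
        rw [enc_low k h, enc_low k h'] at h1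
        exact algebraMap_inj h1
      · exact absurd (he 0) (low_ne_high k h h')
    · by_cases h' : strahler (.node b' r' c') ≤ k
      · exact absurd (he 0).symm (low_ne_high k h' h)
      · have hr := pos_of_high k h
        have hbr : b' = b ∧ r' = r := by
          by_contra hne
          obtain ⟨w, hw⟩ := exists_coeff k (c ⟨0, hr⟩) 0
          apply hw
          rw [← coeff_high k h 0 ⟨0, hr⟩ w, he 0]
          exact coeff_high_ne k h' 0 _ hne w
        obtain ⟨rfl, rfl⟩ := hbr
        congr 1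
        funext j
        apply ih j (c' j) (hR.2 j) (hR'.2 j)
        intro x
        apply MonoidAlgebra.ext
        ext1 w
        rw [← coeff_high k h x j w, ← coeff_high k h' x j w, he x]

/-! ## Typed affine -/

lemma ta_gw (𝒯 : Typing) (d : ℕ) : TA 𝒯 (gw d) := by
  intro b r τ
  exact ⟨fun x => MvPolynomial.X (Sum.inl (b, (x : ℕ))),
    fun i x y => MvPolynomial.X (Sum.inr (b, (i : ℕ), (x : ℕ), (y : ℕ))),
    fun c _ x => gw_node d b r c x⟩

lemma ta_enc : TA (typing k) (enc k) := by
  intro b r τ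
  by_cases hlow : ∃ c₀ : Fin r → Tree, (∀ i, sty k (c₀ i) = τ i) ∧ strahler (.node b r c₀) ≤ k
  · obtain ⟨c₀, h₀, hs₀⟩ := hlow
    refine ⟨fun x => algebraMap GS _ (MvPolynomial.X (Sum.inl (b, (x : ℕ)))),
      fun i x y => algebraMap GS _ (MvPolynomial.X (Sum.inr (b, (i : ℕ), (x : ℕ), (y : ℕ)))),
      fun c hc x => ?_⟩
    have hs : strahler (.node b r c) ≤ k := by
      have h1 := sty_congr k b r c₀ c fun i => (h₀ i).trans (hc i).symm
      unfold sty at h1
      omega
    rw [enc_low k hs, gw_node, map_add, map_sum]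
    congr 1
    refine Finset.sum_congr rfl fun i _ => ?_
    rw [map_sum]
    refine Finset.sum_congr rfl fun y _ => ?_
    rw [map_mul, enc_low k ((strahler_child_le i).trans hs)]
  · refine ⟨0, fun i x y => if x = y then
      MonoidAlgebra.single (FreeMonoid.of (b, r, (i : ℕ))) (1 : GS) else 0, fun c hc x => ?_⟩
    have hs : ¬ strahler (.node b r c) ≤ k := fun h => hlow ⟨c, hc, h⟩
    rw [enc_high k hs, Pi.zero_apply, zero_add]
    refine Finset.sum_congr rfl fun i _ => ?_
    simp

/-- ENC -/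
theorem specEnc : SpecEnc := by
  intro k
  exact ⟨typing k, rfl, rfl, ta_enc k, ta_gw _ _, fun t ht x => enc_low k ht x,
    fun B t t' hR hR' he => enc_inj k B t t' hR hR' he⟩

end Pool.Agent.Lib.MP_39893a_lc.AGL.ENCM
end

section
/-!
# Module FING (MP_39893a_lc, hive AGL): minimal counterexamples have outputs of large Strahler number
-/
set_option autoImplicit false

namespace Pool.Agent.Lib.MP_39893a_lc.AGL

namespace FINGM

variable {A B : List ℕ}

/-- The value computed by the transducer of an attribute grammar is the value of the attribute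
grammar. -/
theorem val_sound (hS : SpecAgs) (G : AG A B) (s t : Tree) (h : G.toPT.val s = some t) :
    G.Val s t := by
  obtain ⟨h1, _, h3, _, _⟩ := hS A B G
  refine h1 s [] s G.a0 (fun b => (G.rootT (G.q + 1) 0 b).cl (G.toPT.run s)) t 0
    (by simp [nd, sub]) ?_ ?_
  · intro b t' hb
    exact h3 s _ 0 b t' hb
  · exact h

/-- The transducer of a noncircular attribute grammar realises the same transduction. -/
theorem val_iff (hS : SpecAgs) (hD : SpecAgd) (G : AG A B) (hG : G.Noncircular) (s : Tree)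
    (hs : Ranked A s) (t : Tree) : G.toPT.val s = some t ↔ G.Val s t := by
  refine ⟨val_sound hS G s t, fun h => ?_⟩
  obtain ⟨t', ht'⟩ := Option.isSome_iff_exists.mp (hD A B G hG s hs).2
  have h' := val_sound hS G s t' ht'
  rw [ht', (hS A B G).2.2.2.1 s [] _ t' t h' h]

/-- Transducers of attribute grammars that agree on `s` have the same value. -/
theorem val_eq (hS : SpecAgs) (hD : SpecAgd) (G₁ G₂ : AG A B) (h₁ : G₁.Noncircular)
    (h₂ : G₂.Noncircular) (s : Tree) (hs : Ranked A s) (h : ∀ t, G₁.Val s t ↔ G₂.Val s t) :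
    G₁.toPT.val s = G₂.toPT.val s := by
  apply Option.ext
  intro t
  rw [val_iff hS hD G₁ h₁ s hs t, val_iff hS hD G₂ h₂ s hs t]
  exact h t

theorem algebraMap_inj {S L : Type} [CommRing S] {a b : S}
    (h : algebraMap S (FA S L) a = algebraMap S (FA S L) b) : a = b := by
  have h' := FaithfulSMul.algebraMap_injective S (FA S L) h
  exact h'

end FINGM

open FINGM in
theorem specFinG (hC : SpecCore) (hG : SpecGsim) (hS : SpecAgs) (hD : SpecAgd) (hR : SpecAgr) :
    SpecFinG := by
  intro A B G₁ G₂ hn₁ hn₂ s hs hmin t₁ t₂ hv₁ hv₂ hne d hb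
  obtain ⟨hsim, 𝒯, hN, hTA⟩ := hG
  obtain ⟨hTA1, hTA2⟩ := hTA (d + 1)
  have key := (hC A GS (ℕ × ℕ × ℕ) (d + 1) 𝒯 (gw (d + 1))
    (fun t x => algebraMap GS (FA GS (ℕ × ℕ × ℕ)) (gw (d + 1) t x)) (fun _ => True) hTA1 hTA2
    (fun _ _ _ => rfl) G₁.p G₁.q G₂.p G₂.q G₁.toPT G₂.toPT G₁.p G₂.p
    (hR A B G₁ hn₁ 𝒯 _ fun _ _ _ _ _ _ => trivial) (hR A B G₂ hn₂ 𝒯 _ fun _ _ _ _ _ _ => trivial)
    s hs (by rw [hN]; exact hb)
    fun s' hs' hlt => val_eq hS hD G₁ G₂ hn₁ hn₂ s' hs' (hmin s' hs' hlt)).2 t₁ t₂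
    ((val_iff hS hD G₁ hn₁ s hs t₁).mpr hv₁) ((val_iff hS hD G₂ hn₂ s hs t₂).mpr hv₂)
  have hs12 : Sim (d + 1) t₁ t₂ := hsim (d + 1) t₁ t₂ fun x => algebraMap_inj (key x)
  have hs21 : Sim (d + 1) t₂ t₁ := fun S _ I x hx => (hs12 S I x hx).symm
  have r₁ : Ranked B t₁ := (hS A B G₁).2.2.2.2 s hs t₁ hv₁
  have r₂ : Ranked B t₂ := (hS A B G₂).2.2.2.2 s hs t₂ hv₂
  constructor
  · by_contra hk
    exact hne (separation_dag B d t₁ t₂ r₁ r₂ (not_lt.mp hk) hs12)
  · by_contra hk
    exact hne (separation_dag B d t₂ t₁ r₂ r₁ (not_lt.mp hk) hs21).symm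

end Pool.Agent.Lib.MP_39893a_lc.AGL
end

section
/-!
# MP_39893a_lc, AGL, module FINN: the final theorem N

`val_iff`: for a noncircular attribute grammar and a ranked input the transducer `toPT` computes the
transduction.
-/
set_option autoImplicit false

namespace Pool.Agent.Lib.MP_39893a_lc.AGL

namespace FINNM

/-- The transducer of a noncircular attribute grammar computes its transduction. -/
theorem val_iff (hAgs : SpecAgs) (hAgd : SpecAgd) {A B : List ℕ} (G : AG A B) (hG : G.Noncircular) {s : Tree}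
    (hs : Ranked A s) (t : Tree) : G.toPT.val s = some t ↔ G.Val s t := by
  obtain ⟨h1, -, h3, h4, -⟩ := hAgs A B G
  have key : ∀ t, G.toPT.val s = some t → G.Val s t := by
    intro t ht
    refine h1 s [] s G.a0 (fun l => (G.rootT (G.q + 1) 0 l).cl (G.toPT.run s)) t 0 ?_ ?_ ht
    · simp [nd, sub]
    · intro b t' hb
      exact h3 s (G.q + 1) 0 b t' hb
  refine ⟨key t, fun ht => ?_⟩
  obtain ⟨t', ht'⟩ := Option.isSome_iff_exists.1 (hAgd A B G hG s hs).2
  have h := h4 s [] (.syn G.a0 0) t t' ht (key t' ht')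
  rw [ht', h]

end FINNM

open FINNM in
theorem specFinN (hCore : SpecCore) (hEnc : SpecEnc) (hAgs : SpecAgs) (hAgd : SpecAgd) (hAgr : SpecAgr) :
    SpecFinN := by
  intro A B G₁ G₂ k hc₁ hc₂ hb₁ hb₂ hsmall
  obtain ⟨𝒯, hty, hN, hTAV, hTAw, hlow, hinj⟩ := hEnc k
  have hl : ∀ t, (fun x => x ≤ k) (𝒯.ty t) → ∀ x, enc k t x = algebraMap GS _ (gw (k + 1) t x) := by
    intro t ht
    refine hlow t ?_
    simp only [hty, sty] at ht
    omega
  have hR : ∀ (G : AG A B), G.Noncircular → G.InhBound k → Reg 𝒯 (fun x => x ≤ k) A G.p G.toPT := by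
    intro G hG hb
    refine hAgr A B G hG 𝒯 _ ?_
    intro s hs u b t ht
    have := hb s hs u b t ht
    simp only [hty, sty]
    omega
  have main : ∀ (m : ℕ) (s : Tree), size s = m → Ranked A s → G₁.toPT.val s = G₂.toPT.val s := by
    intro m
    induction m using Nat.strong_induction_on with
    | _ m ih =>
      intro s hm hs
      rcases Nat.lt_or_ge (bound (k + 2) (k + 1) G₁.p G₁.q G₂.p G₂.q G₁.p G₂.p) (ht s) with hlt | hle
      · have hcore := hCore A GS (ℕ × ℕ × ℕ) (k + 1) 𝒯 (gw (k + 1)) (enc k) (fun x => x ≤ k) hTAw hTAV hl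
          G₁.p G₁.q G₂.p G₂.q G₁.toPT G₂.toPT G₁.p G₂.p (hR G₁ hc₁ hb₁) (hR G₂ hc₂ hb₂) s hs
          (by rw [hN]; exact hlt) (fun s' hs' hlt' => ih (size s') (by omega) s' rfl hs')
        obtain ⟨t₁, ht₁⟩ := Option.isSome_iff_exists.1 (hAgd A B G₁ hc₁ s hs).2
        obtain ⟨t₂, ht₂⟩ := Option.isSome_iff_exists.1 (hAgd A B G₂ hc₂ s hs).2
        have hV := hcore.2 t₁ t₂ ht₁ ht₂
        have r₁ : Ranked B t₁ := (hAgs A B G₁).2.2.2.2 s hs t₁ ((val_iff hAgs hAgd G₁ hc₁ hs t₁).1 ht₁)
        have r₂ : Ranked B t₂ := (hAgs A B G₂).2.2.2.2 s hs t₂ ((val_iff hAgs hAgd G₂ hc₂ hs t₂).1 ht₂)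
        rw [ht₁, ht₂, hinj B t₁ t₂ r₁ r₂ hV]
      · apply Option.ext
        intro t
        rw [val_iff hAgs hAgd G₁ hc₁ hs t, val_iff hAgs hAgd G₂ hc₂ hs t]
        exact hsmall s hs hle t
  intro s hs t
  rw [← val_iff hAgs hAgd G₁ hc₁ hs t, ← val_iff hAgs hAgd G₂ hc₂ hs t, main _ s rfl hs]

end Pool.Agent.Lib.MP_39893a_lc.AGL
end

section
/-!
# GSIM: generic values (MP_39893a_lc, hive AGL)
-/
set_option autoImplicit false

namespace Pool.Agent.Lib.MP_39893a_lc.AGL.GSIMM

open Pool.Agent.Lib.MP_39893a_lc Pool.Agent.Lib.MP_39893a_lc.AGL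

/-- The specialization of the generic interpretation. -/
noncomputable def spz {S : Type} [CommRing S] (I : Interp S) : GS →+* S :=
  MvPolynomial.eval₂Hom (Int.castRingHom S)
    (Sum.elim (fun p => I.C p.1 p.2) (fun p => I.A p.1 p.2.1 p.2.2.1 p.2.2.2))

lemma gen_map {S : Type} [CommRing S] (I : Interp S) : gen.map (spz I) = I := by
  unfold gen Interp.map spz
  simp only [MvPolynomial.eval₂Hom_X', Sum.elim_inl, Sum.elim_inr]

lemma sim_of_gw (d : ℕ) (t t' : Tree) (h : ∀ x : Fin d, gw d t x = gw d t' x) : Sim d t t' := by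
  intro S _ I x hx
  have h1 := h ⟨x, hx⟩
  unfold gw at h1
  have h2 := congrArg (spz I) h1
  rw [← W_map, ← W_map, gen_map] at h2
  exact h2

lemma gw_node (d b r : ℕ) (c : Fin r → Tree) (x : Fin d) :
    gw d (.node b r c) x =
      gen.C b x + ∑ i : Fin r, ∑ y : Fin d, gen.A b i x y * gw d (c i) y := by
  unfold gw
  rw [W]
  congr 1
  apply Finset.sum_congr rfl
  intro i _
  rw [Finset.sum_range]

/-- The trivial typing. -/
def triv : Typing where
  ty _ := 0
  N := 1
  lt _ := Nat.one_pos
  congr _ _ _ _ _ := rfl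

/-- GSIM. -/
theorem specGsim : SpecGsim := by
  refine ⟨sim_of_gw, triv, rfl, fun d => ⟨?_, ?_⟩⟩
  · intro b r τ
    exact ⟨fun x => gen.C b x, fun i x y => gen.A b i x y, fun c _ x => gw_node d b r c x⟩
  · intro b r τ
    refine ⟨fun x => algebraMap GS (FA GS (ℕ × ℕ × ℕ)) (gen.C b x),
      fun i x y => algebraMap GS (FA GS (ℕ × ℕ × ℕ)) (gen.A b i x y), fun c _ x => ?_⟩
    simp only [gw_node, map_add, map_sum, map_mul]

end Pool.Agent.Lib.MP_39893a_lc.AGL.GSIMM
end

section
/-!
# PATH: a longest path (MP_39893a_lc, hive AGL)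
-/
set_option autoImplicit false

namespace Pool.Agent.Lib.MP_39893a_lc.AGL.PATHM

open Pool.Agent.Lib.MP_39893a_lc Pool.Agent.Lib.MP_39893a_lc.AGL

lemma ranked_update {A : List ℕ} {a r : ℕ} {c : Fin r → Tree} (i0 : Fin r) {t : Tree}
    (hs : Ranked A (.node a r c)) (ht : Ranked A t) :
    Ranked A (.node a r (Function.update c i0 t)) := by
  rw [Ranked] at hs ⊢
  refine ⟨hs.1, fun i => ?_⟩
  by_cases hi : i = i0
  · subst hi
    rw [Function.update_self]
    exact ht
  · rw [Function.update_of_ne hi]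
    exact hs.2 i

lemma size_update {a r : ℕ} {c : Fin r → Tree} (i0 : Fin r) {t : Tree}
    (h : size t < size (c i0)) :
    size (.node a r (Function.update c i0 t)) < size (.node a r c) := by
  rw [size, size]
  have : ∑ i : Fin r, size (Function.update c i0 t i) < ∑ i : Fin r, size (c i) := by
    apply Finset.sum_lt_sum
    · intro i _
      by_cases hi : i = i0
      · subst hi
        rw [Function.update_self]
        exact h.le
      · rw [Function.update_of_ne hi]
    · exact ⟨i0, Finset.mem_univ _, by rw [Function.update_self]; exact h⟩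
  omega

lemma size_child {a r : ℕ} {c : Fin r → Tree} (i0 : Fin r) :
    size (c i0) < size (.node a r c) := by
  rw [size]
  have : size (c i0) ≤ ∑ i : Fin r, size (c i) :=
    Finset.single_le_sum (f := fun i => size (c i)) (fun _ _ => Nat.zero_le _)
      (Finset.mem_univ i0)
  omega

lemma path (A : List ℕ) (s : Tree) : Ranked A s → ∀ h, ht s = h →
    ∃ (K : Fin h → Ctx) (v : Fin h → Tree),
      (∀ i, plug (K i) (v i) = s) ∧ (∀ i, Ranked A (v i) ∧ size (v i) ≤ size s) ∧
      ∀ i j, i < j → Ranked A (plug (K i) (v j)) ∧ size (plug (K i) (v j)) < size s := by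
  induction s with
  | node a r c ih =>
    intro hs h hh
    have hr : Ranked A (.node a r c) := hs
    rw [Ranked] at hs
    rw [ht] at hh
    rcases Nat.eq_zero_or_pos r with h0 | hpos
    · subst h0
      have h1 : h = 1 := by
        rw [← hh]
        simp
      subst h1
      refine ⟨fun _ => .hole, fun _ => .node a 0 c, fun i => rfl, fun i => ⟨hr, le_rfl⟩, ?_⟩
      intro i j hij
      exact absurd hij (by rw [Subsingleton.elim i j]; exact lt_irrefl _)
    · have : Nonempty (Fin r) := ⟨⟨0, hpos⟩⟩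
      obtain ⟨i0, -, hi0⟩ := Finset.exists_mem_eq_sup (Finset.univ : Finset (Fin r))
        Finset.univ_nonempty (fun i => ht (c i))
      rw [hi0] at hh
      obtain ⟨K, v, h1, h2, h3⟩ := ih i0 (hs.2 i0) _ rfl
      have h4 : h = ht (c i0) + 1 := by omega
      subst h4
      refine ⟨Fin.cons .hole fun k => .node a r i0 c (K k), Fin.cons (.node a r c) v, ?_, ?_, ?_⟩
      · intro i
        refine Fin.cases ?_ (fun k => ?_) i
        · rfl
        · rw [Fin.cons_succ, Fin.cons_succ, plug, h1, Function.update_eq_self]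
      · intro i
        refine Fin.cases ?_ (fun k => ?_) i
        · exact ⟨hr, le_rfl⟩
        · rw [Fin.cons_succ]
          exact ⟨(h2 k).1, (h2 k).2.trans (size_child i0).le⟩
      · intro i j
        refine Fin.cases ?_ (fun k => ?_) j
        · intro hij
          exact absurd hij (Fin.not_lt_zero i)
        · refine Fin.cases ?_ (fun l => ?_) i
          · intro _
            rw [Fin.cons_succ]
            exact ⟨(h2 k).1, lt_of_le_of_lt (h2 k).2 (size_child i0)⟩
          · intro hij
            rw [Fin.cons_succ, Fin.cons_succ, plug]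
            have hlk : l < k := Fin.succ_lt_succ_iff.1 hij
            exact ⟨ranked_update i0 hr (h3 l k hlk).1, size_update i0 (h3 l k hlk).2⟩

/-- PATH. -/
theorem specPath : SpecPath := by
  intro A s hs
  obtain ⟨K, v, h1, -, h3⟩ := path A s hs _ rfl
  exact ⟨K, v, h1, h3⟩

end Pool.Agent.Lib.MP_39893a_lc.AGL.PATHM
end

section
/-!
# Module PIG: the pigeonhole principle for the type information
-/
set_option autoImplicit false

namespace Pool.Agent.Lib.MP_39893a_lc.AGL

namespace PIGM

/-- The type as an element of a finite set. -/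
def tyF (𝒯 : Typing) (t : Tree) : Fin 𝒯.N := ⟨𝒯.ty t, 𝒯.lt t⟩

open Classical in
/-- A representative of each type. -/
noncomputable def rep (𝒯 : Typing) (x : Fin 𝒯.N) : Tree :=
  if h : ∃ t, tyF 𝒯 t = x then h.choose else t0

theorem tyF_rep (𝒯 : Typing) (t : Tree) : tyF 𝒯 (rep 𝒯 (tyF 𝒯 t)) = tyF 𝒯 t := by
  have h : ∃ t', tyF 𝒯 t' = tyF 𝒯 t := ⟨t, rfl⟩
  unfold rep
  rw [dif_pos h]
  exact h.choose_spec

theorem ty_rep (𝒯 : Typing) (t : Tree) : 𝒯.ty (rep 𝒯 (tyF 𝒯 t)) = 𝒯.ty t :=
  congrArg Fin.val (tyF_rep 𝒯 t)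

/-- The information of a tree. -/
noncomputable def info (𝒯 : Typing) {n P : ℕ} (T : PT n P) (v : Tree) :
    Fin n × (Fin P → Option (Fin 𝒯.N)) → Option (Fin 𝒯.N) :=
  fun a => (T.run v a.1 fun j => (a.2 j).map (rep 𝒯)).map (tyF 𝒯)

theorem oty_eq (𝒯 : Typing) (o : Option Tree) :
    𝒯.oty o = (o.map (tyF 𝒯)).map Fin.val := by
  cases o <;> rfl

theorem sameInfo (hT : SpecTyc) (𝒯 : Typing) {n P : ℕ} (T : PT n P) (v v' : Tree)
    (h : info 𝒯 T v = info 𝒯 T v') : SameInfo 𝒯 T v v' := by
  intro q ρ ρ' hρ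
  let θ : Fin P → Option (Fin 𝒯.N) := fun j => (ρ j).map (tyF 𝒯)
  let σ : Fin P → Option Tree := fun j => (θ j).map (rep 𝒯)
  have h1 : ∀ j, 𝒯.oty (ρ j) = 𝒯.oty (σ j) := by
    intro j
    simp only [σ, θ]
    cases ρ j with
    | none => rfl
    | some t => simp [Typing.oty, ty_rep]
  have h2 : ∀ j, 𝒯.oty (σ j) = 𝒯.oty (ρ' j) := fun j => (h1 j).symm.trans (hρ j)
  have h3 : 𝒯.oty (T.run v q σ) = 𝒯.oty (T.run v' q σ) := by
    rw [oty_eq, oty_eq]
    have := congrFun h (q, θ)
    simp only [info] at this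
    rw [this]
  calc 𝒯.oty (T.run v q ρ) = 𝒯.oty (T.run v q σ) := hT.2.1 𝒯 n P T v q ρ σ h1
    _ = 𝒯.oty (T.run v' q σ) := h3
    _ = 𝒯.oty (T.run v' q ρ') := hT.2.1 𝒯 n P T v' q σ ρ' h2

theorem card_info (N n P : ℕ) :
    Fintype.card (Fin n × (Fin P → Option (Fin N)) → Option (Fin N)) = nI N n P := by
  simp [nI]

end PIGM

open PIGM in
theorem specPig (hT : SpecTyc) : SpecPig := by
  classical
  intro 𝒯 n₁ P₁ n₂ P₂ T₁ T₂ m h v hh
  let F : Fin h → (Fin n₁ × (Fin P₁ → Option (Fin 𝒯.N)) → Option (Fin 𝒯.N)) ×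
      (Fin n₂ × (Fin P₂ → Option (Fin 𝒯.N)) → Option (Fin 𝒯.N)) :=
    fun i => (info 𝒯 T₁ (v i), info 𝒯 T₂ (v i))
  have hc : (Finset.univ : Finset ((Fin n₁ × (Fin P₁ → Option (Fin 𝒯.N)) → Option (Fin 𝒯.N)) ×
      (Fin n₂ × (Fin P₂ → Option (Fin 𝒯.N)) → Option (Fin 𝒯.N)))).card * m <
      (Finset.univ : Finset (Fin h)).card := by
    rw [Finset.card_univ, Fintype.card_prod, card_info, card_info, Finset.card_univ,
      Fintype.card_fin]
    exact hh
  obtain ⟨y, -, hy⟩ := Finset.exists_lt_card_fiber_of_mul_lt_card_of_maps_to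
    (f := F) (fun a _ => Finset.mem_univ _) hc
  refine ⟨_, hy, ?_⟩
  intro i hi j hj
  have hi' : F i = y := (Finset.mem_filter.1 hi).2
  have hj' : F j = y := (Finset.mem_filter.1 hj).2
  have hij : F i = F j := hi'.trans hj'.symm
  exact ⟨sameInfo hT 𝒯 T₁ _ _ (congrArg Prod.fst hij),
    sameInfo hT 𝒯 T₂ _ _ (congrArg Prod.snd hij)⟩

end Pool.Agent.Lib.MP_39893a_lc.AGL
end

section
/-!
# Module POLY: left linearity in the subtree

The values of a term with used nesting at most `e` are left linear combinations of `nM` monomials in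
the entries of the typed affine representations of the functions `T.run v`.
-/
set_option autoImplicit false

namespace Pool.Agent.Lib.MP_39893a_lc.AGL.POLYM

open Finset

/-! ### Spans of monomials -/

section span

variable {S : Type} [CommRing S] {X I : Type} (E : X → Option I → S)

/-- The span of the monomials of degree `e`. -/
def MS (e : ℕ) : Submodule S (X → S) :=
  Submodule.span S (Set.range fun (σ : Fin e → Option I) (v : X) => ∏ k, E v (σ k))

theorem one_mem (h1 : ∀ v, E v none = 1) (e : ℕ) : (fun _ => 1 : X → S) ∈ MS E e := by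
  refine Submodule.subset_span ⟨fun _ => none, ?_⟩
  funext v
  simp [h1]

theorem mul_mem (e : ℕ) (i : Option I) {f : X → S} (hf : f ∈ MS E e) :
    (fun v => E v i * f v) ∈ MS E (e + 1) := by
  unfold MS at hf
  induction hf using Submodule.span_induction with
  | mem f hf =>
    obtain ⟨σ, rfl⟩ := hf
    refine Submodule.subset_span ⟨Fin.cons i σ, ?_⟩
    funext v
    simp [Fin.prod_univ_succ]
  | zero =>
    have h : (fun v => E v i * (0 : X → S) v) = 0 := by funext v; simp
    rw [h]
    exact Submodule.zero_mem _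
  | add f g _ _ hf hg =>
    have h : (fun v => E v i * (f + g) v) = (fun v => E v i * f v) + fun v => E v i * g v := by
      funext v
      simp [mul_add]
    rw [h]
    exact Submodule.add_mem _ hf hg
  | smul a f _ hf =>
    have h : (fun v => E v i * (a • f) v) = a • fun v => E v i * f v := by
      funext v
      simp only [Pi.smul_apply, smul_eq_mul]
      ring
    rw [h]
    exact Submodule.smul_mem _ _ hf

variable {R : Type} [Ring R] [Algebra S R] (ER : X → Option I → R)

/-- The monomials over `R`: the first factor is over `R`, the others are over `S`. -/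
def mon : (e : ℕ) → (Fin e → Option I) → X → R
  | 0, _, _ => 1
  | _ + 1, σ, v => ER v (σ 0) * algebraMap S R (∏ k, E v (σ (Fin.succ k)))

/-- The left span of the monomials over `R`. -/
def MR (e : ℕ) : Submodule R (X → R) := Submodule.span R (Set.range (mon E ER e))

theorem one_memR (h1 : ∀ v, E v none = 1) (h2 : ∀ v, ER v none = 1) (e : ℕ) :
    (fun _ => 1 : X → R) ∈ MR E ER e := by
  refine Submodule.subset_span ⟨fun _ => none, ?_⟩
  funext v
  cases e <;> simp [mon, h1, h2]

theorem mul_memR (e : ℕ) (i : Option I) {f : X → S} (hf : f ∈ MS E e) :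
    (fun v => ER v i * algebraMap S R (f v)) ∈ MR E ER (e + 1) := by
  unfold MS at hf
  induction hf using Submodule.span_induction with
  | mem f hf =>
    obtain ⟨σ, rfl⟩ := hf
    refine Submodule.subset_span ⟨Fin.cons i σ, ?_⟩
    funext v
    simp [mon]
  | zero =>
    have h : (fun v => ER v i * algebraMap S R ((0 : X → S) v)) = 0 := by funext v; simp
    rw [h]
    exact Submodule.zero_mem _
  | add f g _ _ hf hg =>
    have h : (fun v => ER v i * algebraMap S R ((f + g) v)) =
        (fun v => ER v i * algebraMap S R (f v)) + fun v => ER v i * algebraMap S R (g v) := by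
      funext v
      simp [mul_add]
    rw [h]
    exact Submodule.add_mem _ hf hg
  | smul a f _ hf =>
    have h : (fun v => ER v i * algebraMap S R ((a • f) v)) =
        algebraMap S R a • fun v => ER v i * algebraMap S R (f v) := by
      funext v
      simp only [Pi.smul_apply, smul_eq_mul, map_mul]
      rw [← mul_assoc, ← Algebra.commutes a (ER v i), mul_assoc]
    rw [h]
    exact Submodule.smul_mem _ _ hf

end span

/-! ### Entries -/

/-- The indices of the entries. -/
abbrev Ix (N n P d : ℕ) : Type :=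
  Fin n × (Fin P → Option (Fin N)) × (Fin d ⊕ Fin P × Fin d × Fin d)

theorem card_Ix (N n P d : ℕ) : Fintype.card (Ix N n P d) = nE N n P d := by
  simp only [Ix, nE, Fintype.card_prod, Fintype.card_fin, Fintype.card_sum, Fintype.card_fun,
    Fintype.card_option]
  ring

/-- Types below `N` as numbers. -/
def lft {N P : ℕ} (θ : Fin P → Option (Fin N)) : Fin P → Option ℕ := fun j => (θ j).map Fin.val

/-- The entries of a representation. -/
def ent {A : Type} [Ring A] {N n P d : ℕ}
    (C : Tree → Fin n → (Fin P → Option ℕ) → Fin d → A)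
    (M : Tree → Fin n → (Fin P → Option ℕ) → Fin P → Fin d → Fin d → A) (v : Tree) :
    Option (Ix N n P d) → A
  | none => 1
  | some (q, θ, Sum.inl x) => C v q (lft θ) x
  | some (q, θ, Sum.inr (j, x, y)) => M v q (lft θ) j x y

section main

variable {d : ℕ} (𝒯 : Typing) {n P : ℕ} (T : PT n P)

/-- `C`, `M` represent all the functions `T.run v q`. -/
def IsRep {A : Type} [Ring A] (V : Tree → Fin d → A)
    (C : Tree → Fin n → (Fin P → Option ℕ) → Fin d → A)
    (M : Tree → Fin n → (Fin P → Option ℕ) → Fin P → Fin d → Fin d → A) : Prop :=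
  ∀ (v : Tree) (q : Fin n) (θ : Fin P → Option ℕ),
    (∀ j, ¬ occ (T.run v q) j → M v q θ j = 0) ∧
    ∀ ρ : Fin P → Option Tree, (∀ j, 𝒯.oty (ρ j) = θ j) → ∀ t, T.run v q ρ = some t →
      ∀ x, V t x = C v q θ x + ∑ j, ∑ y, M v q θ j x y * oV V (ρ j) y

theorem exists_rep (hR : SpecRep) {A : Type} [Ring A] (V : Tree → Fin d → A) (hV : TA 𝒯 V) :
    ∃ C M, IsRep 𝒯 T V C M := by
  have h := fun v q θ => hR A d 𝒯 V hV n P T v q θ
  choose C M hM using h
  exact ⟨C, M, hM⟩

/-- The types of the arguments. -/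
noncomputable def argty (g : Fns n P) (c : Fin P → Tm n P) : Fin P → Option (Fin 𝒯.N) :=
  fun j => ((c j).cl g).map fun t => ⟨𝒯.ty t, 𝒯.lt t⟩

theorem lft_argty (g : Fns n P) (c : Fin P → Tm n P) (j : Fin P) :
    lft (argty 𝒯 g c) j = 𝒯.oty ((c j).cl g) := by
  simp only [lft, argty, Typing.oty, Option.map_map]
  rfl

theorem oty_none {o : Option Tree} : 𝒯.oty o = none ↔ o = none := by
  cases o <;> simp [Typing.oty]

variable {𝒯 T}

theorem oty_cl (hT : SpecTyc) {v₀ v : Tree} (h : SameInfo 𝒯 T v₀ v) (ζ : Tm n P) :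
    𝒯.oty (ζ.cl (T.run v₀)) = 𝒯.oty (ζ.cl (T.run v)) :=
  hT.1 𝒯 n P (T.run v₀) (T.run v) ζ (fun _ => none) (fun _ => none) h fun _ => rfl

theorem cl_out {g : Fns n P} {b r : ℕ} {c : Fin r → Tm n P} {t : Tree}
    (h : (Tm.out b r c).cl g = some t) :
    ∃ s : Fin r → Tree, (∀ i, (c i).cl g = some (s i)) ∧ t = .node b r s := by
  simp only [Tm.cl, Tm.ev] at h
  split at h
  · rename_i h1
    refine ⟨fun i => ((c i).ev (fun _ => none) fun _ => g).get (h1 i), fun i => ?_, ?_⟩
    · simp [Tm.cl]
    · exact (Option.some.inj h).symm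
  · exact absurd h (by simp)

theorem cl_call (g : Fns n P) (q : Fin n) (i : ℕ) (c : Fin P → Tm n P) :
    (Tm.call q i c).cl g = g q fun l => (c l).cl g := rfl

/-- The value of an output node. -/
theorem out_formula (hT : SpecTyc) {A : Type} [Ring A] {V : Tree → Fin d → A} (hV : TA 𝒯 V)
    {v₀ : Tree} (b r : ℕ) (c : Fin r → Tm n P) {t₀ : Tree}
    (h0 : (Tm.out b r c).cl (T.run v₀) = some t₀) :
    ∃ (C : Fin d → A) (M : Fin r → Fin d → Fin d → A), ∀ v, SameInfo 𝒯 T v₀ v → ∀ x,
      oV V ((Tm.out b r c).cl (T.run v)) x =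
        C x + ∑ i, ∑ y, M i x y * oV V ((c i).cl (T.run v)) y := by
  obtain ⟨s₀, hs₀, -⟩ := cl_out h0
  obtain ⟨C, M, hM⟩ := hV b r fun i => 𝒯.ty (s₀ i)
  refine ⟨C, M, fun v hv x => ?_⟩
  obtain ⟨t, ht⟩ : ∃ t, (Tm.out b r c).cl (T.run v) = some t := by
    rw [← Option.ne_none_iff_exists']
    intro h
    have h1 := oty_cl hT hv (Tm.out b r c)
    rw [h, h0] at h1
    exact absurd h1 (by simp [Typing.oty])
  obtain ⟨s, hs, rfl⟩ := cl_out ht
  rw [ht]
  have h2 := hM s (fun i => by
    have h1 := oty_cl hT hv (c i)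
    rw [hs, hs₀] at h1
    simpa [Typing.oty] using h1.symm) x
  simp only [oV, hs]
  exact h2

/-- The value of a call. -/
theorem call_formula (hT : SpecTyc) {A : Type} [Ring A] {V : Tree → Fin d → A}
    {C : Tree → Fin n → (Fin P → Option ℕ) → Fin d → A}
    {M : Tree → Fin n → (Fin P → Option ℕ) → Fin P → Fin d → Fin d → A}
    (hM : IsRep 𝒯 T V C M) {v₀ : Tree} (q : Fin n) (i : ℕ) (c : Fin P → Tm n P) {t₀ : Tree}
    (h0 : (Tm.call q i c).cl (T.run v₀) = some t₀) (v : Tree) (hv : SameInfo 𝒯 T v₀ v)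
    (x : Fin d) :
    oV V ((Tm.call q i c).cl (T.run v)) x =
      ent C M v (some (q, argty 𝒯 (T.run v₀) c, Sum.inl x)) +
        ∑ j, ∑ y, ent C M v (some (q, argty 𝒯 (T.run v₀) c, Sum.inr (j, x, y))) *
          oV V ((c j).cl (T.run v)) y := by
  obtain ⟨t, ht⟩ : ∃ t, (Tm.call q i c).cl (T.run v) = some t := by
    rw [← Option.ne_none_iff_exists']
    intro h
    have h1 := oty_cl hT hv (Tm.call q i c)
    rw [h, h0] at h1
    exact absurd h1 (by simp [Typing.oty])
  have h2 := (hM v q (lft (argty 𝒯 (T.run v₀) c))).2 (fun l => (c l).cl (T.run v))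
    (fun j => by rw [lft_argty, oty_cl hT hv]) t ht x
  rw [ht]
  exact h2

theorem ent_zero (hT : SpecTyc) {A : Type} [Ring A] {V : Tree → Fin d → A}
    {C : Tree → Fin n → (Fin P → Option ℕ) → Fin d → A}
    {M : Tree → Fin n → (Fin P → Option ℕ) → Fin P → Fin d → Fin d → A}
    (hM : IsRep 𝒯 T V C M) {v₀ v : Tree} (hv : SameInfo 𝒯 T v₀ v) (q : Fin n)
    (θ : Fin P → Option (Fin 𝒯.N)) (j : Fin P) (hj : ¬ occ (T.run v₀ q) j) (x y : Fin d) :
    ent C M v (some (q, θ, Sum.inr (j, x, y))) = 0 := by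
  have h1 : ¬ occ (T.run v q) j := fun h => hj ((hT.2.2 𝒯 n P T v₀ v hv q j).2 h)
  have h2 := (hM v q (lft θ)).1 j h1
  show M v q (lft θ) j x y = 0
  rw [h2]
  rfl

end main

section lemmas

variable {S : Type} [CommRing S] {d : ℕ} {𝒯 : Typing} {n P : ℕ} {T : PT n P}

/-- The lemma over `S`. -/
theorem mainS (hT : SpecTyc) {w : Tree → Fin d → S} (hw : TA 𝒯 w)
    {C : Tree → Fin n → (Fin P → Option ℕ) → Fin d → S}
    {M : Tree → Fin n → (Fin P → Option ℕ) → Fin P → Fin d → Fin d → S}
    (hM : IsRep 𝒯 T w C M) {low : ℕ → Prop} (v₀ : Tree) (ζ : Tm n P) :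
    ∀ e : ℕ, Good 𝒯 low (T.run v₀) ζ e → ∀ x : Fin d,
      (fun v : {v // SameInfo 𝒯 T v₀ v} => oV w (ζ.cl (T.run v)) x) ∈
        MS (fun (v : {v // SameInfo 𝒯 T v₀ v}) (i : Option (Ix 𝒯.N n P d)) =>
          ent C M (v : Tree) i) e := by
  have hzero : ∀ (ξ : Tm n P) (e : ℕ) (x : Fin d), ξ.cl (T.run v₀) = none →
      (fun v : {v // SameInfo 𝒯 T v₀ v} => oV w (ξ.cl (T.run v)) x) ∈
        MS (fun (v : {v // SameInfo 𝒯 T v₀ v}) (i : Option (Ix 𝒯.N n P d)) =>
          ent C M (v : Tree) i) e := by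
    intro ξ e x h
    have h1 : (fun v : {v // SameInfo 𝒯 T v₀ v} => oV w (ξ.cl (T.run v)) x) = 0 := by
      funext v
      have h2 := oty_cl hT v.2 ξ
      rw [h] at h2
      have h3 : ξ.cl (T.run v) = none := (oty_none 𝒯).1 h2.symm
      rw [h3]
      rfl
    rw [h1]
    exact Submodule.zero_mem _
  induction ζ with
  | bot => exact fun e _ x => hzero _ e x rfl
  | par j => exact fun e _ x => hzero _ e x rfl
  | out b r c ih =>
    intro e hG x
    have hG' : ∀ i, Good 𝒯 low (T.run v₀) (c i) e := by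
      cases e <;> exact hG
    rcases Option.eq_none_or_eq_some ((Tm.out b r c).cl (T.run v₀)) with h0 | ⟨t₀, h0⟩
    · exact hzero _ e x h0
    obtain ⟨C', M', hf⟩ := out_formula hT hw b r c h0
    have h1 : (fun v : {v // SameInfo 𝒯 T v₀ v} => oV w ((Tm.out b r c).cl (T.run v)) x) =
        C' x • (fun _ => (1 : S)) + ∑ i, ∑ y, M' i x y •
          fun v : {v // SameInfo 𝒯 T v₀ v} => oV w ((c i).cl (T.run v)) y := by
      funext v
      simp [hf v v.2 x, Finset.sum_apply]
    rw [h1]
    refine Submodule.add_mem _ (Submodule.smul_mem _ _ (one_mem _ (fun _ => rfl) e)) ?_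
    exact Submodule.sum_mem _ fun i _ => Submodule.sum_mem _ fun y _ =>
      Submodule.smul_mem _ _ (ih i e (hG' i) y)
  | call q i c ih =>
    intro e hG x
    cases e with
    | zero => exact absurd hG (by simp [Good])
    | succ e =>
      have hG' : ∀ j, occ (T.run v₀ q) j → Good 𝒯 low (T.run v₀) (c j) e ∧
        ∀ t, (c j).cl (T.run v₀) = some t → low (𝒯.ty t) := hG
      rcases Option.eq_none_or_eq_some ((Tm.call q i c).cl (T.run v₀)) with h0 | ⟨t₀, h0⟩
      · exact hzero _ _ x h0
      have hf := call_formula hT hM q i c h0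
      have h1 : (fun v : {v // SameInfo 𝒯 T v₀ v} =>
          oV w ((Tm.call q i c).cl (T.run v)) x) =
          (fun v : {v // SameInfo 𝒯 T v₀ v} =>
            ent C M (v : Tree) (some (q, argty 𝒯 (T.run v₀) c, Sum.inl x)) *
              (fun _ => (1 : S)) v) +
          ∑ j, ∑ y, fun v : {v // SameInfo 𝒯 T v₀ v} =>
            ent C M (v : Tree) (some (q, argty 𝒯 (T.run v₀) c, Sum.inr (j, x, y))) *
              oV w ((c j).cl (T.run v)) y := by
        funext v
        simp [hf v v.2 x, Finset.sum_apply]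
      rw [h1]
      refine Submodule.add_mem _ (mul_mem _ e _ (one_mem _ (fun _ => rfl) e)) ?_
      refine Submodule.sum_mem _ fun j _ => Submodule.sum_mem _ fun y _ => ?_
      by_cases hj : occ (T.run v₀ q) j
      · exact mul_mem _ e _ (ih j e (hG' j hj).1 y)
      · have h2 : (fun v : {v // SameInfo 𝒯 T v₀ v} =>
            ent C M (v : Tree) (some (q, argty 𝒯 (T.run v₀) c, Sum.inr (j, x, y))) *
              oV w ((c j).cl (T.run v)) y) = 0 := by
          funext v
          rw [ent_zero hT hM v.2 q _ j hj x y, zero_mul]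
          rfl
        rw [h2]
        exact Submodule.zero_mem _

/-- The lemma over `R`. -/
theorem mainR (hT : SpecTyc) {R : Type} [Ring R] [Algebra S R] {w : Tree → Fin d → S}
    (hw : TA 𝒯 w) {V : Tree → Fin d → R} (hV : TA 𝒯 V)
    {C : Tree → Fin n → (Fin P → Option ℕ) → Fin d → S}
    {M : Tree → Fin n → (Fin P → Option ℕ) → Fin P → Fin d → Fin d → S}
    (hM : IsRep 𝒯 T w C M)
    {CR : Tree → Fin n → (Fin P → Option ℕ) → Fin d → R}
    {MR' : Tree → Fin n → (Fin P → Option ℕ) → Fin P → Fin d → Fin d → R}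
    (hMR : IsRep 𝒯 T V CR MR') {low : ℕ → Prop}
    (hlow : ∀ t, low (𝒯.ty t) → ∀ x, V t x = algebraMap S R (w t x)) (v₀ : Tree)
    (ζ : Tm n P) :
    ∀ e : ℕ, Good 𝒯 low (T.run v₀) ζ e → ∀ x : Fin d,
      (fun v : {v // SameInfo 𝒯 T v₀ v} => oV V (ζ.cl (T.run v)) x) ∈
        MR (fun (v : {v // SameInfo 𝒯 T v₀ v}) (i : Option (Ix 𝒯.N n P d)) =>
          ent C M (v : Tree) i)
          (fun (v : {v // SameInfo 𝒯 T v₀ v}) (i : Option (Ix 𝒯.N n P d)) =>
          ent CR MR' (v : Tree) i) e := by
  have hzero : ∀ (ξ : Tm n P) (e : ℕ) (x : Fin d), ξ.cl (T.run v₀) = none →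
      (fun v : {v // SameInfo 𝒯 T v₀ v} => oV V (ξ.cl (T.run v)) x) ∈
        MR (fun (v : {v // SameInfo 𝒯 T v₀ v}) (i : Option (Ix 𝒯.N n P d)) =>
          ent C M (v : Tree) i)
          (fun (v : {v // SameInfo 𝒯 T v₀ v}) (i : Option (Ix 𝒯.N n P d)) =>
          ent CR MR' (v : Tree) i) e := by
    intro ξ e x h
    have h1 : (fun v : {v // SameInfo 𝒯 T v₀ v} => oV V (ξ.cl (T.run v)) x) = 0 := by
      funext v
      have h2 := oty_cl hT v.2 ξ
      rw [h] at h2
      have h3 : ξ.cl (T.run v) = none := (oty_none 𝒯).1 h2.symm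
      rw [h3]
      rfl
    rw [h1]
    exact Submodule.zero_mem _
  induction ζ with
  | bot => exact fun e _ x => hzero _ e x rfl
  | par j => exact fun e _ x => hzero _ e x rfl
  | out b r c ih =>
    intro e hG x
    have hG' : ∀ i, Good 𝒯 low (T.run v₀) (c i) e := by
      cases e <;> exact hG
    rcases Option.eq_none_or_eq_some ((Tm.out b r c).cl (T.run v₀)) with h0 | ⟨t₀, h0⟩
    · exact hzero _ e x h0
    obtain ⟨C', M', hf⟩ := out_formula hT hV b r c h0
    have h1 : (fun v : {v // SameInfo 𝒯 T v₀ v} => oV V ((Tm.out b r c).cl (T.run v)) x) =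
        C' x • (fun _ => (1 : R)) + ∑ i, ∑ y, M' i x y •
          fun v : {v // SameInfo 𝒯 T v₀ v} => oV V ((c i).cl (T.run v)) y := by
      funext v
      simp [hf v v.2 x, Finset.sum_apply]
    rw [h1]
    refine Submodule.add_mem _ (Submodule.smul_mem _ _
      (one_memR _ _ (fun _ => rfl) (fun _ => rfl) e)) ?_
    exact Submodule.sum_mem _ fun i _ => Submodule.sum_mem _ fun y _ =>
      Submodule.smul_mem _ _ (ih i e (hG' i) y)
  | call q i c ih =>
    intro e hG x
    cases e with
    | zero => exact absurd hG (by simp [Good])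
    | succ e =>
      have hG' : ∀ j, occ (T.run v₀ q) j → Good 𝒯 low (T.run v₀) (c j) e ∧
        ∀ t, (c j).cl (T.run v₀) = some t → low (𝒯.ty t) := hG
      rcases Option.eq_none_or_eq_some ((Tm.call q i c).cl (T.run v₀)) with h0 | ⟨t₀, h0⟩
      · exact hzero _ _ x h0
      have hf := call_formula hT hMR q i c h0
      have h1 : (fun v : {v // SameInfo 𝒯 T v₀ v} =>
          oV V ((Tm.call q i c).cl (T.run v)) x) =
          (fun v : {v // SameInfo 𝒯 T v₀ v} =>
            ent CR MR' (v : Tree) (some (q, argty 𝒯 (T.run v₀) c, Sum.inl x)) *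
              algebraMap S R ((fun _ => (1 : S)) v)) +
          ∑ j, ∑ y, fun v : {v // SameInfo 𝒯 T v₀ v} =>
            ent CR MR' (v : Tree) (some (q, argty 𝒯 (T.run v₀) c, Sum.inr (j, x, y))) *
              oV V ((c j).cl (T.run v)) y := by
        funext v
        simp [hf v v.2 x, Finset.sum_apply]
      rw [h1]
      refine Submodule.add_mem _ (mul_memR _ _ e _ (one_mem _ (fun _ => rfl) e)) ?_
      refine Submodule.sum_mem _ fun j _ => Submodule.sum_mem _ fun y _ => ?_
      by_cases hj : occ (T.run v₀ q) j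
      · have h2 : (fun v : {v // SameInfo 𝒯 T v₀ v} =>
            ent CR MR' (v : Tree) (some (q, argty 𝒯 (T.run v₀) c, Sum.inr (j, x, y))) *
              oV V ((c j).cl (T.run v)) y) =
            fun v : {v // SameInfo 𝒯 T v₀ v} =>
            ent CR MR' (v : Tree) (some (q, argty 𝒯 (T.run v₀) c, Sum.inr (j, x, y))) *
              algebraMap S R (oV w ((c j).cl (T.run v)) y) := by
          funext v
          congr 1
          rcases Option.eq_none_or_eq_some ((c j).cl (T.run v)) with h3 | ⟨t, h3⟩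
          · rw [h3]
            simp [oV]
          · rw [h3]
            refine hlow t ?_ y
            have h4 := oty_cl hT v.2 (c j)
            rw [h3] at h4
            rcases Option.eq_none_or_eq_some ((c j).cl (T.run v₀)) with h5 | ⟨t', h5⟩
            · rw [h5] at h4
              exact absurd h4 (by simp [Typing.oty])
            · rw [h5] at h4
              have h6 : 𝒯.ty t' = 𝒯.ty t := by simpa [Typing.oty] using h4
              rw [← h6]
              exact (hG' j hj).2 t' h5
        rw [h2]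
        exact mul_memR _ _ e _ (mainS hT hw hM v₀ (c j) e (hG' j hj).1 y)
      · have h2 : (fun v : {v // SameInfo 𝒯 T v₀ v} =>
            ent CR MR' (v : Tree) (some (q, argty 𝒯 (T.run v₀) c, Sum.inr (j, x, y))) *
              oV V ((c j).cl (T.run v)) y) = 0 := by
          funext v
          rw [ent_zero hT hMR v.2 q _ j hj x y, zero_mul]
          rfl
        rw [h2]
        exact Submodule.zero_mem _

end lemmas

/-- **POLY.** -/
theorem specPoly (hT : SpecTyc) (hR : SpecRep) : SpecPoly := by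
  intro S _ R _ _ d 𝒯 w V low hw hV hlow n P T e
  obtain ⟨C, M, hM⟩ := exists_rep 𝒯 T hR w hw
  obtain ⟨CR, MR', hMR⟩ := exists_rep 𝒯 T hR V hV
  have hcard : Fintype.card (Fin (nM 𝒯.N n P d e)) =
      Fintype.card (Fin e → Option (Ix 𝒯.N n P d)) := by
    rw [Fintype.card_fin, Fintype.card_fun, Fintype.card_option, card_Ix, Fintype.card_fin]
    rfl
  let φ : Fin (nM 𝒯.N n P d e) ≃ (Fin e → Option (Ix 𝒯.N n P d)) :=
    Fintype.equivOfCardEq hcard
  refine ⟨fun m v => mon (fun (v : Tree) (i : Option (Ix 𝒯.N n P d)) => ent C M v i)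
    (fun (v : Tree) (i : Option (Ix 𝒯.N n P d)) => ent CR MR' v i) e (φ m) v, ?_⟩
  intro v₀ ζ hG x
  have h1 := mainR hT hw hV hM hMR hlow v₀ ζ e hG x
  unfold MR at h1
  rw [Submodule.mem_span_range_iff_exists_fun] at h1
  obtain ⟨l, hl⟩ := h1
  refine ⟨fun m => l (φ m), fun v hv t ht => ?_⟩
  have h2 := congrFun hl ⟨v, hv⟩
  simp only [Finset.sum_apply, Pi.smul_apply, smul_eq_mul] at h2
  rw [ht] at h2
  have h3 : V t x = oV V (some t) x := rfl
  rw [h3, ← h2]
  rw [← φ.sum_comp]
  refine Finset.sum_congr rfl fun m _ => ?_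
  congr 1
  cases e <;> rfl

end Pool.Agent.Lib.MP_39893a_lc.AGL.POLYM
end

section
/-!
# Module REP: typed affine representations
-/
set_option autoImplicit false

namespace Pool.Agent.Lib.MP_39893a_lc.AGL

namespace REPM

variable {R : Type} [Ring R] {d : ℕ} {n P : ℕ}

/-- Representability of a partial function of the parameters. -/
def Rp (𝒯 : Typing) (V : Tree → Fin d → R) (g : (Fin P → Option Tree) → Option Tree) : Prop :=
  ∀ θ : Fin P → Option ℕ, ∃ (C : Fin d → R) (M : Fin P → Fin d → Fin d → R),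
    (∀ j, ¬ occ g j → M j = 0) ∧
    ∀ ρ : Fin P → Option Tree, (∀ j, 𝒯.oty (ρ j) = θ j) → ∀ t, g ρ = some t →
      ∀ x, V t x = C x + ∑ j, ∑ y, M j x y * oV V (ρ j) y

/-- Type congruence. -/
def Tc (𝒯 : Typing) (g : (Fin P → Option Tree) → Option Tree) : Prop :=
  ∀ ρ ρ' : Fin P → Option Tree, (∀ j, 𝒯.oty (ρ j) = 𝒯.oty (ρ' j)) → 𝒯.oty (g ρ) = 𝒯.oty (g ρ')

theorem Rp_none (𝒯 : Typing) (V : Tree → Fin d → R) :
    Rp 𝒯 V (fun _ : Fin P → Option Tree => none) := by
  intro θ
  refine ⟨0, 0, fun _ _ => rfl, ?_⟩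
  intro ρ _ t ht
  exact absurd ht (by simp)

theorem Tc_none (𝒯 : Typing) : Tc 𝒯 (fun _ : Fin P → Option Tree => none) := fun _ _ _ => rfl

theorem isSome_of_oty {𝒯 : Typing} {o o' : Option Tree} (h : 𝒯.oty o = 𝒯.oty o') :
    o.isSome ↔ o'.isSome := by
  unfold Typing.oty at h
  cases o <;> cases o' <;> simp_all

theorem oty_some {𝒯 : Typing} {o : Option Tree} {t : Tree} (h : o = some t) :
    𝒯.oty o = some (𝒯.ty t) := by
  subst h; rfl

theorem Tc_ev (𝒯 : Typing) (f : ℕ → Fns n P) (hf : ∀ i q, Tc 𝒯 (f i q)) (ζ : Tm n P) :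
    Tc 𝒯 (fun ρ => ζ.ev ρ f) := by
  intro ρ ρ' h
  induction ζ with
  | bot => rfl
  | par j => exact h j
  | out b r c ih =>
    simp only [Tm.ev]
    have hs : (∀ i, ((c i).ev ρ f).isSome) ↔ ∀ i, ((c i).ev ρ' f).isSome :=
      forall_congr' fun i => isSome_of_oty (ih i)
    by_cases h1 : ∀ i, ((c i).ev ρ f).isSome
    · have h2 := hs.1 h1
      rw [dif_pos h1, dif_pos h2]
      show some (𝒯.ty _) = some (𝒯.ty _)
      congr 1
      apply 𝒯.congr
      intro i
      have e1 : (c i).ev ρ f = some (((c i).ev ρ f).get (h1 i)) := (Option.some_get _).symm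
      have e2 : (c i).ev ρ' f = some (((c i).ev ρ' f).get (h2 i)) := (Option.some_get _).symm
      have e3 := ih i
      simp only at e3
      rw [oty_some e1, oty_some e2] at e3
      exact Option.some.inj e3
    · have h2 : ¬ ∀ i, ((c i).ev ρ' f).isSome := fun h => h1 (hs.2 h)
      rw [dif_neg h1, dif_neg h2]
  | call q i c ih => exact hf i q _ _ fun l => ih l

theorem Rp_ev (𝒯 : Typing) (V : Tree → Fin d → R) (hV : TA 𝒯 V)
    (f : ℕ → Fns n P) (hf : ∀ i q, Rp 𝒯 V (f i q)) (hft : ∀ i q, Tc 𝒯 (f i q))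
    (hfc : ∀ i q, Conj (f i q)) (ζ : Tm n P) : Rp 𝒯 V (fun ρ => ζ.ev ρ f) := by
  classical
  induction ζ with
  | bot => exact Rp_none 𝒯 V
  | par j =>
    intro θ
    refine ⟨0, fun j' x y => if j' = j ∧ x = y then 1 else 0, ?_, ?_⟩
    · intro j' hj'
      have hne : j' ≠ j := by
        rintro rfl
        apply hj'
        unfold occ
        simp [Tm.ev]
      funext x y
      simp [hne]
    · intro ρ _ t ht x
      have ht' : ρ j = some t := ht
      rw [Finset.sum_eq_single j]
      · rw [Finset.sum_eq_single x]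
        · rw [ht']
          simp [oV]
        · intro y _ hy
          simp [hy.symm]
        · simp
      · intro j' _ hj'
        simp [hj']
      · simp
  | out b r c ih =>
    intro θ
    by_cases hex : ∃ ρ₀ : Fin P → Option Tree, (∀ j, 𝒯.oty (ρ₀ j) = θ j) ∧
        ∀ i, ((c i).ev ρ₀ f).isSome
    · obtain ⟨ρ₀, hρ₀, hs₀⟩ := hex
      obtain ⟨C₀, M₀, h0⟩ := hV b r fun i => 𝒯.ty (((c i).ev ρ₀ f).get (hs₀ i))
      choose C' M' h1 h2 using fun i => ih i θ
      refine ⟨fun x => C₀ x + ∑ i, ∑ z, M₀ i x z * C' i z,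
        fun j x y => ∑ i, ∑ z, M₀ i x z * M' i j z y, ?_, ?_⟩
      · intro j hj
        have hj' : ∀ i, ¬ occ (fun ρ => (c i).ev ρ f) j := by
          intro i hi
          apply hj
          unfold occ at hi ⊢
          simp only [Tm.ev]
          rw [dif_neg]
          intro hall
          have := hall i
          simp only at hi
          rw [hi] at this
          exact absurd this (by simp)
        funext x y
        apply Finset.sum_eq_zero
        intro i _
        apply Finset.sum_eq_zero
        intro z _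
        rw [h1 i j (hj' i)]
        simp
      · intro ρ hρ t ht x
        simp only [Tm.ev] at ht
        by_cases hs : ∀ i, ((c i).ev ρ f).isSome
        · rw [dif_pos hs] at ht
          have ht' := Option.some.inj ht
          rw [← ht']
          have hty : ∀ i, 𝒯.ty (((c i).ev ρ f).get (hs i)) =
              𝒯.ty (((c i).ev ρ₀ f).get (hs₀ i)) := by
            intro i
            have e1 : (c i).ev ρ f = some (((c i).ev ρ f).get (hs i)) := (Option.some_get _).symm
            have e2 : (c i).ev ρ₀ f = some (((c i).ev ρ₀ f).get (hs₀ i)) :=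
              (Option.some_get _).symm
            have e3 := Tc_ev 𝒯 f hft (c i) ρ ρ₀ fun j => by rw [hρ j, hρ₀ j]
            simp only at e3
            rw [oty_some e1, oty_some e2] at e3
            exact Option.some.inj e3
          rw [h0 _ hty x]
          have e4 : ∀ i, ∀ y, V (((c i).ev ρ f).get (hs i)) y =
              C' i y + ∑ j, ∑ y', M' i j y y' * oV V (ρ j) y' := fun i y =>
            h2 i ρ hρ _ (Option.some_get _).symm y
          have e5 : ∑ i, ∑ z, M₀ i x z * V (((c i).ev ρ f).get (hs i)) z =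
              ∑ i, ∑ z, M₀ i x z * C' i z +
              ∑ j, ∑ y, (∑ i, ∑ z, M₀ i x z * M' i j z y) * oV V (ρ j) y := by
            have e6 : ∀ i z, M₀ i x z * V (((c i).ev ρ f).get (hs i)) z =
                M₀ i x z * C' i z + ∑ j, ∑ y, M₀ i x z * M' i j z y * oV V (ρ j) y := by
              intro i z
              rw [e4 i z, mul_add, Finset.mul_sum]
              congr 1
              apply Finset.sum_congr rfl
              intro j _
              rw [Finset.mul_sum]
              apply Finset.sum_congr rfl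
              intro y _
              rw [mul_assoc]
            simp_rw [e6, Finset.sum_add_distrib]
            congr 1
            simp_rw [Finset.sum_mul]
            rw [Finset.sum_congr rfl fun i _ => Finset.sum_comm, Finset.sum_comm]
            apply Finset.sum_congr rfl
            intro j _
            rw [Finset.sum_congr rfl fun i _ => Finset.sum_comm, Finset.sum_comm]
          rw [e5, add_assoc]
        · rw [dif_neg hs] at ht
          exact absurd ht (by simp)
    · refine ⟨0, 0, fun _ _ => rfl, ?_⟩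
      intro ρ hρ t ht
      exfalso
      apply hex
      refine ⟨ρ, hρ, ?_⟩
      by_contra hs
      simp only [Tm.ev] at ht
      rw [dif_neg hs] at ht
      exact absurd ht (by simp)
  | call q i c ih =>
    intro θ
    by_cases hex : ∃ ρ₀ : Fin P → Option Tree, ∀ j, 𝒯.oty (ρ₀ j) = θ j
    · obtain ⟨ρ₀, hρ₀⟩ := hex
      obtain ⟨C₀, M₀, h0, h0'⟩ := hf i q fun l => 𝒯.oty ((c l).ev ρ₀ f)
      choose C' M' h1 h2 using fun l => ih l θ
      refine ⟨fun x => C₀ x + ∑ l, if ((c l).ev ρ₀ f).isSome then ∑ z, M₀ l x z * C' l z else 0,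
        fun j x y => ∑ l, if ((c l).ev ρ₀ f).isSome then ∑ z, M₀ l x z * M' l j z y else 0,
        ?_, ?_⟩
      · intro j hj
        have hj' : ∀ l, occ (f i q) l → ¬ occ (fun ρ => (c l).ev ρ f) j := by
          intro l hl hl'
          apply hj
          unfold occ at hl' ⊢
          simp only [Tm.ev]
          by_contra hne
          have hsome : (f i q fun l => (c l).ev (fun l => if l = j then none else some t0) f).isSome :=
            Option.ne_none_iff_isSome.1 hne
          have := ((hfc i q _).1 hsome).2 l hl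
          simp only at hl'
          rw [hl'] at this
          exact absurd this (by simp)
        funext x y
        apply Finset.sum_eq_zero
        intro l _
        split_ifs
        · apply Finset.sum_eq_zero
          intro z _
          by_cases hl : occ (f i q) l
          · rw [h1 l j (hj' l hl)]
            simp
          · rw [h0 l hl]
            simp
        · rfl
      · intro ρ hρ t ht x
        simp only [Tm.ev] at ht
        have hty : ∀ l, 𝒯.oty ((c l).ev ρ f) = 𝒯.oty ((c l).ev ρ₀ f) := by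
          intro l
          exact Tc_ev 𝒯 f hft (c l) ρ ρ₀ fun j => by rw [hρ j, hρ₀ j]
        rw [h0' _ hty t ht x]
        have e5 : ∀ l, ∑ z, M₀ l x z * oV V ((c l).ev ρ f) z =
            (if ((c l).ev ρ₀ f).isSome then ∑ z, M₀ l x z * C' l z else 0) +
            ∑ j, ∑ y, (if ((c l).ev ρ₀ f).isSome then ∑ z, M₀ l x z * M' l j z y else 0) *
              oV V (ρ j) y := by
          intro l
          by_cases hs : ((c l).ev ρ₀ f).isSome
          · have hs' := (isSome_of_oty (hty l)).2 hs
            simp only [hs, if_true]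
            have e1 : (c l).ev ρ f = some (((c l).ev ρ f).get hs') := (Option.some_get _).symm
            have e6 : ∀ z, M₀ l x z * oV V ((c l).ev ρ f) z =
                M₀ l x z * C' l z + ∑ j, ∑ y, M₀ l x z * M' l j z y * oV V (ρ j) y := by
              intro z
              rw [e1]
              show M₀ l x z * V _ z = _
              rw [h2 l ρ hρ _ e1 z, mul_add, Finset.mul_sum]
              congr 1
              apply Finset.sum_congr rfl
              intro j _
              rw [Finset.mul_sum]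
              apply Finset.sum_congr rfl
              intro y _
              rw [mul_assoc]
            simp_rw [e6, Finset.sum_add_distrib]
            congr 1
            simp_rw [Finset.sum_mul]
            rw [Finset.sum_comm]
            apply Finset.sum_congr rfl
            intro j _
            rw [Finset.sum_comm]
          · have hs' : ¬ ((c l).ev ρ f).isSome := fun h => hs ((isSome_of_oty (hty l)).1 h)
            have e1 : (c l).ev ρ f = none := Option.not_isSome_iff_eq_none.1 hs'
            simp only [hs, e1, oV]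
            simp
        simp_rw [e5, Finset.sum_add_distrib]
        rw [add_assoc]
        congr 2
        simp_rw [Finset.sum_mul]
        rw [Finset.sum_comm]
        apply Finset.sum_congr rfl
        intro j _
        rw [Finset.sum_comm]
    · refine ⟨0, 0, fun _ _ => rfl, ?_⟩
      intro ρ hρ
      exact absurd ⟨ρ, hρ⟩ hex

theorem Rp_run (hC : SpecConj) (hT : SpecTyc) (𝒯 : Typing) (V : Tree → Fin d → R) (hV : TA 𝒯 V)
    (T : PT n P) (v : Tree) : ∀ q, Rp 𝒯 V (T.run v q) := by
  induction v with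
  | node a r c ih =>
    intro q
    set f : ℕ → Fns n P := fun i q' ρ' => if h : i < r then T.run (c ⟨i, h⟩) q' ρ' else none
      with hfdef
    have hfp : ∀ i q' (h : i < r), f i q' = T.run (c ⟨i, h⟩) q' := by
      intro i q' h
      funext ρ'
      simp only [hfdef]
      rw [dif_pos h]
    have hfn : ∀ i q' (_ : ¬ i < r), f i q' = fun _ => none := by
      intro i q' h
      funext ρ'
      simp only [hfdef]
      rw [dif_neg h]
    have e : T.run (.node a r c) q = fun ρ => (T.rule q a).ev ρ f := by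
      funext ρ
      simp only [PT.run]
      rfl
    rw [e]
    apply Rp_ev 𝒯 V hV f
    · intro i q'
      by_cases h : i < r
      · rw [hfp i q' h]
        exact ih _ q'
      · rw [hfn i q' h]
        exact Rp_none 𝒯 V
    · intro i q'
      by_cases h : i < r
      · rw [hfp i q' h]
        exact hT.2.1 𝒯 n P T _ q'
      · rw [hfn i q' h]
        exact Tc_none 𝒯
    · intro i q'
      by_cases h : i < r
      · rw [hfp i q' h]
        exact hC.2 n P T _ q'
      · rw [hfn i q' h]
        intro ρ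
        simp

end REPM

open REPM in
theorem specRep (hC : SpecConj) (hT : SpecTyc) : SpecRep := by
  intro R _ d 𝒯 V hV n P T v q θ
  exact Rp_run hC hT 𝒯 V hV T v q θ

end Pool.Agent.Lib.MP_39893a_lc.AGL
end
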