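import Pool.Agent.Lib.MP_39893a_lc.AGL.Spec3
import Pool.Agent.Lib.MP_39893a_lc.AGL.REP

/-!
# Transducers without self-nesting are regular (MP_39893a_lc, AGL, module DM2)
-/

set_option autoImplicit false

namespace Pool.Agent.Lib.MP_39893a_lc.AGL

namespace DM2M

/-- No call. -/
def CallFree {n P : ℕ} : Tm n P → Prop
  | .bot => True
  | .par _ => True
  | .out _ _ c => ∀ i, CallFree (c i)
  | .call _ _ _ => False

/-- No function. -/
def F0 {n P : ℕ} : ℕ → Fns n P := fun _ _ _ => none

theorem ev_free {n P : ℕ} (ζ : Tm n P) (h : CallFree ζ) (ρ : Fin P → Option Tree)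
    (f f' : ℕ → Fns n P) : ζ.ev ρ f = ζ.ev ρ f' := by
  induction ζ with
  | bot => rfl
  | par j => rfl
  | out b r c ih =>
    have e : ∀ i, (c i).ev ρ f = (c i).ev ρ f' := fun i => ih i (h i)
    simp only [Tm.ev, e]
  | call q i c ih => exact absurd h (by simp [CallFree])

theorem free_subst {n P : ℕ} (ζ : Tm n P) (h : CallFree ζ) (σ : Fin P → Tm n P)
    (hσ : ∀ l, CallFree (σ l)) : CallFree (ζ.subst σ) := by
  induction ζ with
  | bot => trivial
  | par j => exact hσ j
  | out b r c ih => intro i; exact ih i (h i)
  | call q i c ih => exact absurd h (by simp [CallFree])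

theorem free_good {n P : ℕ} (𝒯 : Typing) (low : ℕ → Prop) (g : Fns n P) (ζ : Tm n P)
    (h : CallFree ζ) (e : ℕ) : Good 𝒯 low g ζ e := by
  induction ζ with
  | bot => trivial
  | par j => trivial
  | out b r c ih => intro i; exact ih i (h i)
  | call q i c ih => exact absurd h (by simp [CallFree])

theorem ofRhs_free {n P : ℕ} (F : ℕ → Fin n → Tm n P) (i : ℕ)
    (hF : ∀ j q, j ≠ i → CallFree (F j q)) (ζ : Rhs) (h : ζ.NoCall i) :
    CallFree ((ofRhs n P ζ).bind F) := by
  induction ζ with
  | param j =>
    rw [ofRhs]
    split
    · trivial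
    · trivial
  | out b r c ih => intro l; exact ih l (h l)
  | call q j m c ih =>
    rw [ofRhs]
    split
    · next hq =>
      refine free_subst _ (hF j _ h.1) _ fun l => ?_
      show CallFree (Tm.bind F (if h' : (l : ℕ) < m then ofRhs n P (c ⟨l, h'⟩) else .bot))
      split
      · next hl => exact ih _ (h.2 _)
      · trivial
    · trivial

theorem unfT_free {n P : ℕ} (T : PT n P) (v : Tree) : ∀ q, CallFree (T.unfT v q) := by
  have hbind : ∀ (F : ℕ → Fin n → Tm n P), (∀ j q, CallFree (F j q)) →
      ∀ ζ : Tm n P, CallFree (ζ.bind F) := by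
    intro F hF ζ
    induction ζ with
    | bot => trivial
    | par j => trivial
    | out b r c ih => intro i; exact ih i
    | call q i c ih => exact free_subst _ (hF i q) _ ih
  induction v with
  | node a r c ih =>
    intro q
    refine hbind _ (fun j q' => ?_) _
    split
    · exact ih _ _
    · trivial

theorem foldr_max_le (l : List ℕ) (q m : ℕ) (h : l[q]? = some m) : m ≤ l.foldr max 0 := by
  induction l generalizing q with
  | nil => simp at h
  | cons x l ih =>
    cases q with
    | zero =>
      simp only [List.getElem?_cons_zero, Option.some.injEq] at h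
      subst h
      exact le_max_left _ _
    | succ q =>
      simp only [List.getElem?_cons_succ] at h
      exact (ih q h).trans (le_max_right _ _)

theorem wf_sub (B Q : List ℕ) (m r : ℕ) (ξ ζ : Rhs) (h : Rhs.Sub ξ ζ) :
    ζ.WF B Q m r → ξ.WF B Q m r := by
  induction h with
  | refl => exact id
  | out b n c i _ ih => intro hw; exact ih (hw.2 i)
  | call q i n c l _ ih => intro hw; exact ih (hw.2.2 l)

section main

variable {A B : List ℕ} (M : DMTT A B) (s : Tree) (H : List ℕ)

theorem calls_valid (hs : Ranked A s) (u : List ℕ) (q : ℕ) (ρ : ℕ → Option Tree)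
    (h : M.Calls s u q ρ) : ∃ m, M.params[q]? = some m ∧ ∀ j, m ≤ j → ρ j = none := by
  induction h with
  | root => exact ⟨0, M.init, fun _ _ => rfl⟩
  | step u q ρ a r c ζ q' i n d _ hsub hrule hS hi ih =>
    obtain ⟨m, hm, hρ⟩ := ih
    have hA : A[a]? = some r := (AGRM.sub_ranked A s u _ hs hsub).1
    have hw := wf_sub B M.params m r _ _ hS (M.wf q m a r ζ hm hA hrule)
    refine ⟨n, hw.1, fun j hj => ?_⟩
    exact dif_neg (by omega)

/-- The calls on the hole in the term `ζ` at the node `w`, whose parameters are those of a call of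
the state `q` at `w`. -/
def Q (w : List ℕ) (q : ℕ) : Tm M.params.length M.maxPar → Prop
  | .bot => True
  | .par _ => True
  | .out _ _ c => ∀ i, Q w q (c i)
  | .call q' _ c => (∀ l, CallFree (c l)) ∧ ∀ ρ : ℕ → Option Tree, M.Calls s w q ρ →
      M.Calls s H q' fun l => if h : l < M.maxPar then (c ⟨l, h⟩).ev (fun j => ρ j) F0 else none

variable {M s H}

theorem free_Q (w : List ℕ) (q : ℕ) (ζ : Tm M.params.length M.maxPar) (h : CallFree ζ) :
    Q M s H w q ζ := by
  induction ζ with
  | bot => trivial
  | par j => trivial
  | out b r c ih => intro i; exact ih i (h i)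
  | call q i c ih => exact absurd h (by simp [CallFree])

theorem Q_subst_free (w : List ℕ) (q : ℕ) (η : Tm M.params.length M.maxPar) (h : CallFree η)
    (σ : Fin M.maxPar → Tm M.params.length M.maxPar) (hσ : ∀ l, Q M s H w q (σ l)) :
    Q M s H w q (η.subst σ) := by
  induction η with
  | bot => trivial
  | par j => exact hσ j
  | out b r c ih => intro i; exact ih i (h i)
  | call q i c ih => exact absurd h (by simp [CallFree])

theorem Q_subst_path (hB : SpecBind) (w w' : List ℕ) (q q' : ℕ)
    (σ : Fin M.maxPar → Tm M.params.length M.maxPar) (hσ : ∀ l, CallFree (σ l))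
    (hc : ∀ ρ : ℕ → Option Tree, M.Calls s w q ρ → M.Calls s w' q' fun l =>
      if h : l < M.maxPar then (σ ⟨l, h⟩).ev (fun j => ρ j) F0 else none)
    (η : Tm M.params.length M.maxPar) (h : Q M s H w' q' η) : Q M s H w q (η.subst σ) := by
  induction η with
  | bot => trivial
  | par j => exact free_Q w q _ (hσ j)
  | out b r c ih => intro i; exact ih i (h i)
  | call p i c ih =>
    refine ⟨fun l => free_subst _ (h.1 l) σ hσ, fun ρ hρ => ?_⟩
    have h1 := h.2 _ (hc ρ hρ)
    convert h1 using 1
    funext l
    split
    · next hl =>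
      rw [hB.1]
      congr 1
      funext j
      rw [dif_pos j.2]
    · rfl

/-- Right-hand sides and their terms have the same value. -/
theorem ofRhs_ev (hD : SpecDM1) {r : ℕ} (c : Fin r → Tree) (hc : ∀ i, Ranked A (c i)) (m : ℕ)
    (hmP : m ≤ M.maxPar) (ρ : ℕ → Option Tree) (ζ : Rhs) :
    ζ.WF B M.params m r →
    (ofRhs M.params.length M.maxPar ζ).ev (fun j => ρ j)
      (fun j q ρ' => if h : j < r then (ofDMTT M).run (c ⟨j, h⟩) q ρ' else none)
    = ζ.eval ρ fun j p ρ' => if h : j < r then M.run (c ⟨j, h⟩) p ρ' else none := by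
  induction ζ with
  | param j =>
    intro hw
    rw [ofRhs, Rhs.eval]
    have hj : j < m := hw
    rw [dif_pos (lt_of_lt_of_le hj hmP)]
    rfl
  | out b n d ih =>
    intro hw
    have e : ∀ i, (ofRhs M.params.length M.maxPar (d i)).ev (fun j => ρ j)
        (fun j q ρ' => if h : j < r then (ofDMTT M).run (c ⟨j, h⟩) q ρ' else none)
        = (d i).eval ρ fun j p ρ' => if h : j < r then M.run (c ⟨j, h⟩) p ρ' else none :=
      fun i => ih i (hw.2 i)
    simp only [ofRhs, Tm.ev, Rhs.eval, e]
  | call q i n d ih =>
    intro hw
    obtain ⟨hq, hi, hd⟩ := hw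
    have hql : q < M.params.length := (List.getElem?_eq_some_iff.1 hq).1
    rw [ofRhs, dif_pos hql, Tm.ev, Rhs.eval, dif_pos hi, dif_pos hi]
    rw [← (hD A B M).1 (c ⟨i, hi⟩) (hc _) q hql n hq]
    · congr 1
      funext l
      by_cases hl : (l : ℕ) < n
      · simp only [hl, dif_pos]
        exact ih _ (hd _)
      · simp only [hl, dif_neg, not_false_iff]
        rfl
    · intro j hj
      exact dif_neg (by omega)

theorem main (hB : SpecBind) (hD : SpecDM1) (hN : M.NonSelfNested) (hs : Ranked A s) (v : Tree)
    (K : Ctx) : ∀ (w : List ℕ) (q : Fin M.params.length), sub s w = some (plug K v) →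
      H = w ++ AGRM.addr K → Q M s H w q ((ofDMTT M).unfC K q) := by
  induction K with
  | hole =>
    intro w q _ hH
    have hH' : H = w := by rw [hH]; simp [AGRM.addr]
    subst hH'
    refine ⟨fun l => trivial, fun ρ hρ => ?_⟩
    obtain ⟨m, hm, hρm⟩ := calls_valid M s hs _ _ _ hρ
    have hmP : m ≤ M.maxPar := foldr_max_le _ _ _ hm
    convert hρ using 1
    funext l
    split
    · rfl
    · exact (hρm l (by omega)).symm
  | node a r i c K ih =>
    intro w q hw hH
    rw [plug] at hw
    have hRk := AGRM.sub_ranked A s w _ hs hw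
    have hA : A[a]? = some r := hRk.1
    have haA : a < A.length := (List.getElem?_eq_some_iff.1 hA).1
    have hcR : ∀ j, Ranked A (Function.update c i (plug K v) j) := hRk.2
    obtain ⟨m, hm⟩ : ∃ m, M.params[(q : ℕ)]? = some m :=
      ⟨_, List.getElem?_eq_getElem q.2⟩
    have hmP : m ≤ M.maxPar := foldr_max_le _ _ _ hm
    -- the functions for the children
    set F : ℕ → Fin M.params.length → Tm M.params.length M.maxPar := fun j q' =>
      if h : j < r then (if (⟨j, h⟩ : Fin r) = i then (ofDMTT M).unfC K q'
        else (ofDMTT M).unfT (c ⟨j, h⟩) q') else .bot with hFdef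
    have hFfree : ∀ (j : ℕ) (q' : Fin M.params.length), j ≠ (i : ℕ) → CallFree (F j q') := by
      intro j q' hj
      simp only [hFdef]
      split
      · next h =>
        rw [if_neg (fun he => hj (by rw [← he]))]
        exact unfT_free _ _ _
      · trivial
    have hFi : ∀ q' : Fin M.params.length, F i q' = (ofDMTT M).unfC K q' := by
      intro q'
      simp [hFdef]
    have hpath : ∀ q' : Fin M.params.length,
        Q M s H (w ++ [(i : ℕ)]) q' (F i q') := by
      intro q'
      rw [hFi]
      refine ih _ q' ?_ ?_
      · have := AGRM.sub_append s w i a r _ hw i.2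
        simpa using this
      · rw [hH, AGRM.addr]; simp
    -- value of a call-free argument
    have harg : ∀ (d : Rhs) (ρ : ℕ → Option Tree), d.NoCall i → d.WF B M.params m r →
        ((ofRhs M.params.length M.maxPar d).bind F).ev (fun j => ρ j) F0
          = d.eval ρ fun j p ρ' => if h : j < r then
              M.run (Function.update c i (plug K v) ⟨j, h⟩) p ρ' else none := by
      intro d ρ hd hwf
      rw [← ofRhs_ev hD _ hcR m hmP ρ d hwf, hB.2.1]
      -- both sides agree because there is no call on the child `i`
      have aux : ∀ d : Rhs, d.NoCall i →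
          (ofRhs M.params.length M.maxPar d).ev (fun j => ρ j)
            (fun j q' ρ' => (F j q').ev ρ' F0)
          = (ofRhs M.params.length M.maxPar d).ev (fun j => ρ j)
            (fun j q' ρ' => if h : j < r then
              (ofDMTT M).run (Function.update c i (plug K v) ⟨j, h⟩) q' ρ' else none) := by
        intro d
        induction d with
        | param j => intro _; rw [ofRhs]; split <;> rfl
        | out b n e ihe =>
          intro hd
          have e' := fun l => ihe l (hd l)
          simp only [ofRhs, Tm.ev, e']
        | call p j n e ihe =>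
          intro hd
          rw [ofRhs]
          split
          · next hp =>
            rw [Tm.ev, Tm.ev]
            have hargs : (fun l : Fin M.maxPar => (if h' : (l : ℕ) < n then
                ofRhs M.params.length M.maxPar (e ⟨l, h'⟩) else .bot).ev (fun j => ρ j)
                  (fun j q' ρ' => (F j q').ev ρ' F0))
                = (fun l : Fin M.maxPar => (if h' : (l : ℕ) < n then
                ofRhs M.params.length M.maxPar (e ⟨l, h'⟩) else .bot).ev (fun j => ρ j)
                  (fun j q' ρ' => if h : j < r then
              (ofDMTT M).run (Function.update c i (plug K v) ⟨j, h⟩) q' ρ' else none)) := by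
              funext l
              split
              · exact ihe _ (hd.2 _)
              · rfl
            rw [hargs]
            simp only [hFdef]
            split
            · next hj =>
              have hne : (⟨j, hj⟩ : Fin r) ≠ i := fun he => hd.1 (by rw [← he])
              rw [if_neg hne, Function.update_of_ne hne]
              exact hB.2.2.1 _ _ _ _ _ _ _
            · rfl
          · rfl
      exact aux d hd
    show Q M s H w q (((ofDMTT M).rule q a).bind F)
    have hrule : (ofDMTT M).rule q a = match M.rule q a with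
      | none => .bot
      | some ζ => ofRhs _ _ ζ := rfl
    rw [hrule]
    cases hr : M.rule q a with
    | none => trivial
    | some ζ =>
      have hNζ := hN q a ζ q.2 haA hr
      have hWζ := M.wf q m a r ζ hm hA hr
      have key : ∀ ξ : Rhs, Rhs.Sub ξ ζ → ξ.NonSelfNested → ξ.WF B M.params m r →
          Q M s H w q ((ofRhs M.params.length M.maxPar ξ).bind F) := by
        intro ξ
        induction ξ with
        | param j => intro _ _ _; rw [ofRhs]; split <;> trivial
        | out b n e ihe =>
          intro hS hNS hWF l
          exact ihe l (sub_trans (Rhs.Sub.out _ b n e l (Rhs.Sub.refl _)) hS) (hNS l) (hWF.2 l)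
        | call p j n e ihe =>
          intro hS hNS hWF
          have hpl : p < M.params.length := (List.getElem?_eq_some_iff.1 hWF.1).1
          have hnP : n ≤ M.maxPar := foldr_max_le _ _ _ hWF.1
          rw [ofRhs, dif_pos hpl, Tm.bind]
          have hσQ : ∀ l : Fin M.maxPar, Q M s H w q ((if h' : (l : ℕ) < n then
              ofRhs M.params.length M.maxPar (e ⟨l, h'⟩) else .bot).bind F) := by
            intro l
            split
            · exact ihe _ (sub_trans (Rhs.Sub.call _ p j n e _ (Rhs.Sub.refl _)) hS)
                (hNS _).2 (hWF.2.2 _)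
            · trivial
          by_cases hj : j = (i : ℕ)
          · subst hj
            refine Q_subst_path hB w (w ++ [(i : ℕ)]) q p _ (fun l => ?_) (fun ρ hρ => ?_) _
              (hpath ⟨p, hpl⟩)
            · split
              · exact ofRhs_free F i hFfree _ (hNS _).1
              · trivial
            · have hstep := DMTT.Calls.step (M := M) (s := s) w q ρ a r _ ζ p i n e hρ hw hr hS i.2
              convert hstep using 1
              funext l
              by_cases hl : l < n
              · have hlP : l < M.maxPar := by omega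
                simp only [hl, hlP, dif_pos]
                exact harg _ ρ (hNS _).1 (hWF.2.2 _)
              · by_cases hlP : l < M.maxPar
                · simp only [hl, hlP, dif_pos, dif_neg, not_false_iff]
                  rfl
                · simp only [hl, hlP, dif_neg, not_false_iff]
          · exact Q_subst_free w q _ (hFfree j _ hj) _ hσQ
      exact key ζ (Rhs.Sub.refl ζ) hNζ hWζ
where
  sub_trans {ξ η ζ : Rhs} (h1 : Rhs.Sub ξ η) (h2 : Rhs.Sub η ζ) : Rhs.Sub ξ ζ := by
    induction h2 with
    | refl => exact h1
    | out b n c i _ ih => exact Rhs.Sub.out _ b n c i ih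
    | call q i n c l _ ih => exact Rhs.Sub.call _ q i n c l ih

/-- Closing the parameters. -/
theorem good_of_Q (𝒯 : Typing) (low : ℕ → Prop) (g : Fns M.params.length M.maxPar)
    (hB : SpecBind)
    (hlow : ∀ (q : ℕ) (ρ : ℕ → Option Tree), M.Calls s H q ρ → ∀ (j : ℕ) (t : Tree),
      ρ j = some t → low (𝒯.ty t)) (hc : M.Calls s [] 0 fun _ => none)
    (η : Tm M.params.length M.maxPar) (h : Q M s H [] 0 η) :
    Good 𝒯 low g (η.subst fun _ => .bot) 1 := by
  induction η with
  | bot => trivial
  | par j => trivial
  | out b r c ih => intro i; exact ih i (h i)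
  | call p i c ih =>
    intro j _
    have hf : ∀ l : Fin M.maxPar, CallFree ((fun _ => .bot :
        Fin M.maxPar → Tm M.params.length M.maxPar) l) := fun _ => trivial
    refine ⟨free_good 𝒯 low g _ (free_subst _ (h.1 j) _ hf) 0, fun t ht => ?_⟩
    have h1 := h.2 _ hc
    refine hlow p _ h1 j t ?_
    rw [dif_pos j.2]
    rw [Tm.cl, hB.1] at ht
    rw [← ht]
    exact ev_free _ (h.1 j) _ _ _

end main

end DM2M

open DM2M in
theorem specDM2 (hB : SpecBind) (hD : SpecDM1) : SpecDM2 := by
  intro A B M hN 𝒯 low hlow K v hR _
  rw [PT.Z]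
  have hini : (ofDMTT M).ini = if h : 0 < M.params.length then
    .call ⟨0, h⟩ 0 fun _ => .bot else .bot := rfl
  rw [hini]
  split
  · next h =>
    have hQ := main (H := AGRM.addr K) hB hD hN hR v K [] ⟨0, h⟩
      (by cases hp : plug K v; rfl) rfl
    exact good_of_Q 𝒯 low _ hB (fun q ρ hρ => hlow _ hR _ q ρ hρ) DMTT.Calls.root _ hQ
  · trivial

end Pool.Agent.Lib.MP_39893a_lc.AGL
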