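import Pool.Agent.Lib.MP_39893a_lc.Iso

/-!
# Attribute grammars and term transducers: definitions (MP_39893a_lc, hive AGL)
-/

set_option autoImplicit false

namespace Pool.Agent.Lib.MP_39893a_lc.AGL

/-- Number of nodes on a longest path from the root to a leaf (a leaf has height `1`). -/
def ht : Tree → ℕ
  | .node _ r c => 1 + Finset.univ.sup fun i : Fin r => ht (c i)

/-- Number of nodes. -/
def size : Tree → ℕ
  | .node _ r c => 1 + ∑ i : Fin r, size (c i)

/-- The subtree at an address (children are counted from 0). -/
def sub : Tree → List ℕ → Option Tree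
  | s, [] => some s
  | .node _ r c, i :: u => if h : i < r then sub (c ⟨i, h⟩) u else none

/-! ## Attribute grammars -/

/-- Right-hand sides of the rules of an attribute grammar with `p` synthesized and `q` inherited
attributes, at a node `π`: the synthesized attribute `a` of the `i`-th child (from 0) of `π`, the
inherited attribute `b` of `π`, or an output symbol `f` with `r` subterms. -/
inductive ATm (p q : ℕ) : Type
  | syn (a : Fin p) (i : ℕ) : ATm p q
  | inh (b : Fin q) : ATm p q
  | out (f r : ℕ) (c : Fin r → ATm p q) : ATm p q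

/-- Well formed at a node with `r` children, over the output alphabet `B`. -/
def ATm.WF {p q : ℕ} (B : List ℕ) (r : ℕ) : ATm p q → Prop
  | .syn _ i => i < r
  | .inh _ => True
  | .out f n c => B[f]? = some n ∧ ∀ i, (c i).WF B r

/-- No inherited attribute occurs. -/
def ATm.NoInh {p q : ℕ} : ATm p q → Prop
  | .syn _ _ => True
  | .inh _ => False
  | .out _ _ c => ∀ i, (c i).NoInh

/-- An attribute grammar with input alphabet `A` and output alphabet `B` (lists of ranks), with
`p` synthesized and `q` inherited attributes. `syn σ a` is the rule of the synthesized attribute `a`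
at a node with the symbol `σ`, `inh σ i b` the rule of the inherited attribute `b` at the `i`-th child
of such a node, and `root b` the rule of `b` at the root of the input tree, where the synthesized
attribute `a` of the root is written `syn a 0` (the root is the only child of a virtual node).
The designated attribute is `a0`. -/
structure AG (A B : List ℕ) where
  p : ℕ
  q : ℕ
  a0 : Fin p
  syn : ℕ → Fin p → ATm p q
  inh : ℕ → ℕ → Fin q → ATm p q
  root : Fin q → ATm p q
  wf_syn : ∀ (σ r : ℕ) (a : Fin p), A[σ]? = some r → (syn σ a).WF B r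
  wf_inh : ∀ (σ r i : ℕ) (b : Fin q), A[σ]? = some r → i < r → (inh σ i b).WF B r
  wf_root : ∀ b : Fin q, (root b).WF B 1 ∧ (root b).NoInh

/-- The subtree at the address `u` below the virtual node: the address of the root of `s` is
`[0]`. -/
def nd (s : Tree) : List ℕ → Option Tree
  | 0 :: u => sub s u
  | _ => none

namespace AG

variable {A B : List ℕ} (G : AG A B)

/-- Values of the terms at the nodes of the input tree `s` (`Ev s u t v`: the value of `t` at the
address `u` is `v`). -/
inductive Ev (s : Tree) : List ℕ → ATm G.p G.q → Tree → Prop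
  | out (u : List ℕ) (f r : ℕ) (c : Fin r → ATm G.p G.q) (v : Fin r → Tree) :
      (∀ i, Ev s u (c i) (v i)) → Ev s u (.out f r c) (.node f r v)
  | syn (u : List ℕ) (a : Fin G.p) (i σ r : ℕ) (c : Fin r → Tree) (v : Tree) :
      nd s (u ++ [i]) = some (.node σ r c) → Ev s (u ++ [i]) (G.syn σ a) v →
      Ev s u (.syn a i) v
  | inh (u : List ℕ) (i : ℕ) (b : Fin G.q) (σ r : ℕ) (c : Fin r → Tree) (v : Tree) :
      nd s u = some (.node σ r c) → i < r → Ev s u (G.inh σ i b) v →
      Ev s (u ++ [i]) (.inh b) v
  | root (b : Fin G.q) (v : Tree) : Ev s [] (G.root b) v → Ev s [0] (.inh b) v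

/-- The transduction: `s` is sent to the value of `a0` at the root. -/
def Val (s t : Tree) : Prop := G.Ev s [] (.syn G.a0 0) t

/-- Attribute instances: an address and a synthesized or inherited attribute. -/
abbrev Inst : Type := List ℕ × (Fin G.p ⊕ Fin G.q)

/-- The instances in a right-hand side at the address `u`. -/
def leaves (u : List ℕ) : ATm G.p G.q → Set (List ℕ × (Fin G.p ⊕ Fin G.q))
  | .syn a i => {(u ++ [i], Sum.inl a)}
  | .inh b => {(u, Sum.inr b)}
  | .out _ _ c => ⋃ i, leaves u (c i)

/-- Dependencies between attribute instances on the input tree `s`: the rule of `x` contains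
`y`. -/
inductive Dep (s : Tree) : G.Inst → G.Inst → Prop
  | syn (u : List ℕ) (a : Fin G.p) (σ r : ℕ) (c : Fin r → Tree) (y : G.Inst) :
      nd s u = some (.node σ r c) → y ∈ G.leaves u (G.syn σ a) → Dep s (u, Sum.inl a) y
  | inh (u : List ℕ) (i : ℕ) (b : Fin G.q) (σ r : ℕ) (c : Fin r → Tree) (y : G.Inst) :
      nd s u = some (.node σ r c) → i < r → y ∈ G.leaves u (G.inh σ i b) →
      Dep s (u ++ [i], Sum.inr b) y
  | root (b : Fin G.q) (y : G.Inst) :
      y ∈ G.leaves [] (G.root b) → Dep s ([0], Sum.inr b) y

/-- Noncircular: the dependencies are acyclic on every input tree. -/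
def Noncircular : Prop :=
  ∀ s, Ranked A s → ∀ x : G.Inst, ¬ Relation.TransGen (G.Dep s) x x

/-- All values of inherited attributes, on all input trees, have Strahler number at most `k`. -/
def InhBound (k : ℕ) : Prop :=
  ∀ s, Ranked A s → ∀ (u : List ℕ) (b : Fin G.q) (t : Tree), G.Ev s u (.inh b) t → strahler t ≤ k

end AG

/-! ## Term transducers -/

/-- Terms with states `Fin n`, parameters `Fin P`: undefined, a parameter, an output symbol, or a
call of the state `q` on the `i`-th subtree. -/
inductive Tm (n P : ℕ) : Type
  | bot : Tm n P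
  | par (j : Fin P) : Tm n P
  | out (b r : ℕ) (c : Fin r → Tm n P) : Tm n P
  | call (q : Fin n) (i : ℕ) (c : Fin P → Tm n P) : Tm n P

/-- Functions of the parameters, for each state. -/
abbrev Fns (n P : ℕ) : Type := Fin n → (Fin P → Option Tree) → Option Tree

namespace Tm

variable {n P : ℕ}

/-- Value (by name). -/
def ev (ρ : Fin P → Option Tree) (f : ℕ → Fns n P) : Tm n P → Option Tree
  | .bot => none
  | .par j => ρ j
  | .out b r c =>
      if h : ∀ i, ((c i).ev ρ f).isSome then some (.node b r fun i => ((c i).ev ρ f).get (h i))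
      else none
  | .call q i c => f i q fun l => (c l).ev ρ f

/-- Substitution for the parameters. -/
def subst (σ : Fin P → Tm n P) : Tm n P → Tm n P
  | .bot => .bot
  | .par j => σ j
  | .out b r c => .out b r fun i => (c i).subst σ
  | .call q i c => .call q i fun l => (c l).subst σ

/-- Substitution of `F i q` for the call of `q` on the `i`-th subtree. -/
def bind (F : ℕ → Fin n → Tm n P) : Tm n P → Tm n P
  | .bot => .bot
  | .par j => .par j
  | .out b r c => .out b r fun i => (c i).bind F
  | .call q i c => (F i q).subst fun l => (c l).bind F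

/-- Value of a term without parameters whose calls are all on one subtree. -/
def cl (g : Fns n P) (ζ : Tm n P) : Option Tree := ζ.ev (fun _ => none) fun _ => g

/-- Ranks of the output symbols. -/
def Rk (B : List ℕ) : Tm n P → Prop
  | .bot => True
  | .par _ => True
  | .out b r c => B[b]? = some r ∧ ∀ i, (c i).Rk B
  | .call _ _ c => ∀ l, (c l).Rk B

end Tm

/-- A (partial, by name) term transducer with `n` states and `P` parameters. -/
structure PT (n P : ℕ) where
  rule : Fin n → ℕ → Tm n P
  ini : Tm n P

namespace PT

variable {n P : ℕ} (T : PT n P)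

/-- The function computed by the state `q` on a tree. -/
def run : Tree → Fns n P
  | .node a r c, q, ρ => (T.rule q a).ev ρ fun i q' ρ' =>
      if h : i < r then run (c ⟨i, h⟩) q' ρ' else none

/-- The partial function realised by the transducer. -/
def val (s : Tree) : Option Tree := T.ini.cl (T.run s)

/-- The output symbols of the rules have the ranks `B`. -/
def Rk (A B : List ℕ) : Prop := (∀ q a, a < A.length → (T.rule q a).Rk B) ∧ T.ini.Rk B

end PT

/-- Contexts: trees with one hole. In `node a r i c K` the `i`-th child is `K` (and `c i` is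
ignored). -/
inductive Ctx : Type
  | hole : Ctx
  | node (a r : ℕ) (i : Fin r) (c : Fin r → Tree) (K : Ctx) : Ctx

/-- The tree obtained by putting `v` in the hole. -/
def plug : Ctx → Tree → Tree
  | .hole, v => v
  | .node a r i c K, v => .node a r (Function.update c i (plug K v))

namespace PT

variable {n P : ℕ} (T : PT n P)

/-- The function of a state on a tree, as a term without calls. -/
def unfT : Tree → Fin n → Tm n P
  | .node a r c, q => (T.rule q a).bind fun i q' =>
      if h : i < r then unfT (c ⟨i, h⟩) q' else .bot

/-- The function of a state on a context, as a term whose calls are on the hole. -/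
def unfC : Ctx → Fin n → Tm n P
  | .hole, q => .call q 0 .par
  | .node a r i c K, q => (T.rule q a).bind fun j q' =>
      if h : j < r then (if (⟨j, h⟩ : Fin r) = i then unfC K q' else T.unfT (c ⟨j, h⟩) q')
      else .bot

/-- The result of the transducer on a context, as a term whose calls are on the hole. -/
def Z (K : Ctx) : Tm n P := T.ini.bind fun _ q => T.unfC K q

end PT

/-! ## Occurrences, types, used nesting -/

/-- A tree. -/
def t0 : Tree := .node 0 0 Fin.elim0

/-- The parameter `j` is needed. -/
def occ {P : ℕ} (g : (Fin P → Option Tree) → Option Tree) (j : Fin P) : Prop :=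
  g (fun l => if l = j then none else some t0) = none

/-- Definedness is a conjunction: `g ρ` is defined iff `g` is defined for defined parameters, and
all needed parameters are defined. -/
def Conj {P : ℕ} (g : (Fin P → Option Tree) → Option Tree) : Prop :=
  ∀ ρ, (g ρ).isSome ↔ (g fun _ => some t0).isSome ∧ ∀ j, occ g j → (ρ j).isSome

/-- A finite algebra of types. -/
structure Typing where
  ty : Tree → ℕ
  N : ℕ
  lt : ∀ t, ty t < N
  congr : ∀ (b r : ℕ) (c c' : Fin r → Tree), (∀ i, ty (c i) = ty (c' i)) →
    ty (.node b r c) = ty (.node b r c')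

/-- Type of an optional tree. -/
def Typing.oty (𝒯 : Typing) (o : Option Tree) : Option ℕ := o.map 𝒯.ty

/-- Two trees have the same type information. -/
def SameInfo {n P : ℕ} (𝒯 : Typing) (T : PT n P) (v v' : Tree) : Prop :=
  ∀ (q : Fin n) (ρ ρ' : Fin P → Option Tree), (∀ j, 𝒯.oty (ρ j) = 𝒯.oty (ρ' j)) →
    𝒯.oty (T.run v q ρ) = 𝒯.oty (T.run v' q ρ')

/-- In the term `ζ` without parameters, whose calls are on a subtree with the functions `g`, at most
`e` calls are nested in each other through needed arguments, and the values of the needed arguments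
have types satisfying `low`. -/
def Good {n P : ℕ} (𝒯 : Typing) (low : ℕ → Prop) (g : Fns n P) : Tm n P → ℕ → Prop
  | .bot, _ => True
  | .par _, _ => True
  | .out _ _ c, e => ∀ i, Good 𝒯 low g (c i) e
  | .call _ _ _, 0 => False
  | .call q _ c, e + 1 => ∀ j, occ (g q) j →
      Good 𝒯 low g (c j) e ∧ ∀ t, (c j).cl g = some t → low (𝒯.ty t)

/-- The condition on the transducer: used self-nesting at most `e`, parameters with types
satisfying `low`. -/
def Reg {n P : ℕ} (𝒯 : Typing) (low : ℕ → Prop) (A : List ℕ) (e : ℕ) (T : PT n P) : Prop :=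
  ∀ (K : Ctx) (v : Tree), Ranked A (plug K v) → (T.val (plug K v)).isSome →
    Good 𝒯 low (T.run v) (T.Z K) e

/-! ## Typed affine interpretations -/

/-- The value of a tree is an affine function of the values of the children, whose coefficients
depend only on the types of the children. -/
def TA {R : Type} [Ring R] {d : ℕ} (𝒯 : Typing) (V : Tree → Fin d → R) : Prop :=
  ∀ (b r : ℕ) (τ : Fin r → ℕ), ∃ (C : Fin d → R) (M : Fin r → Fin d → Fin d → R),
    ∀ c : Fin r → Tree, (∀ i, 𝒯.ty (c i) = τ i) →
      ∀ x, V (.node b r c) x = C x + ∑ i, ∑ y, M i x y * V (c i) y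

/-- Value of an optional tree. -/
def oV {R : Type} [Ring R] {d : ℕ} (V : Tree → Fin d → R) : Option Tree → Fin d → R
  | none, _ => 0
  | some t, x => V t x

/-- The free algebra over `S` on the letters `L`. -/
abbrev FA (S L : Type) [CommRing S] : Type := MonoidAlgebra S (FreeMonoid L)

/-- The coefficients of the generic interpretation. -/
abbrev GS : Type := MvPolynomial (ℕ × ℕ ⊕ ℕ × ℕ × ℕ × ℕ) ℤ

/-- The generic interpretation. -/
noncomputable def gen : Interp GS :=
  ⟨fun b x => MvPolynomial.X (Sum.inl (b, x)), fun b i x y => MvPolynomial.X (Sum.inr (b, i, x, y))⟩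

/-- The generic affine value in dimension `d`. -/
noncomputable def gw (d : ℕ) (t : Tree) (x : Fin d) : GS := W d gen t x

/-- Types: the Strahler number, truncated at `k + 1`. -/
def sty (k : ℕ) (t : Tree) : ℕ := min (strahler t) (k + 1)

/-- The encoding: trees of Strahler number at most `k` by their generic affine value in dimension
`k + 1`, other trees `b(t_1,..,t_r)` by `∑ (b,r,i) * enc t_i`, where `(b,r,i)` is a letter. -/
noncomputable def enc (k : ℕ) : Tree → Fin (k + 1) → FA GS (ℕ × ℕ × ℕ)
  | .node b r c, x =>
    if strahler (.node b r c) ≤ k then algebraMap GS _ (gw (k + 1) (.node b r c) x)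
    else ∑ i : Fin r, MonoidAlgebra.single (FreeMonoid.of (b, r, (i : ℕ))) (1 : GS) * enc k (c i) x

/-! ## Numbers -/

/-- Bound for the number of type informations. -/
def nI (N n P : ℕ) : ℕ := (N + 1) ^ (n * (N + 1) ^ P)

/-- Number of entries. -/
def nE (N n P d : ℕ) : ℕ := n * (N + 1) ^ P * (d + P * (d * d))

/-- Number of monomials of degree `e`. -/
def nM (N n P d e : ℕ) : ℕ := (nE N n P d + 1) ^ e

/-- The height bound. -/
def bound (N d n₁ P₁ n₂ P₂ e₁ e₂ : ℕ) : ℕ :=
  nI N n₁ P₁ * nI N n₂ P₂ * (nM N n₁ P₁ d e₁ + nM N n₂ P₂ d e₂)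

/-! ## The transducer of an attribute grammar -/

/-- A right-hand side as a term; the arguments of the call on the child `i` are `E i`. -/
def conv {p q : ℕ} (E : ℕ → Fin q → Tm p q) : ATm p q → Tm p q
  | .syn a i => .call a i (E i)
  | .inh b => .par b
  | .out f r c => .out f r fun i => conv E (c i)

namespace AG

variable {A B : List ℕ} (G : AG A B)

/-- The inherited attribute `b` of the child `i` of a node with symbol `σ`, unrolled `f` times. -/
def inhT (σ : ℕ) : ℕ → ℕ → Fin G.q → Tm G.p G.q
  | 0, _, _ => .bot
  | f + 1, i, b => conv (inhT σ f) (G.inh σ i b)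

/-- The inherited attribute `b` of the root, unrolled `f` times. -/
def rootT : ℕ → ℕ → Fin G.q → Tm G.p G.q
  | 0, _, _ => .bot
  | f + 1, _, b => conv (rootT f) (G.root b)

/-- Enough unrollings at a node with symbol `σ`. -/
def fuel (σ : ℕ) : ℕ := A.getD σ 0 * G.q + 1

/-- The transducer of an attribute grammar: the states are the synthesized attributes, the
parameters the inherited ones. -/
def toPT : PT G.p G.q where
  rule a σ := conv (G.inhT σ (G.fuel σ)) (G.syn σ a)
  ini := .call G.a0 0 (G.rootT (G.q + 1) 0)

end AG

end Pool.Agent.Lib.MP_39893a_lc.AGL
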