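import Pool.Agent.Lib.MP_39893a_lc.AGL.Spec
import Pool.Agent.Lib.MP_39893a_lc.AGL.REP

section
/-!
# Triangular systems over a free algebra (MP_39893a_lc, hive AGL, module TRI)

A free algebra over a domain on finitely many letters embeds into the monoid algebra of the monoid
of the affine maps `x ↦ B ^ n * x + m` (`B` at least the number of letters; a word is sent to its
length and its value in base `B`). This monoid is ordered, so its algebra is a domain, and it
has boxes `n < K`, `m < Q` with relatively small boundary, so systems of `M` linear equations in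
more than `M` unknowns (coefficients on the right) have nonzero solutions.
-/
set_option autoImplicit false

namespace Pool.Agent.Lib.MP_39893a_lc.AGL.TRIM

open Finset

/-- The affine map `x ↦ (b + 2) ^ n * x + m`. -/
@[ext] structure Aff (b : ℕ) : Type where
  n : ℕ
  m : ℕ

namespace Aff

variable {b : ℕ}

instance : Mul (Aff b) := ⟨fun x y => ⟨x.n + y.n, x.m + (b + 2) ^ x.n * y.m⟩⟩
instance : One (Aff b) := ⟨⟨0, 0⟩⟩

@[simp] lemma mul_n (x y : Aff b) : (x * y).n = x.n + y.n := rfl
@[simp] lemma mul_m (x y : Aff b) : (x * y).m = x.m + (b + 2) ^ x.n * y.m := rfl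
@[simp] lemma one_n : (1 : Aff b).n = 0 := rfl
@[simp] lemma one_m : (1 : Aff b).m = 0 := rfl

instance : Monoid (Aff b) where
  mul_assoc x y z := by
    ext
    · simp [add_assoc]
    · simp [pow_add, mul_add, mul_assoc, add_assoc]
  one_mul x := by ext <;> simp
  mul_one x := by ext <;> simp

/-- The lexicographic order. -/
def key (x : Aff b) : ℕ ×ₗ ℕ := toLex (x.n, x.m)

lemma key_injective : Function.Injective (key : Aff b → ℕ ×ₗ ℕ) := by
  intro x y h
  have h' := congrArg ofLex h
  simp only [key, ofLex_toLex, Prod.mk.injEq] at h'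
  exact Aff.ext h'.1 h'.2

noncomputable instance : LinearOrder (Aff b) := LinearOrder.lift' key key_injective

lemma lt_iff (x y : Aff b) : x < y ↔ x.n < y.n ∨ (x.n = y.n ∧ x.m < y.m) := by
  change key x < key y ↔ _
  rw [key, key, Prod.Lex.toLex_lt_toLex]

instance : IsRightCancelMul (Aff b) where
  mul_right_cancel x y z h := by
    have h1 := congrArg Aff.n h
    have h2 := congrArg Aff.m h
    simp only [mul_n, mul_m] at h1 h2
    have h3 : y.n = z.n := by omega
    rw [h3] at h2
    exact Aff.ext h3 (by omega)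

instance : MulLeftStrictMono (Aff b) where
  elim x y z h' := by
    have h : y < z := h'
    rw [lt_iff] at h
    change x * y < x * z
    rw [lt_iff]
    rcases h with h | ⟨h, h''⟩
    · left; simp only [mul_n]; omega
    · right
      refine ⟨by simp only [mul_n]; omega, ?_⟩
      simp only [mul_m]
      have := Nat.mul_lt_mul_of_pos_left h'' (pow_pos (show 0 < b + 2 by omega) x.n)
      omega

end Aff

/-- The homomorphism from words to affine maps. -/
def wd {L : Type} {b : ℕ} (φ : L → ℕ) : FreeMonoid L →* Aff b := FreeMonoid.lift fun a => ⟨1, φ a⟩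

lemma wd_n {L : Type} {b : ℕ} (φ : L → ℕ) (u : List L) :
    (wd (b := b) φ (FreeMonoid.ofList u)).n = u.length := by
  induction u with
  | nil => simp [wd]
  | cons a u ih =>
    rw [FreeMonoid.ofList_cons, map_mul, Aff.mul_n, ih]
    simp [wd, add_comm]

lemma wd_m {L : Type} {b : ℕ} (φ : L → ℕ) (u : List L) :
    (wd (b := b) φ (FreeMonoid.ofList u)).m = Nat.ofDigits (b + 2) (u.map φ) := by
  induction u with
  | nil => simp [wd]
  | cons a u ih =>
    rw [FreeMonoid.ofList_cons, map_mul, Aff.mul_m, ih]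
    simp [wd, Nat.ofDigits_cons]

lemma wd_inj {L : Type} {b : ℕ} (φ : L → ℕ) (Λ : Finset L) (h1 : ∀ a ∈ Λ, φ a < b + 2)
    (h2 : Set.InjOn φ Λ) :
    Set.InjOn (wd (b := b) φ) {u : FreeMonoid L | ∀ a ∈ FreeMonoid.toList u, a ∈ Λ} := by
  intro u hu v hv h
  have e1 := congrArg Aff.n h
  have e2 := congrArg Aff.m h
  rw [← FreeMonoid.ofList_toList u, ← FreeMonoid.ofList_toList v] at e1 e2
  rw [wd_n, wd_n] at e1
  rw [wd_m, wd_m] at e2
  have e3 := Nat.ofDigits_inj_of_len_eq (b := b + 2) (by omega) (by simpa using e1)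
    (fun l hl => by
      obtain ⟨a, ha, rfl⟩ := List.mem_map.1 hl
      exact h1 a (hu a ha))
    (fun l hl => by
      obtain ⟨a, ha, rfl⟩ := List.mem_map.1 hl
      exact h1 a (hv a ha)) e2
  have e4 : FreeMonoid.toList u = FreeMonoid.toList v := by
    clear e1 e2 h
    revert e3
    generalize hu' : FreeMonoid.toList u = lu
    generalize hv' : FreeMonoid.toList v = lv
    have hu2 : ∀ a ∈ lu, a ∈ Λ := by rw [← hu']; exact hu
    have hv2 : ∀ a ∈ lv, a ∈ Λ := by rw [← hv']; exact hv
    clear hu' hv' hu hv u v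
    intro e3
    induction lu generalizing lv with
    | nil =>
      cases lv with
      | nil => rfl
      | cons a lv => simp at e3
    | cons a lu ih =>
      cases lv with
      | nil => simp at e3
      | cons a' lv =>
        simp only [List.map_cons, List.cons.injEq] at e3
        have ha : a = a' := h2 (hu2 a (by simp)) (hv2 a' (by simp)) e3.1
        rw [ha, ih lv (fun x hx => hu2 x (by simp [hx])) (fun x hx => hv2 x (by simp [hx])) e3.2]
  exact FreeMonoid.toList.injective e4

/-- The letters of the words in the support. -/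
noncomputable def letters {S L : Type} [CommRing S] (r : FA S L) : Finset L := by
  classical
  exact r.coeff.support.biUnion fun u => (FreeMonoid.toList u).toFinset

lemma mem_letters {S L : Type} [CommRing S] (r : FA S L) (u : FreeMonoid L)
    (hu : u ∈ r.coeff.support) (a : L) (ha : a ∈ FreeMonoid.toList u) : a ∈ letters r := by
  classical
  simp only [letters, Finset.mem_biUnion, List.mem_toFinset]
  exact ⟨u, hu, ha⟩

lemma map_ne_zero {S L : Type} [CommRing S] {b : ℕ} (φ : L → ℕ) (Λ : Finset L)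
    (h1 : ∀ a ∈ Λ, φ a < b + 2) (h2 : Set.InjOn φ Λ) (r : FA S L) (hr : r ≠ 0)
    (hΛ : ∀ u ∈ r.coeff.support, ∀ a ∈ FreeMonoid.toList u, a ∈ Λ) :
    MonoidAlgebra.mapDomainRingHom S (wd (b := b) φ) r ≠ 0 := by
  intro h
  apply hr
  have key := Finsupp.mapDomain_injOn (M := S)
    {u : FreeMonoid L | ∀ a ∈ FreeMonoid.toList u, a ∈ Λ} (wd_inj (b := b) φ Λ h1 h2)
  have : r.coeff = 0 := by
    apply key
    · intro u hu
      exact hΛ u hu
    · simp
    · have h' := congrArg MonoidAlgebra.coeff h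
      simpa [MonoidAlgebra.mapDomainRingHom, MonoidAlgebra.mapDomain] using h'
  exact MonoidAlgebra.coeff_eq_zero.1 this

/-! ## More unknowns than equations -/

section Kernel

variable {S : Type} [CommRing S] {b : ℕ}

/-- The element with the coefficients `c` in the box. -/
noncomputable def box (b : ℕ) {n K Q : ℕ} (c : Fin n × Fin K × Fin Q → S) (i : Fin n) :
    MonoidAlgebra S (Aff b) :=
  ∑ k : Fin K, ∑ q : Fin Q, MonoidAlgebra.single ⟨(k : ℕ), (q : ℕ)⟩ (c (i, k, q))

lemma box_add {n K Q : ℕ} (c c' : Fin n × Fin K × Fin Q → S) (i : Fin n) :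
    box b (c + c') i = box b c i + box b c' i := by
  simp [box, MonoidAlgebra.single_add, Finset.sum_add_distrib]

lemma box_smul {n K Q : ℕ} (s : S) (c : Fin n × Fin K × Fin Q → S) (i : Fin n) :
    box b (s • c) i = s • box b c i := by
  simp only [box, Pi.smul_apply, Finset.smul_sum, MonoidAlgebra.smul_single]

lemma box_coeff {n K Q : ℕ} (c : Fin n × Fin K × Fin Q → S) (i : Fin n) (k : Fin K) (q : Fin Q) :
    (box b c i).coeff ⟨(k : ℕ), (q : ℕ)⟩ = c (i, k, q) := by
  classical
  simp only [box, MonoidAlgebra.coeff_sum, MonoidAlgebra.coeff_single, Finsupp.finsetSum_apply,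
    Finsupp.single_apply, Aff.mk.injEq]
  rw [Finset.sum_eq_single k, Finset.sum_eq_single q]
  · simp
  · intro q' _ hq'
    rw [if_neg]
    rintro ⟨_, h⟩
    exact hq' (Fin.ext h)
  · simp
  · intro k' _ hk'
    apply Finset.sum_eq_zero
    intro q' _
    rw [if_neg]
    rintro ⟨h, _⟩
    exact hk' (Fin.ext h)
  · simp

lemma box_support {n K Q : ℕ} (c : Fin n × Fin K × Fin Q → S) (i : Fin n) (g : Aff b)
    (hg : g ∈ (box b c i).coeff.support) : g.n < K ∧ g.m < Q := by
  classical
  rw [Finsupp.mem_support_iff] at hg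
  by_contra h
  apply hg
  simp only [box, MonoidAlgebra.coeff_sum, MonoidAlgebra.coeff_single, Finsupp.finsetSum_apply,
    Finsupp.single_apply]
  apply Finset.sum_eq_zero
  intro k _
  apply Finset.sum_eq_zero
  intro q _
  rw [if_neg]
  rintro rfl
  exact h ⟨k.2, q.2⟩

/-- The equations. -/
noncomputable def eqs {n M K Q K' Q' : ℕ} (l : Fin n → Fin M → MonoidAlgebra S (Aff b)) :
    (Fin n × Fin K × Fin Q → S) →ₗ[S] (Fin M × Fin K' × Fin Q' → S) where
  toFun c y := (∑ i, box b c i * l i y.1).coeff ⟨(y.2.1 : ℕ), (y.2.2 : ℕ)⟩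
  map_add' c c' := by
    funext y
    simp only [box_add, add_mul, Finset.sum_add_distrib, MonoidAlgebra.coeff_add,
      Finsupp.add_apply, Pi.add_apply]
  map_smul' s c := by
    funext y
    simp only [box_smul, smul_mul_assoc, ← Finset.smul_sum, MonoidAlgebra.coeff_smul_apply,
      Pi.smul_apply, RingHom.id_apply]

lemma exists_kernel [IsDomain S] {n M : ℕ} (h : M < n)
    (l : Fin n → Fin M → MonoidAlgebra S (Aff b)) :
    ∃ C : Fin n → MonoidAlgebra S (Aff b), (∃ i, C i ≠ 0) ∧ ∀ x, ∑ i, C i * l i x = 0 := by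
  classical
  -- bounds for the supports
  obtain ⟨E, hE⟩ : ∃ E : ℕ, ∀ i x, ∀ g ∈ (l i x).coeff.support, g.n ≤ E :=
    ⟨Finset.univ.sup fun i => Finset.univ.sup fun x => (l i x).coeff.support.sup Aff.n,
      fun i x g hg => by
        calc g.n ≤ (l i x).coeff.support.sup Aff.n := Finset.le_sup (f := Aff.n) hg
          _ ≤ Finset.univ.sup fun x => (l i x).coeff.support.sup Aff.n :=
              Finset.le_sup (f := fun x => (l i x).coeff.support.sup Aff.n) (Finset.mem_univ x)
          _ ≤ _ := Finset.le_sup (f := fun i => Finset.univ.sup fun x =>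
              (l i x).coeff.support.sup Aff.n) (Finset.mem_univ i)⟩
  obtain ⟨F, hF⟩ : ∃ F : ℕ, ∀ i x, ∀ g ∈ (l i x).coeff.support, g.m ≤ F :=
    ⟨Finset.univ.sup fun i => Finset.univ.sup fun x => (l i x).coeff.support.sup Aff.m,
      fun i x g hg => by
        calc g.m ≤ (l i x).coeff.support.sup Aff.m := Finset.le_sup (f := Aff.m) hg
          _ ≤ Finset.univ.sup fun x => (l i x).coeff.support.sup Aff.m :=
              Finset.le_sup (f := fun x => (l i x).coeff.support.sup Aff.m) (Finset.mem_univ x)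
          _ ≤ _ := Finset.le_sup (f := fun i => Finset.univ.sup fun x =>
              (l i x).coeff.support.sup Aff.m) (Finset.mem_univ i)⟩
  obtain ⟨K, hK⟩ : ∃ K, K = M * E + 1 := ⟨_, rfl⟩
  obtain ⟨W, hW⟩ : ∃ W, W = (b + 2) ^ K * F := ⟨_, rfl⟩
  obtain ⟨Q, hQ⟩ : ∃ Q, Q = M * (K + E) * W + 1 := ⟨_, rfl⟩
  have hcard : M * ((K + E) * (Q + W)) < n * (K * Q) := by
    have h1 : (M + 1) * (K * Q) ≤ n * (K * Q) := Nat.mul_le_mul_right _ h
    have h2 : (M + 1) * (K * Q) = M * ((K + E) * Q) + Q := by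
      have : (M + 1) * K = M * (K + E) + 1 := by rw [hK]; ring
      calc (M + 1) * (K * Q) = ((M + 1) * K) * Q := by ring
        _ = (M * (K + E) + 1) * Q := by rw [this]
        _ = _ := by ring
    have h3 : M * ((K + E) * (Q + W)) = M * ((K + E) * Q) + M * (K + E) * W := by ring
    omega
  have hker : ∃ c : Fin n × Fin K × Fin Q → S, c ≠ 0 ∧
      eqs (K' := K + E) (Q' := Q + W) l c = 0 := by
    by_contra hcon
    push Not at hcon
    have hinj : Function.Injective (eqs (K := K) (Q := Q) (K' := K + E) (Q' := Q + W) l) := by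
      rw [injective_iff_map_eq_zero]
      intro c hc
      by_contra h0
      exact hcon c h0 hc
    have := card_le_of_injective S _ hinj
    simp only [Fintype.card_prod, Fintype.card_fin] at this
    omega
  obtain ⟨c, hc, hc'⟩ := hker
  refine ⟨box b c, ?_, ?_⟩
  · by_contra hcon
    push Not at hcon
    apply hc
    funext ⟨i, k, q⟩
    rw [← box_coeff (b := b) c i k q, hcon i]
    simp
  · intro x
    ext g
    by_cases hg : g.n < K + E ∧ g.m < Q + W
    · have := congrFun hc' (x, ⟨g.n, hg.1⟩, ⟨g.m, hg.2⟩)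
      simpa [eqs] using this
    · rw [MonoidAlgebra.coeff_sum, Finsupp.finsetSum_apply]
      simp only [MonoidAlgebra.coeff_zero, Finsupp.zero_apply]
      apply Finset.sum_eq_zero
      intro i _
      by_contra h0
      have h1 := MonoidAlgebra.support_coeff_mul_subset _ _ (Finsupp.mem_support_iff.2 h0)
      obtain ⟨u, hu, v, hv, rfl⟩ := Finset.mem_mul.1 h1
      obtain ⟨h2, h3⟩ := box_support c i u hu
      have h4 := hE i x v hv
      have h5 := hF i x v hv
      apply hg
      refine ⟨by simp only [Aff.mul_n]; omega, ?_⟩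
      simp only [Aff.mul_m]
      have h6 : (b + 2) ^ u.n * v.m ≤ W := by
        rw [hW]
        exact Nat.mul_le_mul (Nat.pow_le_pow_right (by omega) h2.le) h5
      omega

end Kernel

end Pool.Agent.Lib.MP_39893a_lc.AGL.TRIM

namespace Pool.Agent.Lib.MP_39893a_lc.AGL

open TRIM in
/-- Module TRI. -/
theorem specTri : SpecTri := by
  classical
  intro S _ _ L _ M n l m hlt hdiag
  by_contra hMn
  push Not at hMn
  -- the letters that occur
  obtain ⟨Λ, hΛ⟩ : ∃ Λ : Finset L, Λ = Finset.univ.biUnion fun i =>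
      letters (∑ x, l i x * m i x) := ⟨_, rfl⟩
  obtain ⟨φ, hφ1, hφ2⟩ : ∃ φ : L → ℕ, (∀ a ∈ Λ, φ a < Λ.card + 2) ∧ Set.InjOn φ Λ := by
    refine ⟨fun a => if h : a ∈ Λ then (Λ.equivFin ⟨a, h⟩ : ℕ) else 0, ?_, ?_⟩
    · intro a ha
      simp only [ha, dif_pos]
      have := (Λ.equivFin ⟨a, ha⟩).2
      omega
    · intro a ha a' ha' h
      have ha1 : a ∈ Λ := ha
      have ha2 : a' ∈ Λ := ha'
      simp only [ha1, ha2, dif_pos] at h
      have := Λ.equivFin.injective (Fin.ext h)
      simpa using this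
  obtain ⟨C, ⟨i0, hi0⟩, hC⟩ := exists_kernel (b := Λ.card) hMn
    fun i x => MonoidAlgebra.mapDomainRingHom S (wd (b := Λ.card) φ) (l i x)
  have hne : (Finset.univ.filter fun i => C i ≠ 0).Nonempty := ⟨i0, by simp [hi0]⟩
  obtain ⟨j, hj, hjmax⟩ : ∃ j, C j ≠ 0 ∧ ∀ i, j < i → C i = 0 := by
    refine ⟨(Finset.univ.filter fun i => C i ≠ 0).max' hne, ?_, ?_⟩
    · exact (Finset.mem_filter.1 (Finset.max'_mem _ hne)).2
    · intro i hi
      by_contra h
      exact absurd (Finset.le_max' (Finset.univ.filter fun i => C i ≠ 0) i (by simp [h]))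
        (not_le.2 hi)
  have h0 : C j * MonoidAlgebra.mapDomainRingHom S (wd (b := Λ.card) φ) (∑ x, l j x * m j x)
      = 0 := by
    have h1 : ∑ x, (∑ i, C i * MonoidAlgebra.mapDomainRingHom S (wd (b := Λ.card) φ) (l i x)) *
        MonoidAlgebra.mapDomainRingHom S (wd (b := Λ.card) φ) (m j x) = 0 := by
      apply Finset.sum_eq_zero
      intro x _
      rw [hC x, zero_mul]
    have h2 : ∑ x, (∑ i, C i * MonoidAlgebra.mapDomainRingHom S (wd (b := Λ.card) φ) (l i x)) *
        MonoidAlgebra.mapDomainRingHom S (wd (b := Λ.card) φ) (m j x) =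
        ∑ i, C i * MonoidAlgebra.mapDomainRingHom S (wd (b := Λ.card) φ)
          (∑ x, l i x * m j x) := by
      simp only [Finset.sum_mul, map_sum, map_mul, Finset.mul_sum, mul_assoc]
      rw [Finset.sum_comm]
    rw [h2, Finset.sum_eq_single j] at h1
    · exact h1
    · intro i _ hij
      rcases lt_or_gt_of_ne hij with h | h
      · rw [hlt i j h, map_zero, mul_zero]
      · rw [hjmax i h, zero_mul]
    · simp
  rcases mul_eq_zero.1 h0 with h | h
  · exact hj h
  · refine map_ne_zero (b := Λ.card) φ Λ hφ1 hφ2 _ (hdiag j) ?_ h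
    intro u hu a ha
    rw [hΛ]
    exact Finset.mem_biUnion.2 ⟨j, Finset.mem_univ j, mem_letters _ u hu a ha⟩

end Pool.Agent.Lib.MP_39893a_lc.AGL
end

section
/-!
# Module TYC: types are a congruence
-/
set_option autoImplicit false

namespace Pool.Agent.Lib.MP_39893a_lc.AGL

namespace TYCM

theorem isSome_oty (𝒯 : Typing) (o : Option Tree) : (𝒯.oty o).isSome = o.isSome := by
  cases o <;> rfl

theorem isSome_of {𝒯 : Typing} {o o' : Option Tree} (h : 𝒯.oty o = 𝒯.oty o') :
    o.isSome = o'.isSome := by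
  rw [← isSome_oty 𝒯 o, h, isSome_oty]

theorem ty_get {𝒯 : Typing} {o o' : Option Tree} (h : 𝒯.oty o = 𝒯.oty o') (ho : o.isSome)
    (ho' : o'.isSome) : 𝒯.ty (o.get ho) = 𝒯.ty (o'.get ho') := by
  cases o with
  | none => simp at ho
  | some t =>
    cases o' with
    | none => simp at ho'
    | some t' => simpa [Typing.oty] using h

theorem ev_congr (𝒯 : Typing) (n P : ℕ) (f f' : ℕ → Fns n P) (ζ : Tm n P)
    (ρ ρ' : Fin P → Option Tree)
    (hf : ∀ i q ρ ρ', (∀ j, 𝒯.oty (ρ j) = 𝒯.oty (ρ' j)) → 𝒯.oty (f i q ρ) = 𝒯.oty (f' i q ρ'))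
    (hρ : ∀ j, 𝒯.oty (ρ j) = 𝒯.oty (ρ' j)) :
    𝒯.oty (ζ.ev ρ f) = 𝒯.oty (ζ.ev ρ' f') := by
  induction ζ with
  | bot => rfl
  | par j => exact hρ j
  | out b r c ih =>
    have hi : ∀ i, ((c i).ev ρ f).isSome = ((c i).ev ρ' f').isSome := fun i => isSome_of (ih i)
    by_cases h : ∀ i, ((c i).ev ρ f).isSome
    · have h' : ∀ i, ((c i).ev ρ' f').isSome := fun i => by rw [← hi i]; exact h i
      simp only [Tm.ev, dif_pos h, dif_pos h']
      simp only [Typing.oty, Option.map_some]
      congr 1
      exact 𝒯.congr b r _ _ fun i => ty_get (ih i) (h i) (h' i)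
    · have h' : ¬ ∀ i, ((c i).ev ρ' f').isSome := fun h' => h fun i => by rw [hi i]; exact h' i
      simp only [Tm.ev, dif_neg h, dif_neg h']
  | call q i c ih => exact hf i q _ _ ih

theorem run_congr (𝒯 : Typing) (n P : ℕ) (T : PT n P) (v : Tree) : SameInfo 𝒯 T v v := by
  induction v with
  | node a r c ih =>
    intro q ρ ρ' h
    rw [PT.run, PT.run]
    refine ev_congr 𝒯 n P _ _ _ _ _ ?_ h
    intro i q' σ σ' hσ
    by_cases hi : i < r
    · simp only [dif_pos hi]
      exact ih ⟨i, hi⟩ q' σ σ' hσ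
    · simp only [dif_neg hi]

end TYCM

open TYCM in
theorem specTyc : SpecTyc := by
  refine ⟨fun 𝒯 n P g g' ζ ρ ρ' hg hρ => ev_congr 𝒯 n P _ _ ζ ρ ρ' (fun _ => hg) hρ,
    run_congr, ?_⟩
  intro 𝒯 n P T v v' h q j
  have h1 := isSome_of (h q (fun l => if l = j then none else some t0)
    (fun l => if l = j then none else some t0) fun _ => rfl)
  unfold occ
  rw [← Option.not_isSome_iff_eq_none, ← Option.not_isSome_iff_eq_none, h1]

end Pool.Agent.Lib.MP_39893a_lc.AGL
end

section
/-!
# Assembly (MP_39893a_lc, hive AGL)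
-/
set_option autoImplicit false

namespace Pool.Agent.Lib.MP_39893a_lc.AGL

theorem specAgrGlue : SpecAgr := specAgr BINDM.specBind specAgs specAgd

theorem specCoreGlue : SpecCore :=
  specCORE BINDM.specBind specTyc (specPig specTyc) (POLYM.specPoly specTyc (specRep CONJM.specConj specTyc))
    specTri PATHM.specPath

theorem finN : SpecFinN :=
  specFinN specCoreGlue ENCM.specEnc specAgs specAgd specAgrGlue

theorem finG : SpecFinG :=
  specFinG specCoreGlue GSIMM.specGsim specAgs specAgd specAgrGlue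

end Pool.Agent.Lib.MP_39893a_lc.AGL
end
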