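import Pool.Agent.Lib.MP_39893a_lc.AGL.Defs
import Pool.Agent.Lib.MP_39893a_lc.Dag

/-!
# Module statements (MP_39893a_lc, hive AGL)

Paper: /team-store/MP_39893a_AG_h64.md. Module XXX = file AGL/XXX.lean, imports AGL.Spec (only), proves
`theorem specXXX (hypotheses = earlier Specs) : SpecXXX`, auxiliary lemmas in the namespace
Pool.Agent.Lib.MP_39893a_lc.AGL.XXXM.
-/

set_option autoImplicit false

namespace Pool.Agent.Lib.MP_39893a_lc.AGL

/-- BIND. Inductions on the terms / trees / contexts. (1) `subst`; (2) `bind` (uses (1));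
(3) induction on `v`, (2); (4) induction on `K`: `hole` is `rfl`, `node` by (2), (3) and
`Function.update`; (5) = (2) and (4). -/
def SpecBind : Prop :=
  (∀ (n P : ℕ) (ζ : Tm n P) (σ : Fin P → Tm n P) (ρ : Fin P → Option Tree) (f : ℕ → Fns n P),
    (ζ.subst σ).ev ρ f = ζ.ev (fun j => (σ j).ev ρ f) f) ∧
  (∀ (n P : ℕ) (ζ : Tm n P) (F : ℕ → Fin n → Tm n P) (ρ : Fin P → Option Tree)
    (f : ℕ → Fns n P), (ζ.bind F).ev ρ f = ζ.ev ρ fun i q ρ' => (F i q).ev ρ' f) ∧
  (∀ (n P : ℕ) (T : PT n P) (v : Tree) (q : Fin n) (ρ : Fin P → Option Tree) (f : ℕ → Fns n P),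
    (T.unfT v q).ev ρ f = T.run v q ρ) ∧
  (∀ (n P : ℕ) (T : PT n P) (K : Ctx) (v : Tree) (q : Fin n) (ρ : Fin P → Option Tree),
    (T.unfC K q).ev ρ (fun _ => T.run v) = T.run (plug K v) q ρ) ∧
  (∀ (n P : ℕ) (T : PT n P) (K : Ctx) (v : Tree), T.val (plug K v) = (T.Z K).cl (T.run v))

/-- CONJ. Definedness is a conjunction. First: if there are `p : Prop` and `O : Set (Fin P)` with
`(g ρ).isSome ↔ p ∧ ∀ j ∈ O, (ρ j).isSome` for all `ρ`, then `Conj g` (then `occ g j ↔ ¬ p ∨ j ∈ O`). Then
induction on the term for (1): `out`: union; `call`: `p = p' ∧ ∀ l ∈ occ (f i q), p_l`,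
`O = ⋃ l ∈ occ (f i q), O_l`. (2) induction on `v` by (1). -/
def SpecConj : Prop :=
  (∀ (n P : ℕ) (ζ : Tm n P) (f : ℕ → Fns n P), (∀ i q, Conj (f i q)) →
    Conj fun ρ => ζ.ev ρ f) ∧
  ∀ (n P : ℕ) (T : PT n P) (v : Tree) (q : Fin n), Conj (T.run v q)

/-- TYC. Types are a congruence. (1) by induction on the term (`out`: `Typing.congr`, and defined
iff all children are defined, which is visible in the types); (2) by induction on `v`, as (1) with
calls on several subtrees; (3) `SameInfo` gives the same needed parameters (all patterns of `some t0` and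
`none` have the same types). -/
def SpecTyc : Prop :=
  (∀ (𝒯 : Typing) (n P : ℕ) (g g' : Fns n P) (ζ : Tm n P) (ρ ρ' : Fin P → Option Tree),
    (∀ q ρ ρ', (∀ j, 𝒯.oty (ρ j) = 𝒯.oty (ρ' j)) → 𝒯.oty (g q ρ) = 𝒯.oty (g' q ρ')) →
    (∀ j, 𝒯.oty (ρ j) = 𝒯.oty (ρ' j)) →
    𝒯.oty (ζ.ev ρ fun _ => g) = 𝒯.oty (ζ.ev ρ' fun _ => g')) ∧
  (∀ (𝒯 : Typing) (n P : ℕ) (T : PT n P) (v : Tree), SameInfo 𝒯 T v v) ∧
  (∀ (𝒯 : Typing) (n P : ℕ) (T : PT n P) (v v' : Tree), SameInfo 𝒯 T v v' →
    ∀ q j, occ (T.run v q) j ↔ occ (T.run v' q) j)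

/-- PIG. Pigeonhole. For each type `x : Fin N` choose a tree `rep x` of type `x` if there is one. The
information of `v` is the function `(q, θ) ↦ oty (run v q (rep ∘ θ))`,
`Fin n × (Fin P → Option (Fin N)) → Option (Fin N)`: there are `nI N n P` of them, and equal functions
give `SameInfo` (by SpecTyc (2)). Then the pigeonhole principle (`Finset.exists_lt_card_fiber_of_mul_lt_card_of_maps_to`). -/
def SpecPig : Prop :=
  ∀ (𝒯 : Typing) (n₁ P₁ n₂ P₂ : ℕ) (T₁ : PT n₁ P₁) (T₂ : PT n₂ P₂) (m h : ℕ)
    (v : Fin h → Tree), nI 𝒯.N n₁ P₁ * nI 𝒯.N n₂ P₂ * m < h →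
    ∃ J : Finset (Fin h), m < J.card ∧ ∀ i ∈ J, ∀ j ∈ J,
      SameInfo 𝒯 T₁ (v i) (v j) ∧ SameInfo 𝒯 T₂ (v i) (v j)

/-- REP. Typed affine representation (page, step 5). Statement for a term `ζ` and functions `f` (each
`f i q` having such representations and being a type congruence and `Conj`), by induction on `ζ`:
if no `ρ` with types `θ` gives a defined value take `0`. `par j`: `M j = 1`. `out`: the types of the
children are determined by `θ`; `TA`. `call q i c`: let `θ'` be the types of the arguments (determined by `θ`);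
`C x = C' x + ∑ l (defined), ∑ z, M' l x z * C_l z`, `M j x y = ∑ l (defined), ∑ z, M' l x z * M_l j z y`.
Not needed parameters: if `j` is not needed by the call, then for every `l` needed by `f i q` the
parameter `j` is not needed by the argument `l` (by `Conj`), so `M_l j = 0`; for the other `l`
`M' l = 0`. Then induction on `v`. -/
def SpecRep : Prop :=
  ∀ (R : Type) [Ring R] (d : ℕ) (𝒯 : Typing) (V : Tree → Fin d → R), TA 𝒯 V →
    ∀ (n P : ℕ) (T : PT n P) (v : Tree) (q : Fin n) (θ : Fin P → Option ℕ),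
      ∃ (C : Fin d → R) (M : Fin P → Fin d → Fin d → R),
        (∀ j, ¬ occ (T.run v q) j → M j = 0) ∧
        ∀ ρ : Fin P → Option Tree, (∀ j, 𝒯.oty (ρ j) = θ j) → ∀ t, T.run v q ρ = some t →
          ∀ x, V t x = C x + ∑ j, ∑ y, M j x y * oV V (ρ j) y

/-- POLY. Left linearity in the subtree (page, step 6). Choose `C, M` from SpecRep for all
`(v, q, θ)`, over `R` for `V` and over `S` for `w`: entries, indexed by
`Fin n × (Fin P → Option (Fin N)) × (Fin d ⊕ Fin P × Fin d × Fin d)` (`nE N n P d` of them). Monomials: for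
`σ : Fin e → Option index`: the product of the entry over `R` of slot 0 and the entries over `S`
(mapped to `R`) of the other slots (`1` for `none`). First the lemma over `S`: under `Good .. e`,
`w t x = ∑ λ * (product of e entries over S)`, by induction on `ζ` (a call uses one slot). Then over
`R`: in a call the needed arguments are low, so `oV V = algebraMap (oV w)` (central), and the not needed
ones have `M j = 0`. The types of the arguments and `occ` depend only on the information
(SpecTyc). -/
def SpecPoly : Prop :=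
  ∀ (S : Type) [CommRing S] (R : Type) [Ring R] [Algebra S R] (d : ℕ) (𝒯 : Typing)
    (w : Tree → Fin d → S) (V : Tree → Fin d → R) (low : ℕ → Prop), TA 𝒯 w → TA 𝒯 V →
    (∀ t, low (𝒯.ty t) → ∀ x, V t x = algebraMap S R (w t x)) →
    ∀ (n P : ℕ) (T : PT n P) (e : ℕ), ∃ μ : Fin (nM 𝒯.N n P d e) → Tree → R,
      ∀ (v₀ : Tree) (ζ : Tm n P), Good 𝒯 low (T.run v₀) ζ e → ∀ x : Fin d,
        ∃ l : Fin (nM 𝒯.N n P d e) → R, ∀ v, SameInfo 𝒯 T v₀ v →
          ∀ t, ζ.cl (T.run v) = some t → V t x = ∑ m, l m * μ m v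

/-- TRI. Triangular systems over a free algebra (page, step 7). `S' = MvPolynomial (ℕ × L) S`,
`σ = rename (fun (j, a) => (j + 1, a))` (injective), operators in `Module.End S S'`:
`μ f n = (h ↦ f * σ^n h)`, `μ f a ∘ μ g b = μ (f * σ^a g) (a + b)`. The algebra map
`ι : FA S L → End` with `ι (letter a) = μ (X (0, a)) 1` (`MonoidAlgebra.lift`, `FreeMonoid.lift`);
`ι r = ∑ μ (g_l) l`, `g_l = ∑ over words u of length l of r_u * z_u`, `z_u = ∏ X (j, u_j)`; different words
of the same length have different monomials, so `r ≠ 0` gives some `g_l ≠ 0`. `∑ μ (F_t) t = 0` only if all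
`F_t = 0` (`linearIndependent_monoidHom` for the powers of `σ`). If `M < n`: unknowns
`c_(i,a) ∈ S'`, `i < n`, `a ≤ K`; equations: for `x < M` and `t ≤ K + E` the coefficient of `σ^t` in
`∑_i (∑_a μ c_(i,a) a) ∘ ι (l i x)` is zero (linear in `c` on the left);
`n (K+1) > M (K+E+1)` for large `K`, so there is a nonzero solution (`card_le_of_injective`, strong
rank condition). Let `j` be maximal with `c_j ≠ 0`, compose with `ι (m j x)` and sum over `x`:
`c_j ∘ ι (∑ x, l j x * m j x) = 0`, contradiction (leading terms). -/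
def SpecTri : Prop :=
  ∀ (S : Type) [CommRing S] [IsDomain S] (L : Type) [Nonempty L] (M n : ℕ)
    (l m : Fin n → Fin M → FA S L), (∀ i j, i < j → ∑ x, l i x * m j x = 0) →
    (∀ i, ∑ x, l i x * m i x ≠ 0) → n ≤ M

/-- ENC. The encoding (page, step 4). `Typing`: `sty k`, `N = k + 2` (the truncated Strahler number of a
node depends only on those of the children). `TA` for `enc`: low result: all children low,
`C = gen.C b x`, `M i x y = gen.A b i x y`; high result: `C = 0`, `M i x y = letter` if `x = y`, else `0`.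
Injectivity: `gw (k+1) t x ≠ 0` (set all `A = 0`: the value is `X (inl (b, x))`), so `enc k t x ≠ 0` for all
`t` (left multiplication by letters is injective, different first letters are independent); low / high
is visible (coefficient of the empty word); low: `gw (k+1) t = gw (k+1) t'` gives `Sim (k + 1) t t'` (every
interpretation is an image of `gen`, `W_map`) and `separation`; high: compare the coefficients of
words with first letter `(b, r, i)`, induction on `t`. -/
def SpecEnc : Prop :=
  ∀ k : ℕ, ∃ 𝒯 : Typing, 𝒯.ty = sty k ∧ 𝒯.N = k + 2 ∧ TA 𝒯 (enc k) ∧ TA 𝒯 (gw (k + 1)) ∧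
    (∀ t, strahler t ≤ k → ∀ x, enc k t x = algebraMap GS _ (gw (k + 1) t x)) ∧
    ∀ (B : List ℕ) (t t' : Tree), Ranked B t → Ranked B t' → (∀ x, enc k t x = enc k t' x) →
      t = t'

/-- GSIM. Equal generic values give `Sim` (`W_map`; every interpretation over `S` is the image of `gen`
under `MvPolynomial.eval₂Hom`), and the trivial typing has `TA`. -/
def SpecGsim : Prop :=
  (∀ (d : ℕ) (t t' : Tree), (∀ x : Fin d, gw d t x = gw d t' x) → Sim d t t') ∧
  ∃ 𝒯 : Typing, 𝒯.N = 1 ∧ ∀ d, TA 𝒯 (gw d) ∧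
    TA 𝒯 fun t x => (algebraMap GS (FA GS (ℕ × ℕ × ℕ)) (gw d t x) : FA GS (ℕ × ℕ × ℕ))

/-- PATH. A longest path: subtrees `v 0 = s, ..., v (ht s - 1)` with contexts; putting a later one in an
earlier context gives a smaller ranked tree. Induction on `s`. -/
def SpecPath : Prop :=
  ∀ (A : List ℕ) (s : Tree), Ranked A s → ∃ (K : Fin (ht s) → Ctx) (v : Fin (ht s) → Tree),
    (∀ i, plug (K i) (v i) = s) ∧
    ∀ i j, i < j → Ranked A (plug (K i) (v j)) ∧ size (plug (K i) (v j)) < size s

/-- CORE (page, step 8). From SpecBind, SpecTyc, SpecPig, SpecPoly, SpecTri, SpecPath. `M` = number of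
monomials for both transducers. If `ht s` is larger than the bound, SpecPig gives `J` with more than `M`
elements, in particular two: `i < j` in `J`: `T₁, T₂` agree on `plug (K i) (v j)` and by SpecTyc (1)
(applied to `T.Z (K i)`) definedness at `v j` is that at `v i`: the first claim. For the second:
suppose `V t₁ x ≠ V t₂ x`; by `Reg` at `K i, v i` and SpecPoly `V_x(val₁) - V_x(val₂)` at
`plug (K i) (v j)`, `i, j ∈ J`, is a sum of `M` products; contradiction with SpecTri (order `J`). -/
def SpecCore : Prop :=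
  ∀ (A : List ℕ) (S : Type) [CommRing S] [IsDomain S] (L : Type) [Nonempty L] (d : ℕ)
    (𝒯 : Typing) (w : Tree → Fin d → S) (V : Tree → Fin d → FA S L) (low : ℕ → Prop), TA 𝒯 w →
    TA 𝒯 V → (∀ t, low (𝒯.ty t) → ∀ x, V t x = algebraMap S (FA S L) (w t x)) →
    ∀ (n₁ P₁ n₂ P₂ : ℕ) (T₁ : PT n₁ P₁) (T₂ : PT n₂ P₂) (e₁ e₂ : ℕ), Reg 𝒯 low A e₁ T₁ →
      Reg 𝒯 low A e₂ T₂ → ∀ s, Ranked A s → bound 𝒯.N d n₁ P₁ n₂ P₂ e₁ e₂ < ht s →
      (∀ s', Ranked A s' → size s' < size s → T₁.val s' = T₂.val s') →
      ((T₁.val s).isSome ↔ (T₂.val s).isSome) ∧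
      ∀ t₁ t₂, T₁.val s = some t₁ → T₂.val s = some t₂ → ∀ x, V t₁ x = V t₂ x

/-- AGS: soundness of the transducer of an attribute grammar. For a ranked input `s`, an address `u` with
subtree `v`, and parameters whose values (if defined) are values of the inherited attributes at
`u`, the values computed by `run v a`, and by the terms `conv (inhT σ f) τ` at `u`, are values in the
sense of `Ev`. Also `Ev` is functional, and outputs are ranked. Statement (1): soundness of `run`; (2): of
the unrolled inherited attributes at `u` (argument terms, with calls on the children); (3): of the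
root terms; (4) `Ev` is functional; (5) outputs are ranked. -/
def SpecAgs : Prop :=
  ∀ (A B : List ℕ) (G : AG A B),
    (∀ (s : Tree) (u : List ℕ) (v : Tree) (a : Fin G.p) (ρ : Fin G.q → Option Tree) (t : Tree) (i : ℕ),
      nd s (u ++ [i]) = some v → (∀ b t', ρ b = some t' → G.Ev s (u ++ [i]) (.inh b) t') →
      G.toPT.run v a ρ = some t → G.Ev s u (.syn a i) t) ∧
    (∀ (s : Tree) (u : List ℕ) (σ r : ℕ) (c : Fin r → Tree) (f i : ℕ) (b : Fin G.q)
      (ρ : Fin G.q → Option Tree) (t : Tree), nd s u = some (.node σ r c) → i < r →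
      (∀ b t', ρ b = some t' → G.Ev s u (.inh b) t') →
      (G.inhT σ f i b).ev ρ (fun j a ρ' => if h : j < r then G.toPT.run (c ⟨j, h⟩) a ρ' else none)
        = some t → G.Ev s (u ++ [i]) (.inh b) t) ∧
    (∀ (s : Tree) (f i : ℕ) (b : Fin G.q) (t : Tree),
      (G.rootT f i b).cl (G.toPT.run s) = some t → G.Ev s [0] (.inh b) t) ∧
    (∀ (s : Tree) (u : List ℕ) (τ : ATm G.p G.q) (t t' : Tree), G.Ev s u τ t → G.Ev s u τ t' →
      t = t') ∧
    (∀ (s : Tree), Ranked A s → ∀ t, G.Val s t → Ranked B t)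

/-- AGD: dependencies. `G.Dep s` on a ranked noncircular input.
(1) if the parameter `b` is needed by `run v a` (`v` the subtree at `u ++ [i]`), then
`(u ++ [i], inl a)` depends on `(u ++ [i], inr b)`; (2) completeness: `run v a` is defined when all parameters
are, and `val s` is defined.
Proof: work with the call-free term `unfT v a` (`SpecBind`): (1') every parameter `b` occurring in it
satisfies `TransGen (Dep s) (u ++ [i], inl a) (u ++ [i], inr b)` (induction on `v`, then on the unrolling depth: every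
leaf of `conv (inhT σ f) τ` comes from a leaf of `τ`, resp. of the rule of `(u ++ [i], inr b)`); (2') `bot` does
not occur in it: if `bot` occurs in the unrolled `(i, b)` with fuel `f`, there is a chain of length `f`
in `TransGen (Dep s)` starting from `(u ++ [i], inr b)` through inherited instances of the children of `u`;
there are `r * q` of them, so for `f = r * q + 1` one is repeated: a cycle. A call-free term
without `bot` is defined iff all parameters occurring in it are. The root is treated in the same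
way (chain of length `q + 1` through the instances `([0], inr b)`). -/
def SpecAgd : Prop :=
  ∀ (A B : List ℕ) (G : AG A B), G.Noncircular → ∀ s, Ranked A s →
    (∀ (u : List ℕ) (i : ℕ) (v : Tree), nd s (u ++ [i]) = some v → ∀ a : Fin G.p,
      (G.toPT.run v a fun _ => some t0).isSome ∧
      ∀ b : Fin G.q, occ (G.toPT.run v a) b →
        Relation.TransGen (G.Dep s) (u ++ [i], Sum.inl a) (u ++ [i], Sum.inr b)) ∧
    (G.toPT.val s).isSome

/-- AGR: the transducer of a noncircular attribute grammar is regular with `e = p`. Paper: step 2. Let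
`s = plug K v`, `h` the address of the hole (a nonempty list). Define for instances `x`, addresses `w` and
terms `ζ` (calls on the hole, parameters = inherited attributes at `w`) the predicate `Src x w ζ`:
`bot`: true; `par b`: `x ≽ (w, inr b)` (`≽` = `ReflTransGen Dep`); `out`: all; `call a _ c`: `x ≽ (h, inl a)` and
for all `b` needed by `run v a`: `Src (h, inr b) w (c b)`, and for all `ρ` sound at `w` the value of `c b` is
a value of `(h, inr b)`. It is monotone in `x`, stable under substitution (sound closures), so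
`Src (u, inl a) u (unfC K' a)` for the nodes `u` above the hole, and `Src` holds for `Z K`. Then with
`rank x` = number of `a` with `x ≽ (h, inl a)`, `Src x w ζ` gives `Good .. ζ (rank x)`: needed parameters
strictly decrease the rank, by SpecAgd (1) and noncircularity. -/
def SpecAgr : Prop :=
  ∀ (A B : List ℕ) (G : AG A B), G.Noncircular → ∀ (𝒯 : Typing) (low : ℕ → Prop),
    (∀ s, Ranked A s → ∀ (u : List ℕ) (b : Fin G.q) (t : Tree), G.Ev s u (.inh b) t →
      low (𝒯.ty t)) → Reg 𝒯 low A G.p G.toPT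

/-- FINN: inherited attributes of bounded Strahler number. From SpecCore, SpecEnc, SpecAgs, SpecAgd,
SpecAgr. -/
def SpecFinN : Prop :=
  ∀ (A B : List ℕ) (G₁ G₂ : AG A B) (k : ℕ), G₁.Noncircular → G₂.Noncircular →
    G₁.InhBound k → G₂.InhBound k →
    (∀ s, Ranked A s → ht s ≤ bound (k + 2) (k + 1) G₁.p G₁.q G₂.p G₂.q G₁.p G₂.p →
      ∀ t, G₁.Val s t ↔ G₂.Val s t) →
    ∀ s, Ranked A s → ∀ t, G₁.Val s t ↔ G₂.Val s t

/-- FING: minimal counterexamples have outputs of large Strahler number. From SpecCore, SpecGsim,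
SpecAgs, SpecAgd, SpecAgr, separation_dag. -/
def SpecFinG : Prop :=
  ∀ (A B : List ℕ) (G₁ G₂ : AG A B), G₁.Noncircular → G₂.Noncircular →
    ∀ s, Ranked A s → (∀ s', Ranked A s' → size s' < size s → ∀ t, G₁.Val s' t ↔ G₂.Val s' t) →
    ∀ t₁ t₂, G₁.Val s t₁ → G₂.Val s t₂ → t₁ ≠ t₂ →
    ∀ d, bound 1 (d + 1) G₁.p G₁.q G₂.p G₂.q G₁.p G₂.p < ht s → d < dstr t₁ ∧ d < dstr t₂

end Pool.Agent.Lib.MP_39893a_lc.AGL
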