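import Pool.Agent.Lib.MP_39893a_lc.AGL.Spec

/-!
# Macro tree transducers without self-nesting (MP_39893a_lc, hive AGL)
-/

set_option autoImplicit false

namespace Pool.Agent.Lib.MP_39893a_lc

/-- No call on the `i`-th subtree occurs in the term. -/
def Rhs.NoCall (i : ℕ) : Rhs → Prop
  | .param _ => True
  | .out _ _ c => ∀ l, (c l).NoCall i
  | .call _ j _ c => j ≠ i ∧ ∀ l, (c l).NoCall i

/-- No call on a subtree occurs in an argument of a call on the same subtree. -/
def Rhs.NonSelfNested : Rhs → Prop
  | .param _ => True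
  | .out _ _ c => ∀ l, (c l).NonSelfNested
  | .call _ i _ c => ∀ l, (c l).NoCall i ∧ (c l).NonSelfNested

/-- `Rhs.Sub ξ ζ`: `ξ` is a subterm of `ζ`. -/
inductive Rhs.Sub : Rhs → Rhs → Prop
  | refl (ζ : Rhs) : Sub ζ ζ
  | out (ξ : Rhs) (b r : ℕ) (c : Fin r → Rhs) (i : Fin r) : Sub ξ (c i) → Sub ξ (.out b r c)
  | call (ξ : Rhs) (q i n : ℕ) (c : Fin n → Rhs) (l : Fin n) : Sub ξ (c l) → Sub ξ (.call q i n c)

namespace DMTT

variable {A B : List ℕ} (M : DMTT A B)

/-- No rule nests a call on a subtree in an argument of a call on the same subtree. -/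
def NonSelfNested : Prop :=
  ∀ (q a : ℕ) (ζ : Rhs), q < M.params.length → a < A.length → M.rule q a = some ζ →
    ζ.NonSelfNested

/-- `Calls s u q ρ`: in the computation on the input `s` the state `q` is called at the node `u`
with the parameter values `ρ` (call by name, `none` = undefined). -/
inductive Calls (s : Tree) : List ℕ → ℕ → (ℕ → Option Tree) → Prop
  | root : Calls s [] 0 fun _ => none
  | step (u : List ℕ) (q : ℕ) (ρ : ℕ → Option Tree) (a r : ℕ) (c : Fin r → Tree) (ζ : Rhs)
      (q' i n : ℕ) (d : Fin n → Rhs) : Calls s u q ρ → AGL.sub s u = some (.node a r c) →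
      M.rule q a = some ζ → Rhs.Sub (.call q' i n d) ζ → i < r →
      Calls s (u ++ [i]) q' fun l => if h : l < n then
        (d ⟨l, h⟩).eval ρ (fun j p ρ' => if h : j < r then M.run (c ⟨j, h⟩) p ρ' else none)
        else none

/-- All parameter values, in the computations on all input trees, have Strahler number at most
`k`. -/
def ParBound (k : ℕ) : Prop :=
  ∀ s, Ranked A s → ∀ (u : List ℕ) (q : ℕ) (ρ : ℕ → Option Tree), M.Calls s u q ρ →
    ∀ (j : ℕ) (t : Tree), ρ j = some t → strahler t ≤ k

/-- Maximal number of parameters. -/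
def maxPar : ℕ := M.params.foldr max 0

end DMTT

namespace AGL

/-- A right-hand side as a term. -/
def ofRhs (n P : ℕ) : Rhs → Tm n P
  | .param j => if h : j < P then .par ⟨j, h⟩ else .bot
  | .out b r c => .out b r fun i => ofRhs n P (c i)
  | .call q i m c => if h : q < n then
      .call ⟨q, h⟩ i fun l => if h' : (l : ℕ) < m then ofRhs n P (c ⟨l, h'⟩) else .bot
      else .bot

/-- A macro tree transducer as a term transducer. -/
def ofDMTT {A B : List ℕ} (M : DMTT A B) : PT M.params.length M.maxPar where
  rule q a := match M.rule q a with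
    | none => .bot
    | some ζ => ofRhs _ _ ζ
  ini := if h : 0 < M.params.length then .call ⟨0, h⟩ 0 fun _ => .bot else .bot

/-- DM1. The semantics agree. (1) for a valid state `q` with `m` parameters and a parameter list `ρ`
which is `none` from `m` on: `(ofDMTT M).run s q (fun j => ρ j) = M.run s q ρ` (induction on `s`, then on the
well-formed right-hand side; the arguments of the calls are `none` from the arity on). (2) `val = tau`.
(3) outputs are ranked. -/
def SpecDM1 : Prop :=
  ∀ (A B : List ℕ) (M : DMTT A B),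
    (∀ s, Ranked A s → ∀ (q : ℕ) (hq : q < M.params.length) (m : ℕ), M.params[q]? = some m →
      ∀ ρ : ℕ → Option Tree, (∀ j, m ≤ j → ρ j = none) →
        (ofDMTT M).run s ⟨q, hq⟩ (fun j => ρ j) = M.run s q ρ) ∧
    (∀ s, Ranked A s → (ofDMTT M).val s = M.tau s) ∧
    (∀ s, Ranked A s → ∀ t, M.tau s = some t → Ranked B t)

/-- DM2. A transducer without self-nesting is regular with `e = 1`. Fix `s = plug K v`, `H` the address of
the hole. For the node `w` above the hole (context `K'`), a state `q`: in `unfC K' q` the arguments of the calls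
are call-free, and for every `ρ` with `Calls s w q ρ` their values `ρ'` satisfy `Calls s H q' ρ'`. Induction on
`K'`, then on the subterms of the rule: the calls of `bind` come from `F i q'` (child on the path; the
arguments there have no call on this child, so stay call-free), or from the arguments. -/
def SpecDM2 : Prop :=
  ∀ (A B : List ℕ) (M : DMTT A B), M.NonSelfNested → ∀ (𝒯 : Typing) (low : ℕ → Prop),
    (∀ s, Ranked A s → ∀ (u : List ℕ) (q : ℕ) (ρ : ℕ → Option Tree), M.Calls s u q ρ →
      ∀ (j : ℕ) (t : Tree), ρ j = some t → low (𝒯.ty t)) → Reg 𝒯 low A 1 (ofDMTT M)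

/-- DM3. From SpecCore, SpecEnc, SpecDM1, SpecDM2. -/
def SpecDM3 : Prop :=
  ∀ (A B : List ℕ) (M₁ M₂ : DMTT A B) (k : ℕ), M₁.NonSelfNested → M₂.NonSelfNested →
    M₁.ParBound k → M₂.ParBound k →
    (∀ s, Ranked A s → ht s ≤ bound (k + 2) (k + 1) M₁.params.length M₁.maxPar M₂.params.length
      M₂.maxPar 1 1 → M₁.tau s = M₂.tau s) →
    ∀ s, Ranked A s → M₁.tau s = M₂.tau s

end AGL

end Pool.Agent.Lib.MP_39893a_lc
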